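import Mathlib

set_option autoImplicit false

/-!
# `c*d*`-depth of matrices and matroids: definitions and general lemmas
-/

namespace Pool.Agent.R880.CD

open Set
open scoped Matroid

variable {𝔽 : Type} [Field 𝔽]

theorem aug {V : Type*} [AddCommGroup V] [Module 𝔽 V] (v : ℕ → V) {I J : Set ℕ}
    (hIf : I.Finite) (hJf : J.Finite) (hI : LinearIndepOn 𝔽 v I)
    (hJ : LinearIndepOn 𝔽 v J) (h : I.ncard < J.ncard) :
    ∃ e ∈ J, e ∉ I ∧ LinearIndepOn 𝔽 v (insert e I) := by
  by_contra hcon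
  push Not at hcon
  have h1 : ∀ e ∈ J, v e ∈ Submodule.span 𝔽 (v '' I) := by
    intro e he
    by_cases heI : e ∈ I
    · exact Submodule.subset_span ⟨e, heI, rfl⟩
    · by_contra hne
      exact hcon e he heI (hI.insert hne)
  have h2 : Submodule.span 𝔽 (v '' J) ≤ Submodule.span 𝔽 (v '' I) := by
    rw [Submodule.span_le]
    rintro _ ⟨e, he, rfl⟩
    exact h1 e he
  have h3 := Submodule.rank_mono h2
  have h4 := toENat_rank_span_set hI
  have h5 := toENat_rank_span_set hJ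
  have h6 : J.encard ≤ I.encard := by
    rw [← h4, ← h5]
    exact OrderHomClass.mono Cardinal.toENat h3
  have h7 : J.ncard ≤ I.ncard := by
    rw [← hJf.cast_ncard_eq, ← hIf.cast_ncard_eq] at h6
    exact_mod_cast h6
  omega

/-- the column of `A` with label `j` -/
def column {m : ℕ} (A : Matrix (Fin m) ℕ 𝔽) (j : ℕ) : Fin m → 𝔽 := fun i => A i j

/-- The column matroid of the matrix `A` whose columns are labelled by the finite set `E`:
a subset of `E` is independent iff the corresponding columns are linearly independent. -/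
def colMatroid {m : ℕ} (A : Matrix (Fin m) ℕ 𝔽) (E : Finset ℕ) : Matroid ℕ :=
  (IndepMatroid.ofFinite (E := (E : Set ℕ)) E.finite_toSet
    (fun I => I ⊆ E ∧ LinearIndepOn 𝔽 (column A) I)
    ⟨by simp, by simp⟩
    (fun _ _ hJ hIJ => ⟨hIJ.trans hJ.1, hJ.2.mono hIJ⟩)
    (fun _ _ hI hJ h => by
      obtain ⟨e, he, hne, hi⟩ := aug (column A) (E.finite_toSet.subset hI.1)
        (E.finite_toSet.subset hJ.1) hI.2 hJ.2 h
      exact ⟨e, he, hne, Set.insert_subset (hJ.1 he) hI.1, hi⟩)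
    (fun _ hI => hI.1)).matroid

/-- any two distinct elements of `X` lie on a common circuit of `M` -/
def PairwiseOnCircuit (M : Matroid ℕ) (X : Set ℕ) : Prop :=
  X ⊆ M.E ∧ ∀ e ∈ X, ∀ f ∈ X, e ≠ f → ∃ C, M.IsCircuit C ∧ e ∈ C ∧ f ∈ C

/-- the components of a matroid are the maximal sets of elements any two of which lie on a
common circuit -/
def IsComponent (M : Matroid ℕ) (X : Set ℕ) : Prop := Maximal (PairwiseOnCircuit M) X

/-- `M'` is a `c*`-transformation of `M`: there are a matroid `N` and `f ∈ E(N)` with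
`M = N \ f` and `M' = N / f`. -/
def CStar (M M' : Matroid ℕ) : Prop :=
  ∃ (N : Matroid ℕ) (f : ℕ), f ∈ N.E ∧ M = N ＼ {f} ∧ M' = N ／ {f}

/-- `M'` is a `d*`-transformation of `M`: there are a matroid `N` and `f ∈ E(N)` with
`M = N / f` and `M' = N \ f`. -/
def DStar (M M' : Matroid ℕ) : Prop :=
  ∃ (N : Matroid ℕ) (f : ℕ), f ∈ N.E ∧ M = N ／ {f} ∧ M' = N ＼ {f}

/-- the `c*d*`-depth of the matroid `M` is at most `k` -/
def MatroidDepthLE : ℕ → Matroid ℕ → Prop
  | 0, _ => False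
  | k + 1, M => ∀ X : Set ℕ, IsComponent M X → X.encard ≤ 1 ∨
      ∃ M' : Matroid ℕ, (CStar (M ↾ X) M' ∨ DStar (M ↾ X) M') ∧ M' ≠ M ↾ X ∧ MatroidDepthLE k M'

/-- the `c*d*`-depth of a (finite) matroid -/
noncomputable def matroidDepth (M : Matroid ℕ) : ℕ∞ :=
  sInf {d : ℕ∞ | ∃ k : ℕ, d = k ∧ MatroidDepthLE k M}

/-- append the row `w` -/
def appendRow {m : ℕ} (A : Matrix (Fin m) ℕ 𝔽) (w : ℕ → 𝔽) : Matrix (Fin (m + 1)) ℕ 𝔽 :=
  Fin.snoc (α := fun _ => ℕ → 𝔽) A w

/-- append the column `v`, pivot on its entry in row `r` (so that the new column becomes the unit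
vector of row `r`), then delete the new column and the row `r` -/
def pivotColumn {m : ℕ} (A : Matrix (Fin (m + 1)) ℕ 𝔽) (v : Fin (m + 1) → 𝔽) (r : Fin (m + 1)) :
    Matrix (Fin m) ℕ 𝔽 :=
  fun i j => A (r.succAbove i) j - v (r.succAbove i) / v r * A r j

/-- `c*`-steps and `d*`-steps of matrices -/
inductive MatrixStep : ∀ {m m' : ℕ}, Matrix (Fin m) ℕ 𝔽 → Matrix (Fin m') ℕ 𝔽 → Prop
  | c {m : ℕ} (A : Matrix (Fin (m + 1)) ℕ 𝔽) (v : Fin (m + 1) → 𝔽) (r : Fin (m + 1))
      (hr : v r ≠ 0) : MatrixStep A (pivotColumn A v r)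
  | d {m : ℕ} (A : Matrix (Fin m) ℕ 𝔽) (w : ℕ → 𝔽) : MatrixStep A (appendRow A w)

/-- the `c*d*`-depth of the matrix `A` with columns labelled by `E` is at most `k` -/
def MatrixDepthLE : ℕ → ∀ m : ℕ, Matrix (Fin m) ℕ 𝔽 → Finset ℕ → Prop
  | 0, _, _, _ => False
  | k + 1, _, A, E => ∀ X : Finset ℕ, IsComponent (colMatroid A E) X → X.card ≤ 1 ∨
      ∃ (m' : ℕ) (A' : Matrix (Fin m') ℕ 𝔽), MatrixStep A A' ∧
        colMatroid A' X ≠ colMatroid A X ∧ MatrixDepthLE k m' A' X

/-- the `c*d*`-depth of the matrix `A` with columns labelled by `E` -/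
noncomputable def matrixDepth {m : ℕ} (A : Matrix (Fin m) ℕ 𝔽) (E : Finset ℕ) : ℕ∞ :=
  sInf {d : ℕ∞ | ∃ k : ℕ, d = k ∧ MatrixDepthLE k m A E}

/-! ### Kernels -/

/-- the dependency space of the columns labelled by `E` -/
def Ker {m : ℕ} (A : Matrix (Fin m) ℕ 𝔽) (E : Finset ℕ) : Submodule 𝔽 (ℕ → 𝔽) where
  carrier := {x | (∀ j ∉ E, x j = 0) ∧ ∀ i, ∑ j ∈ E, A i j * x j = 0}
  add_mem' := by
    rintro x y ⟨hx, hx'⟩ ⟨hy, hy'⟩
    refine ⟨fun j hj => by simp [hx j hj, hy j hj], fun i => ?_⟩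
    simp only [Pi.add_apply, mul_add, Finset.sum_add_distrib, hx' i, hy' i, add_zero]
  zero_mem' := by simp
  smul_mem' := by
    rintro c x ⟨hx, hx'⟩
    refine ⟨fun j hj => by simp [hx j hj], fun i => ?_⟩
    have : ∑ j ∈ E, A i j * (c • x) j = c * ∑ j ∈ E, A i j * x j := by
      rw [Finset.mul_sum]
      refine Finset.sum_congr rfl fun j _ => ?_
      simp only [Pi.smul_apply, smul_eq_mul]
      ring
    rw [this, hx' i, mul_zero]

theorem mem_Ker {m : ℕ} {A : Matrix (Fin m) ℕ 𝔽} {E : Finset ℕ} {x : ℕ → 𝔽} :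
    x ∈ Ker A E ↔ (∀ j ∉ E, x j = 0) ∧ ∀ i, ∑ j ∈ E, A i j * x j = 0 := Iff.rfl

/-- restriction to a smaller label set -/
theorem mem_Ker_sub {m : ℕ} {A : Matrix (Fin m) ℕ 𝔽} {E X : Finset ℕ} (h : X ⊆ E)
    {x : ℕ → 𝔽} : x ∈ Ker A X ↔ x ∈ Ker A E ∧ ∀ j ∉ X, x j = 0 := by
  have key : (∀ j ∉ X, x j = 0) → ∀ i, ∑ j ∈ X, A i j * x j = ∑ j ∈ E, A i j * x j := by
    intro hx i
    refine Finset.sum_subset h fun j _ hj => ?_
    rw [hx j hj, mul_zero]
  constructor
  · rintro ⟨h1, h2⟩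
    refine ⟨⟨fun j hj => h1 j fun hj' => hj (h hj'), fun i => ?_⟩, h1⟩
    rw [← key h1 i, h2 i]
  · rintro ⟨⟨_, h2⟩, h3⟩
    exact ⟨h3, fun i => by rw [key h3 i, h2 i]⟩

@[simp] theorem colMatroid_E {m : ℕ} (A : Matrix (Fin m) ℕ 𝔽) (E : Finset ℕ) :
    (colMatroid A E).E = E := rfl

instance {m : ℕ} (A : Matrix (Fin m) ℕ 𝔽) (E : Finset ℕ) : (colMatroid A E).Finite :=
  ⟨E.finite_toSet⟩

theorem indep_iff' {m : ℕ} (A : Matrix (Fin m) ℕ 𝔽) (E : Finset ℕ) {I : Set ℕ} :
    (colMatroid A E).Indep I ↔ I ⊆ E ∧ LinearIndepOn 𝔽 (column A) I := Iff.rfl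

theorem indep_iff {m : ℕ} (A : Matrix (Fin m) ℕ 𝔽) (E : Finset ℕ) {I : Set ℕ} :
    (colMatroid A E).Indep I ↔ I ⊆ E ∧ ∀ x ∈ Ker A E, (∀ j ∉ I, x j = 0) → x = 0 := by
  classical
  rw [indep_iff']
  refine and_congr_right fun hI => ?_
  obtain ⟨J, rfl⟩ : ∃ J : Finset ℕ, (J : Set ℕ) = I :=
    ⟨(E.finite_toSet.subset hI).toFinset, by simp⟩
  have hJ : J ⊆ E := by exact_mod_cast hI
  rw [linearIndepOn_finset_iff]
  constructor
  · intro h x hx hxI
    have hx' := (mem_Ker_sub hJ (x := x)).2 ⟨hx, fun j hj => hxI j (by simpa using hj)⟩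
    have := h x (by
      funext i
      have := hx'.2 i
      simp only [Finset.sum_apply, Pi.smul_apply, smul_eq_mul, column,
        Pi.zero_apply]
      rw [← this]
      exact Finset.sum_congr rfl fun j _ => mul_comm _ _)
    funext j
    by_cases hj : j ∈ J
    · exact this j hj
    · exact hx'.1 j hj
  · intro h g hg j hj
    have hx : (fun j => if j ∈ J then g j else 0) ∈ Ker A J := by
      refine ⟨fun j hj => by simp [hj], fun i => ?_⟩
      have := congrFun hg i
      simp only [Finset.sum_apply, Pi.smul_apply, smul_eq_mul, column,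
        Pi.zero_apply] at this
      rw [← this]
      refine Finset.sum_congr rfl fun j hj => ?_
      simp [hj, mul_comm]
    have hx' := (mem_Ker_sub hJ).1 hx
    have := congrFun (h _ hx'.1 (by
      intro j hj
      exact hx'.2 j (by simpa using hj))) j
    simpa [hj] using this

/-- the matroid only depends on the dependency space -/
theorem colMatroid_congr {m m' : ℕ} {A : Matrix (Fin m) ℕ 𝔽} {A' : Matrix (Fin m') ℕ 𝔽}
    {E : Finset ℕ} (h : Ker A E = Ker A' E) : colMatroid A E = colMatroid A' E := by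
  refine Matroid.ext_indep rfl fun I hI => ?_
  rw [indep_iff, indep_iff, h]

theorem colMatroid_restrict {m : ℕ} (A : Matrix (Fin m) ℕ 𝔽) {E X : Finset ℕ} (h : X ⊆ E) :
    (colMatroid A E) ↾ (X : Set ℕ) = colMatroid A X := by
  refine Matroid.ext_indep rfl fun I hI => ?_
  rw [Matroid.restrict_indep_iff, indep_iff', indep_iff']
  constructor
  · rintro ⟨⟨_, h2⟩, h3⟩
    exact ⟨h3, h2⟩
  · rintro ⟨h1, h2⟩
    exact ⟨⟨h1.trans (by exact_mod_cast h), h2⟩, h1⟩

/-- a circuit of the column matroid carries a vector of the dependency space with exactly this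
support -/
theorem exists_of_isCircuit {m : ℕ} {A : Matrix (Fin m) ℕ 𝔽} {E : Finset ℕ} {C : Set ℕ}
    (hC : (colMatroid A E).IsCircuit C) :
    ∃ u ∈ Ker A E, (∀ j, u j ≠ 0 ↔ j ∈ C) := by
  have hd := hC.dep
  have hsub : C ⊆ E := hC.subset_ground
  have h1 : ¬ (colMatroid A E).Indep C := hd.not_indep
  rw [indep_iff] at h1
  push Not at h1
  obtain ⟨u, hu, hu0, hne⟩ := h1 hsub
  refine ⟨u, hu, fun j => ⟨fun hj => by_contra fun h => hj (hu0 j h), fun hj h0 => hne ?_⟩⟩
  have h2 := hC.sdiff_singleton_indep hj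
  rw [indep_iff] at h2
  refine h2.2 u hu fun i hi => ?_
  by_cases hiC : i ∈ C
  · have : i = j := by
      by_contra hij
      exact hi ⟨hiC, by simpa using hij⟩
    rw [this, h0]
  · exact hu0 i hiC

/-- every nonzero vector of the dependency space has a circuit in its support -/
theorem exists_circuit {m : ℕ} {A : Matrix (Fin m) ℕ 𝔽} {E : Finset ℕ} {x : ℕ → 𝔽}
    (hx : x ∈ Ker A E) (hne : x ≠ 0) :
    ∃ C, (colMatroid A E).IsCircuit C ∧ ∀ j ∈ C, x j ≠ 0 := by
  have hd : (colMatroid A E).Dep {j | x j ≠ 0} := by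
    have hsub : {j | x j ≠ 0} ⊆ (E : Set ℕ) := by
      intro j hj
      by_contra h
      exact hj (hx.1 j (by simpa using h))
    rw [Matroid.dep_iff]
    refine ⟨fun h => ?_, hsub⟩
    rw [indep_iff] at h
    exact hne (h.2 x hx fun j hj => by simpa using hj)
  obtain ⟨C, hC, hCc⟩ := hd.exists_isCircuit_subset
  exact ⟨C, hCc, fun j hj => hC hj⟩

/-! ### Components -/

theorem circuit_trans {M : Matroid ℕ} [M.Finite] {a b : ℕ} : ∀ (n : ℕ) (c : ℕ) (C₁ C₂ : Set ℕ),
    (C₁ ∪ C₂).ncard ≤ n → M.IsCircuit C₁ → M.IsCircuit C₂ → a ∈ C₁ → c ∈ C₁ → c ∈ C₂ → b ∈ C₂ →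
    ∃ C, M.IsCircuit C ∧ a ∈ C ∧ b ∈ C := by
  intro n
  induction n with
  | zero =>
    intro c C₁ C₂ hn h1 h2 ha hc1 hc2 hb
    exfalso
    have hfin : (C₁ ∪ C₂).Finite := (M.ground_finite.subset
      (Set.union_subset h1.subset_ground h2.subset_ground))
    have : C₁ ∪ C₂ = ∅ := (Set.ncard_eq_zero hfin).1 (by omega)
    have : a ∈ (∅ : Set ℕ) := this ▸ Or.inl ha
    exact this
  | succ n ih =>
    intro c C₁ C₂ hn h1 h2 ha hc1 hc2 hb
    by_contra hcon
    push Not at hcon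
    have ha2 : a ∉ C₂ := fun h => hcon C₂ h2 h hb
    have hb1 : b ∉ C₁ := fun h => hcon C₁ h1 ha h
    obtain ⟨C₃, hC3s, hC3, ha3⟩ := h1.strong_elimination h2 hc1 hc2 ha ha2
    obtain ⟨C₄, hC4s, hC4, hb4⟩ := h2.strong_elimination h1 hc2 hc1 hb hb1
    have hfin : (C₁ ∪ C₂).Finite := (M.ground_finite.subset
      (Set.union_subset h1.subset_ground h2.subset_ground))
    have hC3u : C₃ ⊆ C₁ ∪ C₂ := hC3s.trans Set.sdiff_subset
    have hC4u : C₄ ⊆ C₁ ∪ C₂ := by
      rw [Set.union_comm]; exact hC4s.trans Set.sdiff_subset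
    have hc3 : c ∉ C₃ := fun h => (hC3s h).2 rfl
    have hc4 : c ∉ C₄ := fun h => (hC4s h).2 rfl
    -- C₃ meets C₂
    obtain ⟨d, hd3, hd2⟩ : ∃ d ∈ C₃, d ∈ C₂ := by
      by_contra h
      push Not at h
      have hs : C₃ ⊆ C₁ := fun x hx => (hC3u hx).resolve_right (h x hx)
      have := hC3.eq_of_subset_isCircuit h1 hs
      exact hc3 (this ▸ hc1)
    have hsub : C₃ ∪ C₂ ⊆ C₁ ∪ C₂ := Set.union_subset hC3u Set.subset_union_right
    have heq : C₃ ∪ C₂ = C₁ ∪ C₂ := by
      by_contra hne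
      have hlt : (C₃ ∪ C₂).ncard < (C₁ ∪ C₂).ncard :=
        Set.ncard_lt_ncard (hsub.ssubset_of_ne hne) hfin
      obtain ⟨C, hC, h3, h4⟩ := ih d C₃ C₂ (by omega) hC3 h2 ha3 hd3 hd2 hb
      exact hcon C hC h3 h4
    -- C₄ is not inside C₂
    obtain ⟨d', hd4, hd2'⟩ : ∃ d ∈ C₄, d ∉ C₂ := by
      by_contra h
      push Not at h
      have := hC4.eq_of_subset_isCircuit h2 h
      exact hc4 (this ▸ hc2)
    have hd3' : d' ∈ C₃ := by
      have : d' ∈ C₃ ∪ C₂ := heq ▸ hC4u hd4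
      exact this.resolve_right hd2'
    have hlt : (C₃ ∪ C₄).ncard < (C₁ ∪ C₂).ncard := by
      refine Set.ncard_lt_ncard ?_ hfin
      refine (Set.union_subset hC3u hC4u).ssubset_of_ne fun h => ?_
      have : c ∈ C₃ ∪ C₄ := h ▸ Or.inl hc1
      exact this.elim hc3 hc4
    obtain ⟨C, hC, h3, h4⟩ := ih d' C₃ C₄ (by omega) hC3 hC4 ha3 hd3' hd4 hb4
    exact hcon C hC h3 h4

theorem circuit_subset_component {M : Matroid ℕ} [M.Finite] {X C : Set ℕ}
    (hX : IsComponent M X) (hC : M.IsCircuit C) (h : ∃ c ∈ C, c ∈ X) : C ⊆ X := by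
  obtain ⟨c, hcC, hcX⟩ := h
  have hP : PairwiseOnCircuit M (X ∪ C) := by
    refine ⟨Set.union_subset hX.1.1 hC.subset_ground, ?_⟩
    have key : ∀ e ∈ X, ∀ f ∈ C, ∃ D, M.IsCircuit D ∧ e ∈ D ∧ f ∈ D := by
      intro e he f hf
      by_cases hec : e = c
      · exact ⟨C, hC, hec ▸ hcC, hf⟩
      · obtain ⟨D, hD, h1, h2⟩ := hX.1.2 e he c hcX hec
        exact circuit_trans _ c D C le_rfl hD hC h1 h2 hcC hf
    rintro e (he | he) f (hf | hf) hef
    · exact hX.1.2 e he f hf hef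
    · exact key e he f hf
    · obtain ⟨D, hD, h1, h2⟩ := key f hf e he
      exact ⟨D, hD, h2, h1⟩
    · exact ⟨C, hC, he, hf⟩
  exact Set.subset_union_right.trans (hX.2 hP Set.subset_union_left)

theorem exists_component {M : Matroid ℕ} [M.Finite] {s : ℕ} (hs : s ∈ M.E) :
    ∃ X, IsComponent M X ∧ s ∈ X := by
  have hfin : {X : Set ℕ | PairwiseOnCircuit M X}.Finite :=
    M.ground_finite.finite_subsets.subset fun X hX => hX.1
  have hmem : ({s} : Set ℕ) ∈ {X : Set ℕ | PairwiseOnCircuit M X} := by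
    refine ⟨by simpa using hs, ?_⟩
    rintro e he f hf hef
    exact absurd (he.trans hf.symm) hef
  obtain ⟨X, hX, hXm⟩ := hfin.exists_le_maximal hmem
  exact ⟨X, hXm, hX rfl⟩

/-- restriction of vectors to `Z` -/
noncomputable def ind (Z : Set ℕ) : (ℕ → 𝔽) →ₗ[𝔽] (ℕ → 𝔽) where
  toFun x := Z.indicator x
  map_add' x y := Set.indicator_add _ _ _
  map_smul' c x := by
    funext j
    by_cases h : j ∈ Z <;> simp [h]

theorem ind_apply (Z : Set ℕ) (x : ℕ → 𝔽) (j : ℕ) : ind Z x j = Z.indicator x j := rfl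

theorem ind_mem {Z : Set ℕ} {x : ℕ → 𝔽} {j : ℕ} (h : j ∈ Z) : ind Z x j = x j := by
  rw [ind_apply, Set.indicator_of_mem h]

theorem ind_notMem {Z : Set ℕ} {x : ℕ → 𝔽} {j : ℕ} (h : j ∉ Z) : ind Z x j = 0 := by
  rw [ind_apply, Set.indicator_of_notMem h]

/-- the dependency space splits along components -/
theorem comp_split {m : ℕ} {A : Matrix (Fin m) ℕ 𝔽} {E : Finset ℕ} {X : Set ℕ}
    (hX : IsComponent (colMatroid A E) X) : ∀ x ∈ Ker A E, ind X x ∈ Ker A E := by
  classical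
  have key : ∀ n : ℕ, ∀ x ∈ Ker A E, (E.filter fun j => x j ≠ 0).card ≤ n → ind X x ∈ Ker A E := by
    intro n
    induction n with
    | zero =>
      intro x hx hn
      have : x = 0 := by
        funext j
        by_contra hj
        have hjE : j ∈ E := by
          by_contra h
          exact hj (hx.1 j h)
        have : j ∈ (E.filter fun j => x j ≠ 0) := by simp [hjE]; exact hj
        rw [Finset.card_eq_zero.1 (Nat.le_zero.1 hn)] at this
        exact absurd this (Finset.notMem_empty j)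
      rw [this, map_zero]
      exact Submodule.zero_mem _
    | succ n ih =>
      intro x hx hn
      by_cases hx0 : x = 0
      · rw [hx0, map_zero]
        exact Submodule.zero_mem _
      obtain ⟨C, hC, hCx⟩ := exists_circuit hx hx0
      obtain ⟨u, hu, huC⟩ := exists_of_isCircuit hC
      obtain ⟨c, hc⟩ := hC.nonempty
      have huc : u c ≠ 0 := (huC c).2 hc
      have hindu : ind X u ∈ Ker A E := by
        by_cases hm : ∃ c ∈ C, c ∈ X
        · have hCX := circuit_subset_component hX hC hm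
          have : ind X u = u := by
            funext j
            by_cases hj : j ∈ X
            · exact ind_mem hj
            · rw [ind_notMem hj]
              by_contra h
              exact hj (hCX ((huC j).1 (Ne.symm h)))
          rw [this]; exact hu
        · push Not at hm
          have : ind X u = 0 := by
            funext j
            by_cases hj : j ∈ X
            · rw [ind_mem hj]
              by_contra h
              exact hm j ((huC j).1 h) hj
            · exact ind_notMem hj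
          rw [this]; exact Submodule.zero_mem _
      have hx' : x - (x c / u c) • u ∈ Ker A E :=
        Submodule.sub_mem _ hx (Submodule.smul_mem _ _ hu)
      have hcard : (E.filter fun j => (x - (x c / u c) • u) j ≠ 0).card ≤ n := by
        have hss : (E.filter fun j => (x - (x c / u c) • u) j ≠ 0) ⊂
            (E.filter fun j => x j ≠ 0) := by
          rw [Finset.ssubset_iff_of_subset]
          · refine ⟨c, ?_, ?_⟩
            · have : c ∈ E := by exact_mod_cast hC.subset_ground hc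
              simp [this, hCx c hc]
            · simp [huc]
          · intro j hj
            rw [Finset.mem_filter] at hj ⊢
            refine ⟨hj.1, fun h0 => hj.2 ?_⟩
            have : u j = 0 := by
              by_contra h
              exact hCx j ((huC j).1 h) h0
            simp [h0, this]
        have := Finset.card_lt_card hss
        omega
      have h3 := ih _ hx' hcard
      have h4 : ind X x = ind X (x - (x c / u c) • u) + (x c / u c) • ind X u := by
        rw [← map_smul, ← map_add, sub_add_cancel]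
      rw [h4]
      exact Submodule.add_mem _ h3 (Submodule.smul_mem _ _ hindu)
  intro x hx
  exact key _ x hx le_rfl

/-! ### Steps -/

/-- adjacent dependency spaces -/
def Adj (K K' : Submodule 𝔽 (ℕ → 𝔽)) : Prop :=
  ∃ φ : (ℕ → 𝔽) →ₗ[𝔽] 𝔽, K = K' ⊓ LinearMap.ker φ ∨ K' = K ⊓ LinearMap.ker φ

/-- the functional of a row -/
def rowF (w : ℕ → 𝔽) (E : Finset ℕ) : (ℕ → 𝔽) →ₗ[𝔽] 𝔽 where
  toFun x := ∑ j ∈ E, w j * x j
  map_add' x y := by simp only [Pi.add_apply, mul_add, Finset.sum_add_distrib]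
  map_smul' c x := by
    simp only [Pi.smul_apply, smul_eq_mul, RingHom.id_apply, Finset.mul_sum]
    exact Finset.sum_congr rfl fun j _ => by ring

theorem rowF_apply (w : ℕ → 𝔽) (E : Finset ℕ) (x : ℕ → 𝔽) :
    rowF w E x = ∑ j ∈ E, w j * x j := rfl

theorem appendRow_last {m : ℕ} (A : Matrix (Fin m) ℕ 𝔽) (w : ℕ → 𝔽) (j : ℕ) :
    appendRow A w (Fin.last m) j = w j := by
  simp [appendRow, Fin.snoc]

theorem appendRow_castSucc {m : ℕ} (A : Matrix (Fin m) ℕ 𝔽) (w : ℕ → 𝔽) (i : Fin m) (j : ℕ) :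
    appendRow A w i.castSucc j = A i j := by
  simp [appendRow, Fin.snoc]

theorem Ker_appendRow {m : ℕ} (A : Matrix (Fin m) ℕ 𝔽) (w : ℕ → 𝔽) (E : Finset ℕ) :
    Ker (appendRow A w) E = Ker A E ⊓ LinearMap.ker (rowF w E) := by
  ext x
  rw [Submodule.mem_inf, mem_Ker, mem_Ker, LinearMap.mem_ker, rowF_apply]
  constructor
  · rintro ⟨h1, h2⟩
    refine ⟨⟨h1, fun i => ?_⟩, ?_⟩
    · have := h2 i.castSucc
      simpa only [appendRow_castSucc] using this
    · have := h2 (Fin.last m)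
      simpa only [appendRow_last] using this
  · rintro ⟨⟨h1, h2⟩, h3⟩
    refine ⟨h1, fun i => ?_⟩
    induction i using Fin.lastCases with
    | last => simpa only [appendRow_last] using h3
    | cast i => simpa only [appendRow_castSucc] using h2 i

theorem Ker_pivotColumn {m : ℕ} (A : Matrix (Fin (m + 1)) ℕ 𝔽) (v : Fin (m + 1) → 𝔽)
    (r : Fin (m + 1)) (E : Finset ℕ) :
    Ker A E = Ker (pivotColumn A v r) E ⊓ LinearMap.ker (rowF (A r) E) := by
  ext x
  rw [Submodule.mem_inf, mem_Ker, mem_Ker, LinearMap.mem_ker, rowF_apply]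
  have key : ∀ i, ∑ j ∈ E, pivotColumn A v r i j * x j =
      ∑ j ∈ E, A (r.succAbove i) j * x j - v (r.succAbove i) / v r * ∑ j ∈ E, A r j * x j := by
    intro i
    rw [Finset.mul_sum, ← Finset.sum_sub_distrib]
    refine Finset.sum_congr rfl fun j _ => ?_
    rw [pivotColumn]
    ring
  constructor
  · rintro ⟨h1, h2⟩
    exact ⟨⟨h1, fun i => by rw [key, h2, h2, mul_zero, sub_zero]⟩, h2 r⟩
  · rintro ⟨⟨h1, h2⟩, h3⟩
    refine ⟨h1, fun i => ?_⟩
    by_cases hi : i = r
    · rw [hi]; exact h3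
    · obtain ⟨i', rfl⟩ := Fin.exists_succAbove_eq hi
      have := h2 i'
      rw [key, h3, mul_zero, sub_zero] at this
      exact this

theorem MatrixStep.adj {m m' : ℕ} {A : Matrix (Fin m) ℕ 𝔽} {A' : Matrix (Fin m') ℕ 𝔽}
    (h : MatrixStep A A') (E : Finset ℕ) : Adj (Ker A E) (Ker A' E) := by
  cases h with
  | c A v r hr => exact ⟨rowF (A r) E, Or.inl (Ker_pivotColumn A v r E)⟩
  | d A w => exact ⟨rowF w E, Or.inr (Ker_appendRow A w E)⟩

end Pool.Agent.R880.CD
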