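import Pool.Agent.R880.CD.Ex

set_option autoImplicit false

/-!
# Connectivity of the example and of its neighbours
-/

namespace Pool.Agent.R880.CD

/-- the six functionals cutting out the dependency space of `A1` -/
noncomputable def F1 : Fin 6 → ((ℕ → ℚ) →ₗ[ℚ] ℚ) :=
  ![P 1 - (2 : ℚ) • P 2 + P 3, P 2 - (2 : ℚ) • P 3 + P 4, P 3 - (2 : ℚ) • P 4 + P 5,
    sm L1 + P 1 - P 2, sm L2 + (2 : ℚ) • P 1 - P 2, sw L1 + sw L2]

theorem mem_K1_of_F1 {x : ℕ → ℚ} (hx : ∀ j ∉ S, x j = 0) (h : ∀ i, F1 i x = 0) :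
    x ∈ Ker A1 S := by
  have h0 := h 0
  have h1 := h 1
  have h2 := h 2
  have h3 := h 3
  have h4 := h 4
  have h5 := h 5
  simp only [F1, Matrix.cons_val_zero, Matrix.cons_val_one, Matrix.cons_val,
    LinearMap.add_apply, LinearMap.sub_apply,
    LinearMap.smul_apply, P_apply, smul_eq_mul] at h0 h1 h2 h3 h4 h5
  exact mem_K1.2 ⟨hx, ⟨h0, h1, h2⟩, h3, h4, h5⟩

/-- maximal size of a subset satisfying `Cond` -/
def rk (e a b : ℕ) : ℕ := min 6 (e + min 3 (min 2 a + min 2 b))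

theorem rk_ineq : ∀ e < 6, ∀ a < 8, ∀ b < 8, 2 ≤ e + a + b → e + a + b ≤ 17 →
    8 ≤ rk e a b + rk (5 - e) (7 - a) (7 - b) := by
  decide

theorem exists_cond (Y : Finset ℕ) (hY : Y ⊆ S) :
    ∃ I ⊆ Y, Cond I ∧ I.card = rk (Y ∩ E1).card (Y ∩ L1).card (Y ∩ L2).card := by
  set e := (Y ∩ E1).card
  set a := (Y ∩ L1).card
  set b := (Y ∩ L2).card
  have ha' : min 2 a ≤ a := min_le_right _ _
  obtain ⟨Ia, hIa, ca⟩ := Finset.exists_subset_card_eq (s := Y ∩ L1) (n := min 2 a) (min_le_right _ _)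
  obtain ⟨Ib, hIb, cb⟩ := Finset.exists_subset_card_eq (s := Y ∩ L2)
    (n := min (3 - min 2 a) (min 2 b)) ((min_le_right _ _).trans (min_le_right _ _))
  obtain ⟨Ie, hIe, ce⟩ := Finset.exists_subset_card_eq (s := Y ∩ E1)
    (n := min e (6 - min 2 a - min (3 - min 2 a) (min 2 b))) (min_le_left _ _)
  have hsub : Ie ∪ Ia ∪ Ib ⊆ Y := by
    refine Finset.union_subset (Finset.union_subset ?_ ?_) ?_
    · exact hIe.trans Finset.inter_subset_left
    · exact hIa.trans Finset.inter_subset_left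
    · exact hIb.trans Finset.inter_subset_left
  have m1 : ∀ j ∈ Ie, j ∈ E1 := fun j hj => (Finset.mem_inter.1 (hIe hj)).2
  have m2 : ∀ j ∈ Ia, j ∈ L1 := fun j hj => (Finset.mem_inter.1 (hIa hj)).2
  have m3 : ∀ j ∈ Ib, j ∈ L2 := fun j hj => (Finset.mem_inter.1 (hIb hj)).2
  have i1 : (Ie ∪ Ia ∪ Ib) ∩ L1 = Ia := by
    ext j
    simp only [Finset.mem_inter, Finset.mem_union]
    constructor
    · rintro ⟨(h | h) | h, h'⟩
      · exact absurd h' (disjE1 (m1 j h)).1
      · exact h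
      · exact absurd (m3 j h) (disj12 h')
    · intro h
      exact ⟨Or.inl (Or.inr h), m2 j h⟩
  have i2 : (Ie ∪ Ia ∪ Ib) ∩ L2 = Ib := by
    ext j
    simp only [Finset.mem_inter, Finset.mem_union]
    constructor
    · rintro ⟨(h | h) | h, h'⟩
      · exact absurd h' (disjE1 (m1 j h)).2
      · exact absurd h' (disj12 (m2 j h))
      · exact h
    · intro h
      exact ⟨Or.inr h, m3 j h⟩
  have i0 : (Ie ∪ Ia ∪ Ib) ∩ E1 = Ie := by
    ext j
    simp only [Finset.mem_inter, Finset.mem_union]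
    constructor
    · rintro ⟨(h | h) | h, h'⟩
      · exact h
      · exact absurd (m2 j h) (disjE1 h').1
      · exact absurd (m3 j h) (disjE1 h').2
    · intro h
      exact ⟨Or.inl (Or.inl h), m1 j h⟩
  have hcard := card_split (hsub.trans hY)
  rw [i0, i1, i2, ca, cb, ce] at hcard
  refine ⟨Ie ∪ Ia ∪ Ib, hsub, ⟨?_, ?_, ?_, ?_⟩, ?_⟩
  · rw [i1, ca]; omega
  · rw [i2, cb]; omega
  · rw [i1, i2, ca, cb]; omega
  · omega
  · rw [hcard, rk]; omega

/-- `3`-connectivity -/
theorem threeC {Y : Finset ℕ} (hY : Y ⊆ S) (ψ : (ℕ → ℚ) →ₗ[ℚ] ℚ)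
    (h : ∀ x ∈ Ker A1 S, ψ x = 0 → ind (Y : Set ℕ) x ∈ Ker A1 S) :
    Y.card ≤ 1 ∨ (S \ Y).card ≤ 1 := by
  by_contra hcon
  push Not at hcon
  obtain ⟨c1, c2⟩ := hcon
  have hT : S \ Y ⊆ S := Finset.sdiff_subset
  obtain ⟨I, hIY, hIc, hI⟩ := exists_cond Y hY
  obtain ⟨J, hJT, hJc, hJ⟩ := exists_cond (S \ Y) hT
  have hsp : ∀ L : Finset ℕ, L ⊆ S → ((S \ Y) ∩ L).card = L.card - (Y ∩ L).card := by
    intro L hL
    have h1 : (S \ Y) ∩ L = L \ (Y ∩ L) := by
      ext j
      simp only [Finset.mem_inter, Finset.mem_sdiff]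
      constructor
      · rintro ⟨⟨_, h2⟩, h3⟩
        exact ⟨h3, fun h => h2 h.1⟩
      · rintro ⟨h2, h3⟩
        exact ⟨⟨hL h2, fun h => h3 ⟨h, h2⟩⟩, h2⟩
    rw [h1, Finset.card_sdiff_of_subset Finset.inter_subset_right]
  have e5 : E1.card = 5 := by decide
  have l7 : L1.card = 7 := by decide
  have l7' : L2.card = 7 := by decide
  have b1 : (Y ∩ E1).card ≤ 5 := e5 ▸ Finset.card_le_card Finset.inter_subset_right
  have b2 : (Y ∩ L1).card ≤ 7 := l7 ▸ Finset.card_le_card Finset.inter_subset_right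
  have b3 : (Y ∩ L2).card ≤ 7 := l7' ▸ Finset.card_le_card Finset.inter_subset_right
  have s1 := card_split hY
  have s2 := card_split hT
  rw [hsp E1 E1S, hsp L1 L1S, hsp L2 L2S, e5, l7, l7'] at s2
  rw [hsp E1 E1S, hsp L1 L1S, hsp L2 L2S, e5, l7, l7'] at hJ
  have hr := rk_ineq _ (by omega : (Y ∩ E1).card < 6) _ (by omega : (Y ∩ L1).card < 8) _
    (by omega : (Y ∩ L2).card < 8) (by omega) (by omega)
  have hd : Disjoint I J := Finset.disjoint_left.2 fun j hj hj' =>
    (Finset.mem_sdiff.1 (hJT hj')).2 (hIY hj)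
  have hU : 7 < (I ∪ J).card := by
    rw [Finset.card_union_of_disjoint hd]; omega
  obtain ⟨x, hx0, hxs, hx⟩ := exists_supported (I ∪ J) hU (Fin.snoc F1 ψ)
  have hxS : ∀ j ∉ S, x j = 0 := by
    intro j hj
    refine hxs j fun h' => hj ?_
    rcases Finset.mem_union.1 h' with h' | h'
    · exact hY (hIY h')
    · exact hT (hJT h')
  have hxK : x ∈ Ker A1 S := by
    refine mem_K1_of_F1 hxS fun i => ?_
    have := hx i.castSucc
    rwa [Fin.snoc_castSucc (α := fun _ => ((ℕ → ℚ) →ₗ[ℚ] ℚ))] at this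
  have hxψ : ψ x = 0 := by
    have := hx (Fin.last 6)
    rwa [Fin.snoc_last (α := fun _ => ((ℕ → ℚ) →ₗ[ℚ] ℚ))] at this
  have h1 := h x hxK hxψ
  have h2 : ind (Y : Set ℕ) x = 0 := by
    refine indep1 (hIY.trans hY) hIc h1 fun j hj => ?_
    by_cases hjY : j ∈ Y
    · rw [ind_mem (by exact_mod_cast hjY)]
      refine hxs j fun h' => ?_
      rcases Finset.mem_union.1 h' with h' | h'
      · exact hj h'
      · exact (Finset.mem_sdiff.1 (hJT h')).2 hjY
    · exact ind_notMem (by exact_mod_cast hjY)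
  apply hx0
  refine indep1 (hJT.trans hT) hJc hxK fun j hj => ?_
  by_cases hjY : j ∈ Y
  · rw [← ind_mem (x := x) (show j ∈ (Y : Set ℕ) by exact_mod_cast hjY), h2]; rfl
  · refine hxs j fun h' => ?_
    rcases Finset.mem_union.1 h' with h' | h'
    · exact hjY (hIY h')
    · exact hj h'

theorem cond_pair (a b : ℕ) : Cond {a, b} := by
  have h : ({a, b} : Finset ℕ).card ≤ 2 := Finset.card_le_two
  have h1 : ∀ L : Finset ℕ, (({a, b} : Finset ℕ) ∩ L).card ≤ 2 := fun L =>
    (Finset.card_le_card Finset.inter_subset_left).trans h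
  refine ⟨h1 L1, h1 L2, ?_, by omega⟩
  have hd : Disjoint (({a, b} : Finset ℕ) ∩ L1) (({a, b} : Finset ℕ) ∩ L2) :=
    Finset.disjoint_left.2 fun j hj hj' =>
      disj12 (Finset.mem_inter.1 hj).2 (Finset.mem_inter.1 hj').2
  rw [← Finset.card_union_of_disjoint hd]
  have : (({a, b} : Finset ℕ) ∩ L1) ∪ (({a, b} : Finset ℕ) ∩ L2) ⊆ {a, b} :=
    Finset.union_subset Finset.inter_subset_left Finset.inter_subset_left
  have := Finset.card_le_card this
  omega

/-- two columns of `A1` are never parallel -/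
theorem pair1 {a b : ℕ} (ha : a ∈ S) (hb : b ∈ S) {x : ℕ → ℚ} (hx : x ∈ Ker A1 S)
    (h : ∀ j, j ≠ a → j ≠ b → x j = 0) : x = 0 := by
  refine indep1 (I := {a, b}) ?_ (cond_pair a b) hx fun j hj => ?_
  · intro j hj
    simp only [Finset.mem_insert, Finset.mem_singleton] at hj
    rcases hj with rfl | rfl <;> assumption
  · simp only [Finset.mem_insert, Finset.mem_singleton, not_or] at hj
    exact h j hj.1 hj.2

/-! ### explicit vectors -/

/-- the affine function `α + β j` on the first five labels -/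
def ev (α β : ℚ) (j : ℕ) : ℚ := if j ∈ E1 then α + β * j else 0

/-- unit vectors -/
def un (p j : ℕ) : ℚ := if j = p then 1 else 0

theorem ev_E1 {α β : ℚ} {j : ℕ} (h : j ∈ E1) : ev α β j = α + β * j := by simp [ev, h]
theorem ev_not {α β : ℚ} {j : ℕ} (h : j ∉ E1) : ev α β j = 0 := by simp [ev, h]
theorem un_self (p : ℕ) : un p p = 1 := by simp [un]
theorem un_ne {p j : ℕ} (h : j ≠ p) : un p j = 0 := by simp [un, h]

theorem sm_ev {L : Finset ℕ} (hL : IsLine L) (α β : ℚ) : sm L (ev α β) = 0 := by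
  rw [sm_apply]
  refine Finset.sum_eq_zero fun j hj => ev_not fun h => ?_
  rcases hL with rfl | rfl
  · exact (disjE1 h).1 hj
  · exact (disjE1 h).2 hj

theorem sw_ev {L : Finset ℕ} (hL : IsLine L) (α β : ℚ) : sw L (ev α β) = 0 := by
  rw [sw_apply]
  refine Finset.sum_eq_zero fun j hj => ?_
  have : j ∉ E1 := by
    intro h
    rcases hL with rfl | rfl
    · exact (disjE1 h).1 hj
    · exact (disjE1 h).2 hj
  rw [ev_not this, mul_zero]

theorem sm_un {L : Finset ℕ} {p : ℕ} (h : p ∈ L) : sm L (un p) = 1 := by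
  rw [sm_apply]; simp [un, h]
theorem sm_un0 {L : Finset ℕ} {p : ℕ} (h : p ∉ L) : sm L (un p) = 0 := by
  rw [sm_apply]; simp [un, h]
theorem sw_un {L : Finset ℕ} {p : ℕ} (h : p ∈ L) : sw L (un p) = tt p := by
  rw [sw_apply]; simp [un, h]
theorem sw_un0 {L : Finset ℕ} {p : ℕ} (h : p ∉ L) : sw L (un p) = 0 := by
  rw [sw_apply]; simp [un, h]

theorem ev_12345 (α β : ℚ) : ev α β 1 = α + β ∧ ev α β 2 = α + β * 2 ∧ ev α β 3 = α + β * 3 ∧
    ev α β 4 = α + β * 4 ∧ ev α β 5 = α + β * 5 := by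
  refine ⟨?_, ?_, ?_, ?_, ?_⟩ <;> rw [ev_E1 (by decide)] <;> norm_num

/-- `Aff` for vectors which agree with an affine function on `E1` -/
theorem aff_of {x : ℕ → ℚ} {α β : ℚ} (h : ∀ j ∈ E1, x j = α + β * j) : Aff x := by
  have h1 := h 1 (by decide)
  have h2 := h 2 (by decide)
  have h3 := h 3 (by decide)
  have h4 := h 4 (by decide)
  have h5 := h 5 (by decide)
  push_cast at h1 h2 h3 h4 h5
  refine ⟨?_, ?_, ?_⟩ <;> linarith

/-- a vector of the dependency space of `A1` with prescribed affine part -/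
def yv (α β : ℚ) : ℕ → ℚ :=
  ev α β + (2 * β - α) • un 11 + (α - β) • un 12 - α • un 21

theorem yv_E1 {α β : ℚ} {j : ℕ} (h : j ∈ E1) : yv α β j = α + β * j := by
  have h' := mem_E1.1 h
  simp only [yv, Pi.add_apply, Pi.sub_apply, Pi.smul_apply, smul_eq_mul, ev_E1 h,
    un_ne (show j ≠ 11 by omega), un_ne (show j ≠ 12 by omega), un_ne (show j ≠ 21 by omega)]
  ring

theorem yv_mem (α β : ℚ) : yv α β ∈ Ker A1 S := by
  have t11 : tt 11 = 1 := by rw [tt_L1 (by decide)]; norm_num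
  have t12 : tt 12 = 2 := by rw [tt_L1 (by decide)]; norm_num
  have t21 : tt 21 = 1 := by rw [tt_L2 (by decide)]; norm_num
  have y1 := yv_E1 (α := α) (β := β) (j := 1) (by decide)
  have y2 := yv_E1 (α := α) (β := β) (j := 2) (by decide)
  push_cast at y1 y2
  rw [mem_K1]
  refine ⟨?_, aff_of fun j hj => yv_E1 hj, ?_, ?_, ?_⟩
  · intro j hj
    have a1 : j ∉ E1 := fun h => hj (E1S h)
    have a2 : j ≠ 11 := fun h => hj (by rw [h]; decide)
    have a3 : j ≠ 12 := fun h => hj (by rw [h]; decide)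
    have a4 : j ≠ 21 := fun h => hj (by rw [h]; decide)
    simp [yv, ev_not a1, un_ne a2, un_ne a3, un_ne a4]
  · rw [y1, y2]
    simp only [yv, map_add, map_sub, map_smul, sm_ev (Or.inl rfl), sm_un (show 11 ∈ L1 by decide),
      sm_un (show 12 ∈ L1 by decide), sm_un0 (show 21 ∉ L1 by decide), smul_eq_mul]
    ring
  · rw [y1, y2]
    simp only [yv, map_add, map_sub, map_smul, sm_ev (Or.inr rfl), sm_un0 (show 11 ∉ L2 by decide),
      sm_un0 (show 12 ∉ L2 by decide), sm_un (show 21 ∈ L2 by decide), smul_eq_mul]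
    ring
  · simp only [yv, map_add, map_sub, map_smul, sw_ev (Or.inl rfl), sw_ev (Or.inr rfl),
      sw_un (show 11 ∈ L1 by decide), sw_un (show 12 ∈ L1 by decide),
      sw_un0 (show 21 ∉ L1 by decide), sw_un0 (show 11 ∉ L2 by decide),
      sw_un0 (show 12 ∉ L2 by decide), sw_un (show 21 ∈ L2 by decide), smul_eq_mul, t11, t12, t21]
    ring

/-- a vector supported on one line with vanishing moments lies in the dependency space -/
theorem line_mem {L : Finset ℕ} (hL : IsLine L) {x : ℕ → ℚ} (hx : ∀ j ∉ L, x j = 0)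
    (h1 : sm L x = 0) (h2 : sw L x = 0) : x ∈ Ker A1 S := by
  have hE : ∀ j ∈ E1, x j = 0 := by
    intro j hj
    refine hx j fun h => ?_
    rcases hL with rfl | rfl
    · exact (disjE1 hj).1 h
    · exact (disjE1 hj).2 h
  obtain ⟨e1, e2, e3, e4, e5⟩ := Aff.coeffs hE
  have hS : ∀ j ∉ S, x j = 0 := by
    intro j hj
    refine hx j fun h => hj ?_
    rcases hL with rfl | rfl
    · exact L1S h
    · exact L2S h
  have hz : ∀ L' : Finset ℕ, (∀ j ∈ L', x j = 0) → sm L' x = 0 ∧ sw L' x = 0 := by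
    intro L' h
    rw [sm_apply, sw_apply]
    exact ⟨Finset.sum_eq_zero h, Finset.sum_eq_zero fun j hj => by rw [h j hj, mul_zero]⟩
  rw [mem_K1]
  refine ⟨hS, ⟨by linarith, by linarith, by linarith⟩, ?_⟩
  rcases hL with rfl | rfl
  · obtain ⟨g1, g2⟩ := hz L2 fun j hj => hx j fun h => disj12 h hj
    rw [g1, g2, h1, h2, e1, e2]; norm_num
  · obtain ⟨g1, g2⟩ := hz L1 fun j hj => hx j fun h => disj12 hj h
    rw [g1, g2, h1, h2, e1, e2]; norm_num

theorem exists_ne {s : ℕ} (hs : s ∈ S) : ∃ x ∈ Ker A1 S, x s ≠ 0 := by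
  rcases mem_S.1 hs with h | h
  · refine ⟨yv 1 1, yv_mem 1 1, ?_⟩
    rw [yv_E1 h]
    positivity
  · obtain ⟨L, hL, hsL, hc⟩ : ∃ L, IsLine L ∧ s ∈ L ∧ L.card = 7 := by
      rcases h with h | h
      · exact ⟨L1, Or.inl rfl, h, by decide⟩
      · exact ⟨L2, Or.inr rfl, h, by decide⟩
    have hLS : L ⊆ S := by
      rcases hL with rfl | rfl
      · exact L1S
      · exact L2S
    obtain ⟨a, ha, b, hb, hab⟩ : ∃ a ∈ L.erase s, ∃ b ∈ L.erase s, a ≠ b := by
      refine Finset.one_lt_card.1 ?_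
      rw [Finset.card_erase_of_mem hsL]; omega
    rw [Finset.mem_erase] at ha hb
    have h3 : 2 < ({s, a, b} : Finset ℕ).card := by
      have hsn : s ∉ ({a, b} : Finset ℕ) := by simp [ha.1.symm, hb.1.symm]
      rw [Finset.card_insert_of_notMem hsn, Finset.card_pair hab]
      norm_num
    obtain ⟨x, hx0, hxs, hx⟩ := exists_supported {s, a, b} h3 ![sm L, sw L]
    have hxL : ∀ j ∉ L, x j = 0 := by
      intro j hj
      refine hxs j fun h' => hj ?_
      simp only [Finset.mem_insert, Finset.mem_singleton] at h'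
      rcases h' with rfl | rfl | rfl
      · exact hsL
      · exact ha.2
      · exact hb.2
    have hK := line_mem hL hxL (hx 0) (hx 1)
    refine ⟨x, hK, fun h0 => hx0 ?_⟩
    refine pair1 (hLS ha.2) (hLS hb.2) hK fun j h1 h2 => ?_
    by_cases hjs : j = s
    · rw [hjs, h0]
    · exact hxs j (by simp [hjs, h1, h2])

/-- the column matroid of `A1` is connected -/
theorem conn1 {X : Set ℕ} (hX : IsComponent (colMatroid A1 S) X) : X = S := by
  obtain ⟨Y, rfl⟩ : ∃ J : Finset ℕ, (J : Set ℕ) = X :=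
    ⟨(S.finite_toSet.subset hX.1.1).toFinset, by simp⟩
  have hYS : Y ⊆ S := by exact_mod_cast hX.1.1
  have hsplit := comp_split hX
  have hne : Y.Nonempty := by
    by_contra h
    rw [Finset.not_nonempty_iff_eq_empty] at h
    obtain ⟨Z, hZ, hsZ⟩ := exists_component (M := colMatroid A1 S) (s := 1)
      (by simp only [colMatroid_E]; exact_mod_cast (kS (k := 1) (by norm_num)))
    have := hX.2 hZ.1 (by rw [h]; simp)
    have := this hsZ
    rw [h] at this
    simp at this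
  rcases threeC hYS 0 (fun x hx _ => hsplit x hx) with h | h
  · exfalso
    obtain ⟨s, hs⟩ := hne
    obtain ⟨x, hx, hxs⟩ := exists_ne (hYS hs)
    have h1 := pair1 (hYS hs) (hYS hs) (hsplit x hx) (fun j hj _ => by
      refine ind_notMem fun h' => hj ?_
      exact Finset.card_le_one.1 h j (by exact_mod_cast h') s hs)
    have := congrFun h1 s
    rw [ind_mem (by exact_mod_cast hs)] at this
    exact hxs this
  · by_cases h0 : (S \ Y) = ∅
    · have : S ⊆ Y := Finset.sdiff_eq_empty_iff_subset.1 h0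
      rw [Finset.Subset.antisymm hYS this]
    · exfalso
      obtain ⟨s, hs⟩ := Finset.nonempty_iff_ne_empty.2 h0
      have hs' := Finset.mem_sdiff.1 hs
      obtain ⟨x, hx, hxs⟩ := exists_ne hs'.1
      have h1 := pair1 hs'.1 hs'.1 (Submodule.sub_mem _ hx (hsplit x hx)) (fun j hj _ => by
        rw [Pi.sub_apply]
        by_cases hjY : j ∈ Y
        · rw [ind_mem (by exact_mod_cast hjY), sub_self]
        · rw [ind_notMem (by exact_mod_cast hjY), sub_zero]
          refine hx.1 j fun hjS => hj ?_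
          exact Finset.card_le_one.1 h j (Finset.mem_sdiff.2 ⟨hjS, hjY⟩) s hs)
      have := congrFun h1 s
      rw [Pi.sub_apply, ind_notMem (by exact_mod_cast hs'.2), sub_zero] at this
      exact hxs this

theorem Adj.codim {K K' : Submodule ℚ (ℕ → ℚ)} (h : Adj K K') :
    ∃ ψ : (ℕ → ℚ) →ₗ[ℚ] ℚ, ∀ x ∈ K, ψ x = 0 → x ∈ K' := by
  obtain ⟨φ, hφ | hφ⟩ := h
  · refine ⟨0, fun x hx _ => ?_⟩
    rw [hφ] at hx; exact hx.1
  · refine ⟨φ, fun x hx h0 => ?_⟩
    rw [hφ]; exact ⟨hx, h0⟩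

/-- a neighbour of the example has a component missing at most one element -/
theorem big_component {m : ℕ} {A : Matrix (Fin m) ℕ ℚ} (hadj : Adj (Ker A1 S) (Ker A S)) :
    ∃ Y : Finset ℕ, IsComponent (colMatroid A S) Y ∧ 2 ≤ Y.card ∧ (S \ Y).card ≤ 1 := by
  -- a split of the neighbour
  have hstar : ∀ Y : Finset ℕ, IsComponent (colMatroid A S) Y →
      Y.card ≤ 1 ∨ (S \ Y).card ≤ 1 := by
    intro Y hY
    have hYS : Y ⊆ S := by exact_mod_cast hY.1.1
    have hsplit := comp_split hY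
    obtain ⟨φ, hφ | hφ⟩ := hadj
    · refine threeC hYS (φ ∘ₗ ind (Y : Set ℕ)) fun x hx h0 => ?_
      rw [hφ] at hx ⊢
      exact ⟨hsplit x hx.1, h0⟩
    · refine threeC hYS φ fun x hx h0 => ?_
      have : x ∈ Ker A S := by rw [hφ]; exact ⟨hx, h0⟩
      have := hsplit x this
      rw [hφ] at this
      exact this.1
  obtain ⟨ψ, hψ⟩ := hadj.codim
  obtain ⟨x, hx0, hxs, hx⟩ := exists_supported {11, 12, 13, 14} (by decide) ![sm L1, sw L1, ψ]
  have hxL : ∀ j ∉ L1, x j = 0 := by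
    intro j hj
    refine hxs j fun h' => hj ?_
    simp only [Finset.mem_insert, Finset.mem_singleton] at h'
    rcases h' with rfl | rfl | rfl | rfl <;> decide
  have hxK := line_mem (Or.inl rfl) hxL (hx 0) (hx 1)
  have hxK' : x ∈ Ker A S := hψ x hxK (hx 2)
  -- two elements of the support
  obtain ⟨s, hs⟩ : ∃ s, x s ≠ 0 := by
    by_contra h
    push Not at h
    exact hx0 (funext h)
  obtain ⟨s', hs', hne⟩ : ∃ s', x s' ≠ 0 ∧ s' ≠ s := by
    by_contra h
    push Not at h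
    have hsS : s ∈ S := by
      by_contra h'
      exact hs (hxK.1 s h')
    refine hx0 (pair1 hsS hsS hxK fun j hj _ => ?_)
    by_contra h'
    exact hj (h j h')
  have hsS : s ∈ S := by
    by_contra h'
    exact hs (hxK.1 s h')
  have hsS' : s' ∈ S := by
    by_contra h'
    exact hs' (hxK.1 s' h')
  have hcomp : ∀ t ∈ S, ∃ Y : Finset ℕ, IsComponent (colMatroid A S) Y ∧ t ∈ Y := by
    intro t ht
    obtain ⟨X, hX, htX⟩ := exists_component (M := colMatroid A S) (s := t)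
      (by simpa using ht)
    refine ⟨(S.finite_toSet.subset hX.1.1).toFinset, by simpa using hX, by simpa using htX⟩
  obtain ⟨Y, hY, hsY⟩ := hcomp s hsS
  by_cases hYc : 2 ≤ Y.card
  · exact ⟨Y, hY, hYc, (hstar Y hY).resolve_left (by omega)⟩
  obtain ⟨Y', hY', hsY'⟩ := hcomp s' hsS'
  by_cases hYc' : 2 ≤ Y'.card
  · exact ⟨Y', hY', hYc', (hstar Y' hY').resolve_left (by omega)⟩
  exfalso
  -- both are single
  have key : ∀ (t : ℕ) (Z : Finset ℕ), t ∈ Z → Z.card ≤ 1 → IsComponent (colMatroid A S) Z →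
      x t ≠ 0 → un t ∈ Ker A S := by
    intro t Z htZ hZc hZ hxt
    have h1 := Submodule.smul_mem _ (x t)⁻¹ (comp_split hZ x hxK')
    have h2 : (x t)⁻¹ • ind (Z : Set ℕ) x = un t := by
      funext j
      by_cases hj : j = t
      · rw [hj, Pi.smul_apply, ind_mem (by exact_mod_cast htZ), un_self, smul_eq_mul,
          inv_mul_cancel₀ hxt]
      · rw [un_ne hj, Pi.smul_apply, ind_notMem, smul_zero]
        intro h'
        exact hj (Finset.card_le_one.1 hZc j (by exact_mod_cast h') t htZ)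
    rwa [h2] at h1
  have u1 := key s Y hsY (by omega) hY hs
  have u2 := key s' Y' hsY' (by omega) hY' hs'
  obtain ⟨φ, hφ | hφ⟩ := hadj
  · -- a combination lies in `Ker A1 S`
    by_cases h0 : φ (un s) = 0
    · have : un s ∈ Ker A1 S := by rw [hφ]; exact ⟨u1, h0⟩
      have := congrFun (pair1 hsS hsS this fun j hj _ => un_ne hj) s
      rw [un_self] at this
      norm_num at this
    · have hm : φ (un s') • un s - φ (un s) • un s' ∈ Ker A1 S := by
        rw [hφ]
        refine ⟨Submodule.sub_mem _ (Submodule.smul_mem _ _ u1) (Submodule.smul_mem _ _ u2), ?_⟩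
        change φ _ = 0
        rw [map_sub, map_smul, map_smul, smul_eq_mul, smul_eq_mul, mul_comm, sub_self]
      have := congrFun (pair1 hsS hsS' hm fun j hj hj' => by
        simp [un_ne hj, un_ne hj']) s'
      simp only [Pi.sub_apply, Pi.smul_apply, un_self, un_ne hne, smul_eq_mul, mul_zero, mul_one,
        Pi.zero_apply, zero_sub, neg_eq_zero] at this
      exact h0 this
  · have : un s ∈ Ker A1 S := by
      rw [hφ] at u1; exact u1.1
    have := congrFun (pair1 hsS hsS this fun j hj _ => un_ne hj) s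
    rw [un_self] at this
    norm_num at this

end Pool.Agent.R880.CD
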