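import Pool.Agent.R880.CD.Conn

set_option autoImplicit false

/-!
# No simple dependency space within distance two
-/

namespace Pool.Agent.R880.CD

theorem cover_two {F : Finset ℕ} (hF : F.Nonempty) (h : F.card ≤ 2) :
    ∃ a ∈ F, ∃ b ∈ F, ∀ j ∈ F, j = a ∨ j = b := by
  rcases Nat.lt_or_ge F.card 2 with h' | h'
  · obtain ⟨a, ha⟩ := hF
    exact ⟨a, ha, a, ha, fun j hj => Or.inl (Finset.card_le_one.1 (by omega) j hj a ha)⟩
  · obtain ⟨a, b, hab, rfl⟩ := Finset.card_eq_two.1 (le_antisymm h h')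
    refine ⟨a, by simp, b, by simp, fun j hj => by simpa using hj⟩

theorem no_line {K : Submodule ℚ (ℕ → ℚ)} (hS : Simple K S) {L : Finset ℕ} (hL : L ⊆ S)
    (hc : L.card ≤ 8)
    (H3 : ∀ l1 l2 : ℕ, ∃ x ∈ K, x ≠ 0 ∧ (∀ j ∉ L, x j = 0) ∧ x l1 = 0 ∧ x l2 = 0) :
    ∃ x ∈ K, x ≠ 0 ∧ ∃ a ∈ L, ∃ b ∈ L, ∀ j, j ≠ a → j ≠ b → x j = 0 := by
  classical
  by_contra hcon
  have hsm : ∀ x ∈ K, x ≠ 0 → ∀ a ∈ L, ∀ b ∈ L, ¬ ∀ j, j ≠ a → j ≠ b → x j = 0 := by
    intro x hx hx0 a ha b hb h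
    exact hcon ⟨x, hx, hx0, a, ha, b, hb, h⟩
  have pick : ∀ x ∈ K, x ≠ 0 → (∀ j ∉ L, x j = 0) → ∃ (l : ℕ) (Z : Set ℕ), 
      3 ≤ (L.filter fun j => j ∈ Z ∧ x j ≠ 0).card ∧ (∀ y ∈ K, y l = 0 → ∀ j ∈ Z, y j = 0) := by
    intro x hx hx0 hxL
    obtain ⟨l, hl⟩ : ∃ l, x l ≠ 0 := by
      by_contra h
      push Not at h
      exact hx0 (funext h)
    have hlL : l ∈ L := by
      by_contra h
      exact hl (hxL l h)
    obtain ⟨Z, hlZ, hZS, hZs, hZt⟩ := hS l (hL hlL)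
    have hu := hZs x hx
    have hul : ind Z x l ≠ 0 := by rw [ind_mem hlZ]; exact hl
    have hu0 : ind Z x ≠ 0 := fun h => hul (by rw [h]; rfl)
    have h3 : 3 ≤ (L.filter fun j => j ∈ Z ∧ x j ≠ 0).card := by
      by_contra hlt
      obtain ⟨a, ha, b, hb, hab⟩ := cover_two (F := L.filter fun j => j ∈ Z ∧ x j ≠ 0)
        ⟨l, by simp [hlL, hlZ, hl]⟩ (by omega)
      refine hsm _ hu hu0 a (Finset.mem_filter.1 ha).1 b (Finset.mem_filter.1 hb).1 ?_
      intro j h1 h2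
      by_contra h
      have hjZ : j ∈ Z := by
        by_contra h'
        exact h (ind_notMem h')
      rw [ind_mem hjZ] at h
      have hjL : j ∈ L := by
        by_contra h'
        exact h (hxL j h')
      rcases hab j (by simp [hjL, hjZ, h]) with h' | h'
      · exact h1 h'
      · exact h2 h'
    refine ⟨l, Z, h3, ?_⟩
    rcases hZt with hZt | hZt
    · intro y hy hyl j hj
      obtain ⟨c, hc⟩ := hZt _ hu _ (hZs y hy) (fun j hj => ind_notMem hj)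
        (fun j hj => ind_notMem hj) hu0
      have h1 := congrFun hc l
      rw [ind_mem hlZ, hyl, Pi.smul_apply, smul_eq_mul] at h1
      have hc0 : c = 0 := (mul_eq_zero.1 h1.symm).resolve_right hul
      have h2 := congrFun hc j
      rw [ind_mem hj, hc0, zero_smul] at h2
      exact h2
    · exfalso
      obtain ⟨l', hl', hne⟩ : ∃ l' ∈ (L.filter fun j => j ∈ Z ∧ x j ≠ 0), l' ≠ l := by
        by_contra h
        push Not at h
        have : (L.filter fun j => j ∈ Z ∧ x j ≠ 0).card ≤ 1 := by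
          rw [Finset.card_le_one]
          intro a ha b hb
          rw [h a ha, h b hb]
        omega
      rw [Finset.mem_filter] at hl'
      obtain ⟨x', hx', hx0', h1, h2⟩ := hZt l hlZ l' hl'.2.1 hne.symm
      refine hsm x' hx' ?_ l hlL l' hl'.1 hx0'
      intro h
      rw [h] at h1
      exact h1 rfl
  obtain ⟨x1, hx1, n1, s1, -, -⟩ := H3 0 0
  obtain ⟨l1, Z1, c1, v1⟩ := pick x1 hx1 n1 s1
  obtain ⟨x2, hx2, n2, s2, z2, -⟩ := H3 l1 l1
  obtain ⟨l2, Z2, c2, v2⟩ := pick x2 hx2 n2 s2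
  obtain ⟨x3, hx3, n3, s3, z3, z3'⟩ := H3 l1 l2
  obtain ⟨l3, Z3, c3, v3⟩ := pick x3 hx3 n3 s3
  have w2 := v1 x2 hx2 z2
  have w3 := v1 x3 hx3 z3
  have w3' := v2 x3 hx3 z3'
  have d12 : Disjoint (L.filter fun j => j ∈ Z1 ∧ x1 j ≠ 0) (L.filter fun j => j ∈ Z2 ∧ x2 j ≠ 0) := by
    refine Finset.disjoint_left.2 fun j h h' => ?_
    rw [Finset.mem_filter] at h h'
    exact h'.2.2 (w2 j h.2.1)
  have d3 : Disjoint ((L.filter fun j => j ∈ Z1 ∧ x1 j ≠ 0) ∪ (L.filter fun j => j ∈ Z2 ∧ x2 j ≠ 0))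
      (L.filter fun j => j ∈ Z3 ∧ x3 j ≠ 0) := by
    refine Finset.disjoint_left.2 fun j h h' => ?_
    rw [Finset.mem_union, Finset.mem_filter, Finset.mem_filter] at h
    rw [Finset.mem_filter] at h'
    rcases h with h | h
    · exact h'.2.2 (w3 j h.2.1)
    · exact h'.2.2 (w3' j h.2.1)
  have hsub : ((L.filter fun j => j ∈ Z1 ∧ x1 j ≠ 0) ∪ (L.filter fun j => j ∈ Z2 ∧ x2 j ≠ 0)) ∪
      (L.filter fun j => j ∈ Z3 ∧ x3 j ≠ 0) ⊆ L := by
    refine Finset.union_subset (Finset.union_subset ?_ ?_) ?_ <;> exact Finset.filter_subset _ _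
  have hcard := Finset.card_le_card hsub
  rw [Finset.card_union_of_disjoint d3, Finset.card_union_of_disjoint d12] at hcard
  omega

/-- a nonzero vector on one line with nonzero moments -/
theorem line_vec {K : Submodule ℚ (ℕ → ℚ)} (hS : Simple K S) {L : Finset ℕ} (hL : IsLine L)
    (ψ1 ψ2 : (ℕ → ℚ) →ₗ[ℚ] ℚ) (H : ∀ x ∈ Ker A1 S, ψ1 x = 0 → ψ2 x = 0 → x ∈ K) :
    ∃ x ∈ K, (∀ j ∉ L, x j = 0) ∧ ¬ (sm L x = 0 ∧ sw L x = 0) := by
  have hLS : L ⊆ S := by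
    rcases hL with rfl | rfl
    · exact L1S
    · exact L2S
  have hc : L.card = 7 := by
    rcases hL with rfl | rfl <;> decide
  obtain ⟨x, hx, hx0, a, ha, b, hb, hab⟩ := no_line hS hLS (by omega) (by
    intro l1 l2
    obtain ⟨x, hx0, hxs, hx⟩ := exists_supported L (by omega : 6 < L.card)
      ![sm L, sw L, ψ1, ψ2, P l1, P l2]
    exact ⟨x, H x (line_mem hL hxs (hx 0) (hx 1)) (hx 2) (hx 3), hx0, hxs, hx 4, hx 5⟩)
  have hxL : ∀ j ∉ L, x j = 0 := fun j hj =>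
    hab j (fun h => hj (h ▸ ha)) (fun h => hj (h ▸ hb))
  refine ⟨x, hx, hxL, fun ⟨h1, h2⟩ => hx0 ?_⟩
  exact pair1 (hLS ha) (hLS hb) (line_mem hL hxL h1 h2) hab

theorem core02 {K : Submodule ℚ (ℕ → ℚ)} (hS : Simple K S) (hK : K ≤ Ker A1 S)
    (ψ1 ψ2 : (ℕ → ℚ) →ₗ[ℚ] ℚ) (H : ∀ x ∈ Ker A1 S, ψ1 x = 0 → ψ2 x = 0 → x ∈ K) : False := by
  obtain ⟨x, hx, hxL, hne⟩ := line_vec hS (Or.inl rfl) ψ1 ψ2 H
  obtain ⟨-, -, g3, -, g5⟩ := mem_K1.1 (hK hx)
  have e1 : x 1 = 0 := hxL 1 (by decide)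
  have e2 : x 2 = 0 := hxL 2 (by decide)
  have e3 : sw L2 x = 0 := by
    rw [sw_apply]
    exact Finset.sum_eq_zero fun j hj => by rw [hxL j fun h => disj12 h hj, mul_zero]
  exact hne ⟨by linarith, by linarith⟩

/-- the dependency space of the contraction by `f` -/
noncomputable def Kf : Submodule ℚ (ℕ → ℚ) :=
  suppSub S ⊓ LinearMap.ker (P 1 - (2 : ℚ) • P 2 + P 3) ⊓
    LinearMap.ker (P 2 - (2 : ℚ) • P 3 + P 4) ⊓ LinearMap.ker (P 3 - (2 : ℚ) • P 4 + P 5) ⊓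
    LinearMap.ker (sm L1 + P 1 - P 2) ⊓ LinearMap.ker (sm L2 + (2 : ℚ) • P 1 - P 2)

theorem mem_Kf {x : ℕ → ℚ} : x ∈ Kf ↔ (∀ j ∉ S, x j = 0) ∧ Aff x ∧
    sm L1 x + x 1 - x 2 = 0 ∧ sm L2 x + 2 * x 1 - x 2 = 0 := by
  simp only [Kf, Submodule.mem_inf, LinearMap.mem_ker, mem_suppSub, LinearMap.add_apply,
    LinearMap.sub_apply, LinearMap.smul_apply, P_apply, smul_eq_mul, Aff]
  tauto

theorem K1_le_Kf : Ker A1 S ≤ Kf := fun x hx => by
  obtain ⟨h1, h2, h3, h4, -⟩ := mem_K1.1 hx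
  exact mem_Kf.2 ⟨h1, h2, h3, h4⟩

/-- a vector on the lines which represents the point `f` -/
structure IsF (x : ℕ → ℚ) : Prop where
  supp : ∀ j ∉ S, x j = 0
  e : ∀ j ∈ E1, x j = 0
  s1 : sm L1 x = 0
  s2 : sm L2 x = 0
  w : sw L1 x + sw L2 x = 1

theorem isF_of_line {L : Finset ℕ} (hL : IsLine L) {x : ℕ → ℚ} (hx : ∀ j ∉ L, x j = 0)
    (h1 : sm L x = 0) (h2 : sw L x ≠ 0) : IsF ((sw L x)⁻¹ • x) := by
  have hz : ∀ L' : Finset ℕ, (∀ j ∈ L', x j = 0) → sm L' x = 0 ∧ sw L' x = 0 := by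
    intro L' h
    rw [sm_apply, sw_apply]
    exact ⟨Finset.sum_eq_zero h, Finset.sum_eq_zero fun j hj => by rw [h j hj, mul_zero]⟩
  rcases hL with rfl | rfl
  · obtain ⟨g1, g2⟩ := hz L2 fun j hj => hx j fun h => disj12 h hj
    refine ⟨fun j hj => ?_, fun j hj => ?_, ?_, ?_, ?_⟩
    · rw [Pi.smul_apply, hx j fun h => hj (L1S h), smul_zero]
    · rw [Pi.smul_apply, hx j (disjE1 hj).1, smul_zero]
    · rw [map_smul, h1, smul_zero]
    · rw [map_smul, g1, smul_zero]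
    · rw [map_smul, map_smul, g2, smul_zero, add_zero, smul_eq_mul, inv_mul_cancel₀ h2]
  · obtain ⟨g1, g2⟩ := hz L1 fun j hj => hx j fun h => disj12 hj h
    refine ⟨fun j hj => ?_, fun j hj => ?_, ?_, ?_, ?_⟩
    · rw [Pi.smul_apply, hx j fun h => hj (L2S h), smul_zero]
    · rw [Pi.smul_apply, hx j (disjE1 hj).2, smul_zero]
    · rw [map_smul, g1, smul_zero]
    · rw [map_smul, h1, smul_zero]
    · rw [map_smul, map_smul, g2, smul_zero, zero_add, smul_eq_mul, inv_mul_cancel₀ h2]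

theorem IsF.e12 {x : ℕ → ℚ} (h : IsF x) : x 1 = 0 ∧ x 2 = 0 ∧ x 3 = 0 ∧ x 4 = 0 ∧ x 5 = 0 :=
  Aff.coeffs h.e

/-- subtracting a multiple of `f` from a vector of `Kf` -/
theorem IsF.sub {xf x : ℕ → ℚ} (h : IsF xf) (hx : x ∈ Kf) :
    x - (sw L1 x + sw L2 x) • xf ∈ Ker A1 S := by
  obtain ⟨h1, ⟨a1, a2, a3⟩, h3, h4⟩ := mem_Kf.1 hx
  obtain ⟨e1, e2, e3, e4, e5⟩ := h.e12
  rw [mem_K1]
  refine ⟨fun j hj => ?_, ⟨?_, ?_, ?_⟩, ?_, ?_, ?_⟩
  · simp [h1 j hj, h.supp j hj]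
  · simp only [Pi.sub_apply, Pi.smul_apply, e1, e2, e3, smul_eq_mul, mul_zero, sub_zero]; exact a1
  · simp only [Pi.sub_apply, Pi.smul_apply, e2, e3, e4, smul_eq_mul, mul_zero, sub_zero]; exact a2
  · simp only [Pi.sub_apply, Pi.smul_apply, e3, e4, e5, smul_eq_mul, mul_zero, sub_zero]; exact a3
  · simp only [map_sub, map_smul, h.s1, Pi.sub_apply, Pi.smul_apply, e1, e2, smul_eq_mul,
      mul_zero, sub_zero]
    exact h3
  · simp only [map_sub, map_smul, h.s2, Pi.sub_apply, Pi.smul_apply, e1, e2, smul_eq_mul,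
      mul_zero, sub_zero]
    exact h4
  · simp only [map_sub, map_smul, smul_eq_mul]
    linear_combination (-(sw L1 x + sw L2 x)) * h.w

theorem yv_lin (a b : ℚ) : yv a b = a • yv 1 0 + b • yv 0 1 := by
  funext j
  simp only [yv, ev, un, Pi.add_apply, Pi.sub_apply, Pi.smul_apply, smul_eq_mul]
  split_ifs <;> ring

theorem un_sub_mem {L : Finset ℕ} (hL : IsLine L) {p q : ℕ} (hp : p ∈ L) (hq : q ∈ L) :
    un p - un q ∈ Kf := by
  have hS : ∀ {r : ℕ}, r ∈ L → r ∈ S := by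
    intro r hr
    rcases hL with rfl | rfl
    · exact L1S hr
    · exact L2S hr
  have hE : ∀ {r : ℕ}, r ∈ L → ∀ k ≤ 5, k ≠ r := by
    intro r hr k hk
    rcases hL with rfl | rfl
    · rw [mem_L1] at hr; omega
    · rw [mem_L2] at hr; omega
  have hz : ∀ k ≤ 5, (un p - un q) k = 0 := by
    intro k hk
    rw [Pi.sub_apply, un_ne (hE hp k hk), un_ne (hE hq k hk), sub_zero]
  rw [mem_Kf]
  refine ⟨fun j hj => ?_, ⟨?_, ?_, ?_⟩, ?_, ?_⟩
  · rw [Pi.sub_apply, un_ne (fun h => hj (by rw [h]; exact hS hp)),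
      un_ne (fun h => hj (by rw [h]; exact hS hq)), sub_zero]
  · rw [hz 1 (by norm_num), hz 2 (by norm_num), hz 3 (by norm_num)]; norm_num
  · rw [hz 2 (by norm_num), hz 3 (by norm_num), hz 4 (by norm_num)]; norm_num
  · rw [hz 3 (by norm_num), hz 4 (by norm_num), hz 5 (by norm_num)]; norm_num
  · rw [hz 1 (by norm_num), hz 2 (by norm_num), map_sub]
    rcases hL with rfl | rfl
    · rw [sm_un hp, sm_un hq]; norm_num
    · rw [sm_un0 (fun h => disj12 h hp), sm_un0 (fun h => disj12 h hq)]; norm_num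
  · rw [hz 1 (by norm_num), hz 2 (by norm_num), map_sub]
    rcases hL with rfl | rfl
    · rw [sm_un0 (disj12 hp), sm_un0 (disj12 hq)]; norm_num
    · rw [sm_un hp, sm_un hq]; norm_num

theorem core11 {K : Submodule ℚ (ℕ → ℚ)} (hsupp : ∀ x ∈ K, ∀ j ∉ S, x j = 0)
    (hS : Simple K S) (ψ : (ℕ → ℚ) →ₗ[ℚ] ℚ) (Ha : ∀ x ∈ Ker A1 S, ψ x = 0 → x ∈ K)
    (Hb : ∀ x ∈ K, ∀ y ∈ K, ∃ a b : ℚ, (a ≠ 0 ∨ b ≠ 0) ∧ a • x + b • y ∈ Ker A1 S) : False := by
  obtain ⟨x1, hx1, hx1L, hne1⟩ := line_vec hS (Or.inl rfl) ψ 0 (fun x hx h _ => Ha x hx h)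
  obtain ⟨x2, hx2, hx2L, hne2⟩ := line_vec hS (Or.inr rfl) ψ 0 (fun x hx h _ => Ha x hx h)
  have hz : ∀ (L' : Finset ℕ) (x : ℕ → ℚ), (∀ j ∈ L', x j = 0) → sm L' x = 0 ∧ sw L' x = 0 := by
    intro L' x h
    rw [sm_apply, sw_apply]
    exact ⟨Finset.sum_eq_zero h, Finset.sum_eq_zero fun j hj => by rw [h j hj, mul_zero]⟩
  obtain ⟨m12, w12⟩ := hz L2 x1 fun j hj => hx1L j fun h => disj12 h hj
  obtain ⟨m21, w21⟩ := hz L1 x2 fun j hj => hx2L j fun h => disj12 hj h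
  -- the point `f`
  obtain ⟨xf, hxf, hF⟩ : ∃ xf ∈ K, IsF xf := by
    obtain ⟨a, b, hab, hm⟩ := Hb x1 hx1 x2 hx2
    obtain ⟨-, -, g3, g4, g5⟩ := mem_K1.1 hm
    simp only [map_add, map_smul, Pi.add_apply, Pi.smul_apply, smul_eq_mul, m12, w12, m21, w21,
      hx1L 1 (by decide), hx1L 2 (by decide), hx2L 1 (by decide), hx2L 2 (by decide),
      mul_zero, add_zero, zero_add, sub_zero] at g3 g4 g5
    have ha : a ≠ 0 := by
      intro ha
      have hb : b ≠ 0 := hab.resolve_left (fun h => h ha)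
      rw [ha, zero_mul, zero_add] at g5
      exact hne2 ⟨(mul_eq_zero.1 g4).resolve_left hb, (mul_eq_zero.1 g5).resolve_left hb⟩
    have h1 : sm L1 x1 = 0 := (mul_eq_zero.1 g3).resolve_left ha
    have h2 : sw L1 x1 ≠ 0 := fun h => hne1 ⟨h1, h⟩
    exact ⟨_, Submodule.smul_mem _ _ hx1, isF_of_line (Or.inl rfl) hx1L h1 h2⟩
  obtain ⟨f1, f2, f3, f4, f5⟩ := hF.e12
  -- claim 1
  have cl1 : K ≤ Kf := by
    intro x hx
    obtain ⟨a, b, hab, hm⟩ := Hb x hx xf hxf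
    obtain ⟨g0, ⟨a1, a2, a3⟩, g3, g4, g5⟩ := mem_K1.1 hm
    simp only [map_add, map_smul, Pi.add_apply, Pi.smul_apply, smul_eq_mul, hF.s1, hF.s2,
      f1, f2, f3, f4, f5, mul_zero, add_zero] at a1 a2 a3 g3 g4 g5
    have ha : a ≠ 0 := by
      intro ha
      have hb : b ≠ 0 := hab.resolve_left (fun h => h ha)
      rw [ha] at g5
      apply hb
      linear_combination g5 - b * hF.w
    rw [mem_Kf]
    refine ⟨hsupp x hx, ⟨?_, ?_, ?_⟩, ?_, ?_⟩
    · have : a * (x 1 - 2 * x 2 + x 3) = 0 := by linear_combination a1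
      exact (mul_eq_zero.1 this).resolve_left ha
    · have : a * (x 2 - 2 * x 3 + x 4) = 0 := by linear_combination a2
      exact (mul_eq_zero.1 this).resolve_left ha
    · have : a * (x 3 - 2 * x 4 + x 5) = 0 := by linear_combination a3
      exact (mul_eq_zero.1 this).resolve_left ha
    · have : a * (sm L1 x + x 1 - x 2) = 0 := by linear_combination g3
      exact (mul_eq_zero.1 this).resolve_left ha
    · have : a * (sm L2 x + 2 * x 1 - x 2) = 0 := by linear_combination g4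
      exact (mul_eq_zero.1 this).resolve_left ha
  -- claim 2
  obtain ⟨ψ', hψ'⟩ : ∃ ψ' : (ℕ → ℚ) →ₗ[ℚ] ℚ, ∀ x ∈ Kf, ψ' x = 0 → x ∈ K := by
    refine ⟨ψ - (ψ xf) • (sw L1 + sw L2), fun x hx h0 => ?_⟩
    have h1 := hF.sub hx
    have h2 : ψ (x - (sw L1 x + sw L2 x) • xf) = 0 := by
      rw [map_sub, map_smul, smul_eq_mul]
      rw [LinearMap.sub_apply, LinearMap.smul_apply, LinearMap.add_apply, smul_eq_mul] at h0
      linear_combination h0
    have h3 := Ha _ h1 h2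
    have h4 := Submodule.add_mem _ h3 (Submodule.smul_mem _ (sw L1 x + sw L2 x) hxf)
    rwa [sub_add_cancel] at h4
  -- a vector with nonzero affine part
  obtain ⟨α, β, hαβ, hy⟩ : ∃ α β : ℚ, (α ≠ 0 ∨ β ≠ 0) ∧ yv α β ∈ K := by
    by_cases h0 : ψ (yv 1 0) = 0
    · exact ⟨1, 0, Or.inl one_ne_zero, Ha _ (yv_mem 1 0) h0⟩
    · refine ⟨ψ (yv 0 1), -ψ (yv 1 0), Or.inr (neg_ne_zero.2 h0), Ha _ (yv_mem _ _) ?_⟩
      rw [yv_lin, map_add, map_smul, map_smul, smul_eq_mul, smul_eq_mul]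
      ring
  obtain ⟨e, he, hye⟩ : ∃ e ∈ E1, yv α β e ≠ 0 := by
    by_contra h
    push Not at h
    have h1 := h 1 (by decide)
    have h2 := h 2 (by decide)
    rw [yv_E1 (by decide)] at h1 h2
    push_cast at h1 h2
    rcases hαβ with h' | h'
    · exact h' (by linarith)
    · exact h' (by linarith)
  obtain ⟨Z, heZ, hZS, hZs, hZt⟩ := hS e (E1S he)
  obtain ⟨u, hu⟩ : ∃ u, u = ind Z (yv α β) := ⟨_, rfl⟩
  have huK : u ∈ K := hu ▸ hZs _ hy
  have hue : u e ≠ 0 := by rw [hu, ind_mem heZ]; exact hye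
  have huZ : ∀ j ∉ Z, u j = 0 := fun j hj => by rw [hu]; exact ind_notMem hj
  have hu0 : u ≠ 0 := fun h => hue (by rw [h]; rfl)
  obtain ⟨-, uA, uM1, uM2⟩ := mem_Kf.1 (cl1 huK)
  have hZ4 : ∀ a ∈ E1, ∀ b ∈ E1, a ≠ b → a ∈ Z ∨ b ∈ Z := by
    intro a ha b hb hab
    by_contra h
    push Not at h
    exact hue (uA.zero ha hb hab (huZ a h.1) (huZ b h.2) e he)
  obtain ⟨z, hz1, hzE, z', hz2, hzE', hzz⟩ : ∃ z, z ∈ Z ∧ z ∈ E1 ∧ ∃ z', z' ∈ Z ∧ z' ∈ E1 ∧
      z ≠ z' := by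
    by_cases h1 : 1 ∈ Z
    · rcases hZ4 2 (by decide) 3 (by decide) (by decide) with h | h
      · exact ⟨1, h1, by decide, 2, h, by decide, by decide⟩
      · exact ⟨1, h1, by decide, 3, h, by decide, by decide⟩
    · have h2 := (hZ4 1 (by decide) 2 (by decide) (by decide)).resolve_left h1
      have h3 := (hZ4 1 (by decide) 3 (by decide) (by decide)).resolve_left h1
      exact ⟨2, h2, by decide, 3, h3, by decide, by decide⟩
  rcases hZt with hZt | hZt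
  swap
  · obtain ⟨x, hx, hx0, hxz, -⟩ := hZt z hz1 z' hz2 hzz
    obtain ⟨a, ha, b, hb, hab, n1, n2, n3, n4⟩ := two_others z z'
    obtain ⟨-, xA, -, -⟩ := mem_Kf.1 (cl1 hx)
    exact hxz (xA.zero ha hb hab (hx0 a n1 n2) (hx0 b n3 n4) z hzE)
  -- claim 3
  have cl3 : ∀ x ∈ K, ∃ c : ℚ, ∀ j ∈ E1, x j = c * u j := by
    intro x hx
    obtain ⟨c, hc⟩ := hZt u huK (ind Z x) (hZs x hx) huZ (fun j hj => ind_notMem hj) hu0
    refine ⟨c, fun j hj => ?_⟩
    have hd : x - ind Z x ∈ K := Submodule.sub_mem _ hx (hZs x hx)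
    obtain ⟨-, dA, -, -⟩ := mem_Kf.1 (cl1 hd)
    have hdz : ∀ i ∈ Z, (x - ind Z x) i = 0 := fun i hi => by
      rw [Pi.sub_apply, ind_mem hi, sub_self]
    have h1 := dA.zero hzE hzE' hzz (hdz z hz1) (hdz z' hz2) j hj
    rw [Pi.sub_apply, sub_eq_zero] at h1
    rw [h1, hc]; rfl
  -- vectors of `Kf` vanishing on `E1` lie in `K`
  have cl4 : ∀ r ∈ Kf, (∀ j ∈ E1, r j = 0) → r ∈ K := by
    intro r hr hrE
    by_cases h0 : ψ' r = 0
    · exact hψ' r hr h0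
    exfalso
    obtain ⟨α', hα'⟩ : ∃ α', α' = 2 * u 1 - u 2 := ⟨_, rfl⟩
    obtain ⟨β', hβ'⟩ : ∃ β', β' = u 2 - u 1 := ⟨_, rfl⟩
    have hmem : yv (-β') α' - (ψ' (yv (-β') α') / ψ' r) • r ∈ K := by
      refine hψ' _ (Submodule.sub_mem _ (K1_le_Kf (yv_mem _ _)) (Submodule.smul_mem _ _ hr)) ?_
      rw [map_sub, map_smul, smul_eq_mul, div_mul_cancel₀ _ h0, sub_self]
    obtain ⟨c, hc⟩ := cl3 _ hmem
    have h1 := hc 1 (by decide)
    have h2 := hc 2 (by decide)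
    rw [Pi.sub_apply, Pi.smul_apply, hrE 1 (by decide), smul_zero, sub_zero,
      yv_E1 (by decide)] at h1
    rw [Pi.sub_apply, Pi.smul_apply, hrE 2 (by decide), smul_zero, sub_zero,
      yv_E1 (by decide)] at h2
    push_cast at h1 h2
    have k1 : α' = c * β' := by rw [hβ']; linarith
    have k2 : -β' = c * α' := by rw [hα']; linarith
    have k3 : β' * (1 + c ^ 2) = 0 := by rw [k1] at k2; linear_combination -k2
    have k4 : β' = 0 := (mul_eq_zero.1 k3).resolve_right (by positivity)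
    have k5 : α' = 0 := by rw [k1, k4, mul_zero]
    apply hue
    rw [uA.formula e he, ← hα', ← hβ', k4, k5]; ring
  -- the final contradiction on a line
  have fin : ∀ L, IsLine L → sm L u ≠ 0 → False := by
    intro L hL hsu
    obtain ⟨l, hl, hul⟩ : ∃ l ∈ L, u l ≠ 0 := by
      by_contra h
      push Not at h
      exact hsu (by rw [sm_apply]; exact Finset.sum_eq_zero h)
    have hlZ : l ∈ Z := by
      by_contra h
      exact hul (huZ l h)
    obtain ⟨l', hl', hne⟩ : ∃ l' ∈ L, l' ≠ l := by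
      by_contra h
      push Not at h
      have hc : L.card = 7 := by
        rcases hL with rfl | rfl <;> decide
      have : L.card ≤ 1 := by
        rw [Finset.card_le_one]
        intro a ha b hb
        rw [h a ha, h b hb]
      omega
    have hEl : ∀ {r : ℕ}, r ∈ L → ∀ j ∈ E1, j ≠ r := by
      intro r hr j hj h
      rcases hL with rfl | rfl
      · exact (disjE1 hj).1 (h ▸ hr)
      · exact (disjE1 hj).2 (h ▸ hr)
    have hr := cl4 _ (un_sub_mem hL hl hl') fun j hj => by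
      rw [Pi.sub_apply, un_ne (hEl hl j hj), un_ne (hEl hl' j hj), sub_zero]
    obtain ⟨c, hc⟩ := hZt u huK _ (hZs _ hr) huZ (fun j hj => ind_notMem hj) hu0
    have h1 := congrFun hc e
    rw [ind_mem heZ, Pi.sub_apply, un_ne (hEl hl e he), un_ne (hEl hl' e he), sub_zero,
      Pi.smul_apply, smul_eq_mul] at h1
    have hc0 : c = 0 := (mul_eq_zero.1 h1.symm).resolve_right hue
    have h2 := congrFun hc l
    rw [ind_mem hlZ, Pi.sub_apply, un_self, un_ne hne.symm, sub_zero, hc0, zero_smul] at h2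
    exact one_ne_zero h2
  by_cases h1 : sm L1 u = 0
  · by_cases h2 : sm L2 u = 0
    · apply hue
      have k1 : u 1 = 0 := by linarith
      have k2 : u 2 = 0 := by linarith
      rw [uA.formula e he, k1, k2]; ring
    · exact fin L2 (Or.inr rfl) h2
  · exact fin L1 (Or.inl rfl) h1

end Pool.Agent.R880.CD
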