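import Pool.Agent.R880.CD.Core

set_option autoImplicit false

/-!
# Two contractions do not help, and the lower bound
-/

namespace Pool.Agent.R880.CD

theorem line_ne_E1 {L : Finset ℕ} (hL : IsLine L) {r : ℕ} (hr : r ∈ L) {j : ℕ} (hj : j ∈ E1) :
    j ≠ r := by
  intro h
  rcases hL with rfl | rfl
  · exact (disjE1 hj).1 (h ▸ hr)
  · exact (disjE1 hj).2 (h ▸ hr)

theorem line_S {L : Finset ℕ} (hL : IsLine L) {r : ℕ} (hr : r ∈ L) : r ∈ S := by
  rcases hL with rfl | rfl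
  · exact L1S hr
  · exact L2S hr

/-- the vector of `Kf` vanishing at `k` -/
def yk (k p q : ℕ) : ℕ → ℚ := ev k (-1) - un p - (k : ℚ) • un q

theorem yk_E1 {k p q j : ℕ} (hp : p ∈ L1) (hq : q ∈ L2) (hj : j ∈ E1) :
    yk k p q j = k - j := by
  simp only [yk, Pi.sub_apply, Pi.smul_apply, ev_E1 hj, un_ne (line_ne_E1 (Or.inl rfl) hp hj),
    un_ne (line_ne_E1 (Or.inr rfl) hq hj), smul_eq_mul]
  ring

theorem yk_mem {k p q : ℕ} (hp : p ∈ L1) (hq : q ∈ L2) : yk k p q ∈ Kf := by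
  have y1 := yk_E1 (k := k) hp hq (j := 1) (by decide)
  have y2 := yk_E1 (k := k) hp hq (j := 2) (by decide)
  push_cast at y1 y2
  rw [mem_Kf]
  refine ⟨?_, aff_of (α := k) (β := -1) fun j hj => by rw [yk_E1 hp hq hj]; ring, ?_, ?_⟩
  · intro j hj
    have a1 : j ∉ E1 := fun h => hj (E1S h)
    have a2 : j ≠ p := fun h => hj (by rw [h]; exact L1S hp)
    have a3 : j ≠ q := fun h => hj (by rw [h]; exact L2S hq)
    simp [yk, ev_not a1, un_ne a2, un_ne a3]
  · rw [y1, y2]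
    simp only [yk, map_sub, map_smul, sm_ev (Or.inl rfl), sm_un hp,
      sm_un0 (show q ∉ L1 from fun h => disj12 h hq), smul_eq_mul]
    ring
  · rw [y1, y2]
    simp only [yk, map_sub, map_smul, sm_ev (Or.inr rfl), sm_un0 (disj12 hp), sm_un hq,
      smul_eq_mul]
    ring

theorem yk_p {k p q : ℕ} (hp : p ∈ L1) (hq : q ∈ L2) : yk k p q p = -1 := by
  have h1 : p ∉ E1 := fun h => (disjE1 h).1 hp
  have h2 : p ≠ q := fun h => disj12 hp (h ▸ hq)
  simp [yk, ev_not h1, un_self, un_ne h2]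

theorem yk_q {k p q : ℕ} (hp : p ∈ L1) (hq : q ∈ L2) : yk k p q q = -k := by
  have h1 : q ∉ E1 := fun h => (disjE1 h).2 hq
  have h2 : q ≠ p := fun h => disj12 hp (h ▸ hq)
  simp [yk, ev_not h1, un_self, un_ne h2]

theorem caseA {K : Submodule ℚ (ℕ → ℚ)} (hS : Simple K S) (Hc : Ker A1 S ≤ K)
    (Hd : ∀ x ∈ K, ∀ y ∈ K, ∀ z ∈ K, ∃ a b c : ℚ, (a ≠ 0 ∨ b ≠ 0 ∨ c ≠ 0) ∧
      a • x + b • y + c • z ∈ Ker A1 S) {xf : ℕ → ℚ} (hxf : xf ∈ K) (hF : IsF xf) : False := by
  obtain ⟨f1, f2, f3, f4, f5⟩ := hF.e12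
  have hKf : Kf ≤ K := by
    intro x hx
    have h4 := Submodule.add_mem _ (Hc (hF.sub hx)) (Submodule.smul_mem _ (sw L1 x + sw L2 x) hxf)
    rwa [sub_add_cancel] at h4
  -- vectors supported on `E1` are pairwise dependent
  have dimE : ∀ x ∈ K, ∀ y ∈ K, (∀ j ∉ E1, x j = 0) → (∀ j ∉ E1, y j = 0) →
      ∃ a b : ℚ, (a ≠ 0 ∨ b ≠ 0) ∧ ∀ j, a * x j + b * y j = 0 := by
    intro x hx y hy hxE hyE
    obtain ⟨a, b, c, habc, hm⟩ := Hd x hx y hy xf hxf
    obtain ⟨-, ⟨a1, a2, a3⟩, g3, g4, g5⟩ := mem_K1.1 hm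
    have hz : ∀ (L' : Finset ℕ) (x : ℕ → ℚ), (∀ j ∈ L', x j = 0) →
        sm L' x = 0 ∧ sw L' x = 0 := by
      intro L' x h
      rw [sm_apply, sw_apply]
      exact ⟨Finset.sum_eq_zero h, Finset.sum_eq_zero fun j hj => by rw [h j hj, mul_zero]⟩
    obtain ⟨mx1, wx1⟩ := hz L1 x fun j hj => hxE j fun h => (disjE1 h).1 hj
    obtain ⟨mx2, wx2⟩ := hz L2 x fun j hj => hxE j fun h => (disjE1 h).2 hj
    obtain ⟨my1, wy1⟩ := hz L1 y fun j hj => hyE j fun h => (disjE1 h).1 hj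
    obtain ⟨my2, wy2⟩ := hz L2 y fun j hj => hyE j fun h => (disjE1 h).2 hj
    simp only [map_add, map_smul, Pi.add_apply, Pi.smul_apply, smul_eq_mul, hF.s1, hF.s2,
      f1, f2, f3, f4, f5, mx1, wx1, mx2, wx2, my1, wy1, my2, wy2, mul_zero, add_zero, zero_add]
      at a1 a2 a3 g3 g4 g5
    have k1 : a * x 1 + b * y 1 = 0 := by linarith
    have k2 : a * x 2 + b * y 2 = 0 := by linarith
    have hA : Aff (fun j => a * x j + b * y j) := ⟨by linarith, by linarith, by linarith⟩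
    have hc0 : c = 0 := by linear_combination g5 - c * hF.w
    refine ⟨a, b, ?_, fun j => ?_⟩
    · rcases habc with h | h | h
      · exact Or.inl h
      · exact Or.inr h
      · exact absurd hc0 h
    · by_cases hj : j ∈ E1
      · exact hA.zero (show 1 ∈ E1 by decide) (show 2 ∈ E1 by decide) (by decide) k1 k2 j hj
      · rw [hxE j hj, hyE j hj]; ring
  -- three good elements
  obtain ⟨j1, hj1, j2, hj2, j3, hj3, n12, n13, n23, G1, G2, G3⟩ :
      ∃ j1, j1 ∈ E1 ∧ ∃ j2, j2 ∈ E1 ∧ ∃ j3, j3 ∈ E1 ∧ j1 ≠ j2 ∧ j1 ≠ j3 ∧ j2 ≠ j3 ∧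
      (∀ x ∈ K, ∀ k ∈ E1, (∀ i, i ≠ j1 → i ≠ k → x i = 0) → x j1 = 0) ∧
      (∀ x ∈ K, ∀ k ∈ E1, (∀ i, i ≠ j2 → i ≠ k → x i = 0) → x j2 = 0) ∧
      (∀ x ∈ K, ∀ k ∈ E1, (∀ i, i ≠ j3 → i ≠ k → x i = 0) → x j3 = 0) := by
    by_cases hd : ∃ d ∈ K, d ≠ 0 ∧ ∃ a ∈ E1, ∃ b ∈ E1, ∀ i, i ≠ a → i ≠ b → d i = 0
    · obtain ⟨d, hdK, hd0, a, ha, b, hb, hab⟩ := hd
      have hsel : ∀ a ∈ E1, ∀ b ∈ E1, ∃ j1 ∈ E1, ∃ j2 ∈ E1, ∃ j3 ∈ E1, j1 ≠ j2 ∧ j1 ≠ j3 ∧
          j2 ≠ j3 ∧ (j1 ≠ a ∧ j1 ≠ b) ∧ (j2 ≠ a ∧ j2 ≠ b) ∧ (j3 ≠ a ∧ j3 ≠ b) := by decide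
      have hgood : ∀ j ∈ E1, j ≠ a ∧ j ≠ b →
          ∀ x ∈ K, ∀ k ∈ E1, (∀ i, i ≠ j → i ≠ k → x i = 0) → x j = 0 := by
        intro j hj hjab x hx k hk hxs
        obtain ⟨c1, c2, hc, h⟩ := dimE x hx d hdK
          (fun i hi => hxs i (fun h => hi (h ▸ hj)) (fun h => hi (h ▸ hk)))
          (fun i hi => hab i (fun h => hi (h ▸ ha)) (fun h => hi (h ▸ hb)))
        have h1 : c1 ≠ 0 := by
          intro h0
          have h2 : c2 ≠ 0 := hc.resolve_left fun h => h h0
          apply hd0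
          funext i
          have := h i
          rw [h0, zero_mul, zero_add] at this
          exact (mul_eq_zero.1 this).resolve_left h2
        have h2 := h j
        rw [hab j hjab.1 hjab.2, mul_zero, add_zero] at h2
        exact (mul_eq_zero.1 h2).resolve_left h1
      obtain ⟨j1, h1, j2, h2, j3, h3, n12, n13, n23, m1, m2, m3⟩ := hsel a ha b hb
      exact ⟨j1, h1, j2, h2, j3, h3, n12, n13, n23, hgood j1 h1 m1, hgood j2 h2 m2,
        hgood j3 h3 m3⟩
    · have hgood : ∀ j ∈ E1, ∀ x ∈ K, ∀ k ∈ E1, (∀ i, i ≠ j → i ≠ k → x i = 0) → x j = 0 := by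
        intro j hj x hx k hk hxs
        by_contra h
        exact hd ⟨x, hx, fun h0 => h (by rw [h0]; rfl), j, hj, k, hk, hxs⟩
      exact ⟨1, by decide, 2, by decide, 3, by decide, by decide, by decide, by decide,
        hgood 1 (by decide), hgood 2 (by decide), hgood 3 (by decide)⟩
  -- a good element is parallel to a point of a line
  have toLine : ∀ j ∈ E1, (∀ x ∈ K, ∀ k ∈ E1, (∀ i, i ≠ j → i ≠ k → x i = 0) → x j = 0) →
      ∃ L, IsLine L ∧ ∃ p ∈ L, ∃ x ∈ K, (∀ i, i ≠ j → i ≠ p → x i = 0) ∧ x j ≠ 0 ∧ x p ≠ 0 := by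
    intro j hj G
    obtain ⟨Z, hjZ, hZS, hZs, hZt⟩ := hS j (E1S hj)
    obtain ⟨k0, hk0, -, -, -, hkj, -, -, -⟩ := two_others j j
    obtain ⟨u, hu⟩ : ∃ u, u = ind Z (yk k0 11 21) := ⟨_, rfl⟩
    have h11 : 11 ∈ L1 := by decide
    have h21 : 21 ∈ L2 := by decide
    have huK : u ∈ K := hu ▸ hZs _ (hKf (yk_mem h11 h21))
    have huj : u j ≠ 0 := by
      rw [hu, ind_mem hjZ, yk_E1 h11 h21 hj, sub_ne_zero]
      exact_mod_cast hkj
    have huZ : ∀ i ∉ Z, u i = 0 := fun i hi => by rw [hu]; exact ind_notMem hi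
    obtain ⟨z', hz', hne⟩ : ∃ z' ∈ Z, z' ≠ j := by
      by_contra h
      push Not at h
      exact huj (G u huK j hj fun i hi _ => huZ i fun h' => hi (h i h'))
    have hz'S : z' ∈ S := by exact_mod_cast hZS hz'
    rcases hZt with hZt | hZt
    · exfalso
      have key : ∀ p ∈ L1, ∀ q ∈ L2, yk j p q z' = 0 := by
        intro p hp q hq
        obtain ⟨c, hc⟩ := hZt u huK _ (hZs _ (hKf (yk_mem (k := j) hp hq))) huZ
          (fun i hi => ind_notMem hi) (fun h => huj (by rw [h]; rfl))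
        have h1 := congrFun hc j
        rw [ind_mem hjZ, yk_E1 hp hq hj, sub_self, Pi.smul_apply, smul_eq_mul] at h1
        have hc0 : c = 0 := (mul_eq_zero.1 h1.symm).resolve_right huj
        have h2 := congrFun hc z'
        rwa [ind_mem hz', hc0, zero_smul] at h2
      rcases mem_S.1 hz'S with h | h | h
      · have := key 11 h11 21 h21
        rw [yk_E1 h11 h21 h, sub_eq_zero] at this
        exact hne (by exact_mod_cast this.symm)
      · have := key z' h 21 h21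
        rw [yk_p h h21] at this
        norm_num at this
      · have := key 11 h11 z' h
        rw [yk_q h11 h, neg_eq_zero] at this
        have h0 : j = 0 := by exact_mod_cast this
        have := (mem_E1.1 hj).1
        omega
    · obtain ⟨x, hx, hx0, h1, h2⟩ := hZt j hjZ z' hz' hne.symm
      rcases mem_S.1 hz'S with h | h | h
      · exact absurd (G x hx z' h hx0) h1
      · exact ⟨L1, Or.inl rfl, z', h, x, hx, hx0, h1, h2⟩
      · exact ⟨L2, Or.inr rfl, z', h, x, hx, hx0, h1, h2⟩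
  -- two good elements on the same line
  have sameLine : ∀ j ∈ E1, (∀ x ∈ K, ∀ k ∈ E1, (∀ i, i ≠ j → i ≠ k → x i = 0) → x j = 0) →
      ∀ k ∈ E1, j ≠ k → ∀ L, IsLine L →
      (∃ p ∈ L, ∃ x ∈ K, (∀ i, i ≠ j → i ≠ p → x i = 0) ∧ x j ≠ 0 ∧ x p ≠ 0) →
      (∃ p ∈ L, ∃ x ∈ K, (∀ i, i ≠ k → i ≠ p → x i = 0) ∧ x k ≠ 0 ∧ x p ≠ 0) → False := by
    rintro j hj G k hk hjk L hL ⟨p, hp, x, hx, hx0, hxj, hxp⟩ ⟨q, hq, y, hy, hy0, hyk, hyq⟩
    have hr := hKf (un_sub_mem hL hp hq)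
    have hv : y q • x - x p • y - (x p * y q) • (un p - un q) ∈ K :=
      Submodule.sub_mem _ (Submodule.sub_mem _ (Submodule.smul_mem _ _ hx)
        (Submodule.smul_mem _ _ hy)) (Submodule.smul_mem _ _ hr)
    have hjp := line_ne_E1 hL hp hj
    have hjq := line_ne_E1 hL hq hj
    have hkp := line_ne_E1 hL hp hk
    have hkq := line_ne_E1 hL hq hk
    have h1 := G _ hv k hk (by
      intro i hij hik
      simp only [Pi.sub_apply, Pi.smul_apply, smul_eq_mul]
      by_cases hip : i = p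
      · subst hip
        rw [un_self]
        by_cases hiq : i = q
        · subst hiq
          rw [un_self]; ring
        · rw [hy0 i hik hiq, un_ne hiq]; ring
      · rw [hx0 i hij hip, un_ne hip]
        by_cases hiq : i = q
        · subst hiq
          rw [un_self]; ring
        · rw [hy0 i hik hiq, un_ne hiq]; ring)
    simp only [Pi.sub_apply, Pi.smul_apply, smul_eq_mul, un_ne hjp, un_ne hjq,
      hy0 j hjk hjq, mul_zero, sub_zero] at h1
    exact (mul_ne_zero hyq hxj) h1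
  obtain ⟨La, hLa, pa⟩ := toLine j1 hj1 G1
  obtain ⟨Lb, hLb, pb⟩ := toLine j2 hj2 G2
  obtain ⟨Lc, hLc, pc⟩ := toLine j3 hj3 G3
  by_cases hab : La = Lb
  · subst hab
    exact sameLine j1 hj1 G1 j2 hj2 n12 La hLa pa pb
  by_cases hac : La = Lc
  · subst hac
    exact sameLine j1 hj1 G1 j3 hj3 n13 La hLa pa pc
  have hbc : Lb = Lc := by
    rcases hLa with rfl | rfl <;> rcases hLb with rfl | rfl <;> rcases hLc with rfl | rfl <;>
      first | rfl | exact absurd rfl hab | exact absurd rfl hac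
  subst hbc
  exact sameLine j2 hj2 G2 j3 hj3 n23 Lb hLb pb pc

theorem caseB {K : Submodule ℚ (ℕ → ℚ)} (hS : Simple K S) (m n : ℚ)
    (G : (ℕ → ℚ) →ₗ[ℚ] ℚ)
    (hG : G = sw L1 + sw L2 - m • (sm L1 + P 1 - P 2) - n • (sm L2 + (2 : ℚ) • P 1 - P 2))
    (B1 : ∀ x ∈ K, Aff x ∧ G x = 0)
    (B2 : ∀ x : ℕ → ℚ, (∀ j ∉ S, x j = 0) → Aff x → G x = 0 → x ∈ K) : False := by
  have hGa : ∀ x, G x = sw L1 x + sw L2 x - m * (sm L1 x + x 1 - x 2) -
      n * (sm L2 x + 2 * x 1 - x 2) := by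
    intro x
    rw [hG]
    simp only [LinearMap.sub_apply, LinearMap.add_apply, LinearMap.smul_apply, P_apply,
      smul_eq_mul]
  have hGun : ∀ p ∈ L1, G (un p) = tt p - m := by
    intro p hp
    have := mem_L1.1 hp
    rw [hGa, sw_un hp, sw_un0 (disj12 hp), sm_un hp, sm_un0 (disj12 hp),
      un_ne (show 1 ≠ p by omega), un_ne (show 2 ≠ p by omega)]
    ring
  have hGev : ∀ α β : ℚ, G (ev α β) = m * β - n * α := by
    intro α β
    obtain ⟨e1, e2, -, -, -⟩ := ev_12345 α β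
    rw [hGa, sw_ev (Or.inl rfl), sw_ev (Or.inr rfl), sm_ev (Or.inl rfl), sm_ev (Or.inr rfl),
      e1, e2]
    ring
  -- three points of `L1` which are not loops
  obtain ⟨p0, hp0, p1, hp1, p2, hp2, n01, n02, n12, c0, c1, c2⟩ :
      ∃ p0, p0 ∈ L1 ∧ ∃ p1, p1 ∈ L1 ∧ ∃ p2, p2 ∈ L1 ∧ p0 ≠ p1 ∧ p0 ≠ p2 ∧ p1 ≠ p2 ∧
      G (un p0) ≠ 0 ∧ G (un p1) ≠ 0 ∧ G (un p2) ≠ 0 := by
    have t11 : tt 11 = 1 := by rw [tt_L1 (by decide)]; norm_num
    have t12 : tt 12 = 2 := by rw [tt_L1 (by decide)]; norm_num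
    have t13 : tt 13 = 3 := by rw [tt_L1 (by decide)]; norm_num
    have t14 : tt 14 = 4 := by rw [tt_L1 (by decide)]; norm_num
    have g11 := hGun 11 (by decide)
    have g12 := hGun 12 (by decide)
    have g13 := hGun 13 (by decide)
    have g14 := hGun 14 (by decide)
    rw [t11] at g11
    rw [t12] at g12
    rw [t13] at g13
    rw [t14] at g14
    by_cases h1 : m = 1
    · refine ⟨12, by decide, 13, by decide, 14, by decide, by decide, by decide, by decide, ?_, ?_,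
        ?_⟩
      · rw [g12, h1]; norm_num
      · rw [g13, h1]; norm_num
      · rw [g14, h1]; norm_num
    by_cases h2 : m = 2
    · refine ⟨11, by decide, 13, by decide, 14, by decide, by decide, by decide, by decide, ?_, ?_,
        ?_⟩
      · rw [g11, h2]; norm_num
      · rw [g13, h2]; norm_num
      · rw [g14, h2]; norm_num
    by_cases h3 : m = 3
    · refine ⟨11, by decide, 12, by decide, 14, by decide, by decide, by decide, by decide, ?_, ?_,
        ?_⟩
      · rw [g11, h3]; norm_num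
      · rw [g12, h3]; norm_num
      · rw [g14, h3]; norm_num
    refine ⟨11, by decide, 12, by decide, 13, by decide, by decide, by decide, by decide, ?_, ?_,
      ?_⟩
    · rw [g11]; intro h; exact h1 (by linarith)
    · rw [g12]; intro h; exact h2 (by linarith)
    · rw [g13]; intro h; exact h3 (by linarith)
  have hunAff : ∀ p ∈ L1, ∀ q ∈ L1, ∀ a b : ℚ, (∀ j ∉ S, (a • un p + b • un q) j = 0) ∧
      Aff (a • un p + b • un q) := by
    intro p hp q hq a b
    have hE : ∀ j ∈ E1, (a • un p + b • un q) j = 0 := by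
      intro j hj
      rw [Pi.add_apply, Pi.smul_apply, Pi.smul_apply, un_ne (line_ne_E1 (Or.inl rfl) hp hj),
        un_ne (line_ne_E1 (Or.inl rfl) hq hj)]
      simp
    refine ⟨fun j hj => ?_, aff_of (α := 0) (β := 0) fun j hj => by rw [hE j hj]; ring⟩
    rw [Pi.add_apply, Pi.smul_apply, Pi.smul_apply,
      un_ne (fun h => hj (by rw [h]; exact L1S hp)), un_ne (fun h => hj (by rw [h]; exact L1S hq))]
    simp
  have hr : ∀ p ∈ L1, ∀ q ∈ L1, G (un q) • un p + (-G (un p)) • un q ∈ K := by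
    intro p hp q hq
    obtain ⟨h1, h2⟩ := hunAff p hp q hq (G (un q)) (-G (un p))
    refine B2 _ h1 h2 ?_
    rw [map_add, map_smul, map_smul, smul_eq_mul, smul_eq_mul]; ring
  obtain ⟨Z, hpZ, hZS, hZs, hZt⟩ := hS p0 (L1S hp0)
  have hinZ : ∀ q ∈ L1, q ≠ p0 → G (un q) ≠ 0 → q ∈ Z := by
    intro q hq hne hGq
    by_contra hqZ
    have h1 := hZs _ (hr p0 hp0 q hq)
    have h2 : ind Z (G (un q) • un p0 + (-G (un p0)) • un q) = G (un q) • un p0 := by
      funext j
      by_cases hj : j ∈ Z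
      · have hjq : j ≠ q := fun h => hqZ (h ▸ hj)
        rw [ind_mem hj, Pi.add_apply, Pi.smul_apply, Pi.smul_apply, un_ne hjq]
        simp
      · rw [ind_notMem hj, Pi.smul_apply, un_ne (show j ≠ p0 from fun h => hj (h ▸ hpZ)), smul_zero]
    rw [h2] at h1
    have h3 := (B1 _ h1).2
    rw [map_smul, smul_eq_mul] at h3
    exact (mul_ne_zero hGq c0) h3
  have hp1Z := hinZ p1 hp1 n01.symm c1
  have hp2Z := hinZ p2 hp2 n02.symm c2
  rcases hZt with hZt | hZt
  · -- circuit type: impossible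
    obtain ⟨c, hc⟩ := hZt _ (hr p0 hp0 p1 hp1) _ (hr p0 hp0 p2 hp2)
      (fun j hj => by
        rw [Pi.add_apply, Pi.smul_apply, Pi.smul_apply, un_ne (show j ≠ p0 from fun h => hj (h ▸ hpZ)),
          un_ne (show j ≠ p1 from fun h => hj (h ▸ hp1Z))]
        simp)
      (fun j hj => by
        rw [Pi.add_apply, Pi.smul_apply, Pi.smul_apply, un_ne (show j ≠ p0 from fun h => hj (h ▸ hpZ)),
          un_ne (show j ≠ p2 from fun h => hj (h ▸ hp2Z))]
        simp)
      (fun h => by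
        have := congrFun h p1
        simp only [Pi.add_apply, Pi.smul_apply, un_ne n01.symm, un_self, smul_eq_mul, mul_zero,
          mul_one, zero_add, Pi.zero_apply, neg_eq_zero] at this
        exact c0 this)
    have h1 := congrFun hc p1
    simp only [Pi.add_apply, Pi.smul_apply, un_ne n01.symm, un_ne n12, un_self, smul_eq_mul,
      mul_zero, mul_one, zero_add] at h1
    have hc0 : c = 0 := by
      rcases mul_eq_zero.1 h1.symm with h | h
      · exact h
      · exact absurd (neg_eq_zero.1 h) c0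
    have h2 := congrFun hc p2
    simp only [Pi.add_apply, Pi.smul_apply, un_ne n02.symm, un_ne n12.symm, un_self, smul_eq_mul,
      mul_zero, mul_one, zero_add, hc0, neg_eq_zero] at h2
    exact c0 h2
  -- no element of `E1` lies in `Z`
  have hEZ : ∀ j ∈ E1, j ∉ Z := by
    intro j hj hjZ
    obtain ⟨x, hx, hx0, hxj, -⟩ := hZt j hjZ p0 hpZ (line_ne_E1 (Or.inl rfl) hp0 hj)
    obtain ⟨a, ha, b, hb, hab, n1, n2, n3, n4⟩ := two_others j p0
    exact hxj ((B1 x hx).1.zero ha hb hab (hx0 a n1 n2) (hx0 b n3 n4) j hj)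
  have hmn : ∀ α β : ℚ, n * α - m * β = 0 := by
    intro α β
    obtain ⟨γ, hγ⟩ : ∃ γ, γ = (n * α - m * β) / G (un p0) := ⟨_, rfl⟩
    have hy : ev α β + γ • un p0 ∈ K := by
      refine B2 _ (fun j hj => ?_) (aff_of (α := α) (β := β) fun j hj => ?_) ?_
      · rw [Pi.add_apply, Pi.smul_apply, ev_not (fun h => hj (E1S h)),
          un_ne (fun h => hj (by rw [h]; exact L1S hp0))]
        simp
      · rw [Pi.add_apply, Pi.smul_apply, ev_E1 hj, un_ne (line_ne_E1 (Or.inl rfl) hp0 hj)]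
        simp
      · rw [map_add, map_smul, smul_eq_mul, hGev, hγ, div_mul_cancel₀ _ c0]; ring
    have h1 := hZs _ hy
    have h2 : ind Z (ev α β + γ • un p0) = γ • un p0 := by
      funext j
      by_cases hj : j ∈ Z
      · rw [ind_mem hj, Pi.add_apply, ev_not (fun h => hEZ j h hj), zero_add]
      · rw [ind_notMem hj, Pi.smul_apply, un_ne (show j ≠ p0 from fun h => hj (h ▸ hpZ)), smul_zero]
    rw [h2] at h1
    have h3 := (B1 _ h1).2
    rw [map_smul, smul_eq_mul, hγ, div_mul_cancel₀ _ c0] at h3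
    exact h3
  have hn : n = 0 := by have := hmn 1 0; linarith
  have hm : m = 0 := by have := hmn 0 1; linarith
  have hev : ∀ α β : ℚ, ev α β ∈ K := by
    intro α β
    refine B2 _ (fun j hj => ev_not fun h => hj (E1S h)) (aff_of fun j hj => ev_E1 hj) ?_
    rw [hGev, hm, hn]; ring
  obtain ⟨Z', h1Z, hZS', hZs', hZt'⟩ := hS 1 (by decide)
  obtain ⟨u, hu⟩ : ∃ u, u = ind Z' (ev 1 0) := ⟨_, rfl⟩
  have huK : u ∈ K := hu ▸ hZs' _ (hev 1 0)
  have huv : ∀ j ∈ E1, u j = 1 ∧ j ∈ Z' ∨ u j = 0 := by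
    intro j hj
    by_cases hjZ : j ∈ Z'
    · left
      rw [hu, ind_mem hjZ, ev_E1 hj]
      exact ⟨by ring, hjZ⟩
    · right
      rw [hu, ind_notMem hjZ]
  have hu1 : u 1 = 1 := by
    rw [hu, ind_mem h1Z, ev_E1 (by decide)]; ring
  obtain ⟨a1, a2, a3⟩ := (B1 u huK).1
  have hu2 : 2 ∈ Z' := by
    rcases huv 2 (by decide) with h | h
    · exact h.2
    · exfalso
      rcases huv 3 (by decide) with h' | h' <;> linarith [h, h', hu1, a1]
  have hu2' : u 2 = 1 := by
    rw [hu, ind_mem hu2, ev_E1 (by decide)]; ring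
  have hE1Z : ∀ j ∈ E1, j ∈ Z' := by
    intro j hj
    rcases huv j hj with h | h
    · exact h.2
    · exfalso
      have := (B1 u huK).1.formula j hj
      rw [hu1, hu2', h] at this
      norm_num at this
  rcases hZt' with hZt' | hZt'
  · obtain ⟨c, hc⟩ := hZt' _ (hev 1 0) _ (hev 0 1)
      (fun j hj => ev_not fun h => hj (hE1Z j h)) (fun j hj => ev_not fun h => hj (hE1Z j h))
      (fun h => by
        have := congrFun h 1
        rw [ev_E1 (by decide)] at this
        norm_num at this)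
    have h1 := congrFun hc 1
    have h2 := congrFun hc 2
    rw [Pi.smul_apply, ev_E1 (by decide), ev_E1 (by decide), smul_eq_mul] at h1
    rw [Pi.smul_apply, ev_E1 (by decide), ev_E1 (by decide), smul_eq_mul] at h2
    push_cast at h1 h2
    linarith
  · obtain ⟨x, hx, hx0, hxz, -⟩ := hZt' 1 h1Z 2 hu2 (by decide)
    exact hxz ((B1 x hx).1.zero (show 3 ∈ E1 by decide) (show 4 ∈ E1 by decide) (by decide)
      (hx0 3 (by decide) (by decide)) (hx0 4 (by decide) (by decide)) 1 (by decide))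

theorem core20 {K : Submodule ℚ (ℕ → ℚ)}
    (hS : Simple K S) (Hc : Ker A1 S ≤ K)
    (Hd : ∀ x ∈ K, ∀ y ∈ K, ∀ z ∈ K, ∃ a b c : ℚ, (a ≠ 0 ∨ b ≠ 0 ∨ c ≠ 0) ∧
      a • x + b • y + c • z ∈ Ker A1 S) : False := by
  obtain ⟨x1, hx1, hx1L, hne1⟩ := line_vec hS (Or.inl rfl) 0 0 (fun x hx _ _ => Hc hx)
  obtain ⟨x2, hx2, hx2L, hne2⟩ := line_vec hS (Or.inr rfl) 0 0 (fun x hx _ _ => Hc hx)
  by_cases m1 : sm L1 x1 = 0
  · exact caseA hS Hc Hd (Submodule.smul_mem _ _ hx1)
      (isF_of_line (Or.inl rfl) hx1L m1 fun h => hne1 ⟨m1, h⟩)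
  by_cases m2 : sm L2 x2 = 0
  · exact caseA hS Hc Hd (Submodule.smul_mem _ _ hx2)
      (isF_of_line (Or.inr rfl) hx2L m2 fun h => hne2 ⟨m2, h⟩)
  have hz : ∀ (L' : Finset ℕ) (x : ℕ → ℚ), (∀ j ∈ L', x j = 0) → sm L' x = 0 ∧ sw L' x = 0 := by
    intro L' x h
    rw [sm_apply, sw_apply]
    exact ⟨Finset.sum_eq_zero h, Finset.sum_eq_zero fun j hj => by rw [h j hj, mul_zero]⟩
  obtain ⟨m12, w12⟩ := hz L2 x1 fun j hj => hx1L j fun h => disj12 h hj
  obtain ⟨m21, w21⟩ := hz L1 x2 fun j hj => hx2L j fun h => disj12 hj h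
  have z1 : ∀ j ∈ E1, x1 j = 0 := fun j hj => hx1L j (disjE1 hj).1
  have z2 : ∀ j ∈ E1, x2 j = 0 := fun j hj => hx2L j (disjE1 hj).2
  obtain ⟨p1, p2, p3, p4, p5⟩ := Aff.coeffs z1
  obtain ⟨q1, q2, q3, q4, q5⟩ := Aff.coeffs z2
  obtain ⟨m, hm⟩ : ∃ m, m = sw L1 x1 / sm L1 x1 := ⟨_, rfl⟩
  obtain ⟨n, hn⟩ : ∃ n, n = sw L2 x2 / sm L2 x2 := ⟨_, rfl⟩
  have hm' : sw L1 x1 = m * sm L1 x1 := by rw [hm, div_mul_cancel₀ _ m1]
  have hn' : sw L2 x2 = n * sm L2 x2 := by rw [hn, div_mul_cancel₀ _ m2]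
  refine caseB hS m n _ rfl ?_ ?_
  · intro x hx
    obtain ⟨a, b, c, habc, hmem⟩ := Hd x hx x1 hx1 x2 hx2
    obtain ⟨-, ⟨a1, a2, a3⟩, g3, g4, g5⟩ := mem_K1.1 hmem
    simp only [map_add, map_smul, Pi.add_apply, Pi.smul_apply, smul_eq_mul, p1, p2, p3, p4, p5,
      q1, q2, q3, q4, q5, m12, w12, m21, w21, mul_zero, add_zero] at a1 a2 a3 g3 g4 g5
    have ha : a ≠ 0 := by
      intro ha
      rw [ha] at g3 g4
      have hb : b * sm L1 x1 = 0 := by linarith
      have hc : c * sm L2 x2 = 0 := by linarith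
      have hb' := (mul_eq_zero.1 hb).resolve_right m1
      have hc' := (mul_eq_zero.1 hc).resolve_right m2
      rcases habc with h | h | h
      · exact h ha
      · exact h hb'
      · exact h hc'
    refine ⟨⟨?_, ?_, ?_⟩, ?_⟩
    · have : a * (x 1 - 2 * x 2 + x 3) = 0 := by linear_combination a1
      exact (mul_eq_zero.1 this).resolve_left ha
    · have : a * (x 2 - 2 * x 3 + x 4) = 0 := by linear_combination a2
      exact (mul_eq_zero.1 this).resolve_left ha
    · have : a * (x 3 - 2 * x 4 + x 5) = 0 := by linear_combination a3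
      exact (mul_eq_zero.1 this).resolve_left ha
    · simp only [LinearMap.sub_apply, LinearMap.add_apply, LinearMap.smul_apply, P_apply,
        smul_eq_mul]
      have : a * (sw L1 x + sw L2 x - m * (sm L1 x + x 1 - x 2) -
          n * (sm L2 x + 2 * x 1 - x 2)) = 0 := by
        linear_combination g5 - m * g3 - n * g4 - b * hm' - c * hn'
      exact (mul_eq_zero.1 this).resolve_left ha
  · intro x hxS hA hG
    simp only [LinearMap.sub_apply, LinearMap.add_apply, LinearMap.smul_apply, P_apply,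
      smul_eq_mul] at hG
    obtain ⟨a, ha⟩ : ∃ a, a = (sm L1 x + x 1 - x 2) / sm L1 x1 := ⟨_, rfl⟩
    obtain ⟨b, hb⟩ : ∃ b, b = (sm L2 x + 2 * x 1 - x 2) / sm L2 x2 := ⟨_, rfl⟩
    have ha' : a * sm L1 x1 = sm L1 x + x 1 - x 2 := by rw [ha, div_mul_cancel₀ _ m1]
    have hb' : b * sm L2 x2 = sm L2 x + 2 * x 1 - x 2 := by rw [hb, div_mul_cancel₀ _ m2]
    obtain ⟨a1, a2, a3⟩ := hA
    have hmem : x - a • x1 - b • x2 ∈ Ker A1 S := by
      rw [mem_K1]
      refine ⟨fun j hj => ?_, ⟨?_, ?_, ?_⟩, ?_, ?_, ?_⟩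
      · rw [Pi.sub_apply, Pi.sub_apply, Pi.smul_apply, Pi.smul_apply, hxS j hj,
          hx1L j fun h => hj (L1S h), hx2L j fun h => hj (L2S h)]
        simp
      · simp only [Pi.sub_apply, Pi.smul_apply, smul_eq_mul, p1, p2, p3, q1, q2, q3]
        linear_combination a1
      · simp only [Pi.sub_apply, Pi.smul_apply, smul_eq_mul, p2, p3, p4, q2, q3, q4]
        linear_combination a2
      · simp only [Pi.sub_apply, Pi.smul_apply, smul_eq_mul, p3, p4, p5, q3, q4, q5]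
        linear_combination a3
      · simp only [map_sub, map_smul, Pi.sub_apply, Pi.smul_apply, smul_eq_mul, p1, p2, q1, q2,
          m21]
        linear_combination -ha'
      · simp only [map_sub, map_smul, Pi.sub_apply, Pi.smul_apply, smul_eq_mul, p1, p2, q1, q2,
          m12]
        linear_combination -hb'
      · simp only [map_sub, map_smul, smul_eq_mul, w12, w21]
        linear_combination hG - m * ha' - n * hb' - a * hm' - b * hn'
    have h1 := Submodule.add_mem _ (Submodule.add_mem _ (Hc hmem) (Submodule.smul_mem _ b hx2))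
      (Submodule.smul_mem _ a hx1)
    have h2 : x - a • x1 - b • x2 + b • x2 + a • x1 = x := by
      abel
    rwa [h2] at h1

/-- the example has no simple space within distance two -/
theorem core {K' K : Submodule ℚ (ℕ → ℚ)} (h1 : Adj (Ker A1 S) K') (h2 : Adj K' K)
    (hS : Simple K S) (hsupp : ∀ x ∈ K, ∀ j ∉ S, x j = 0) : False := by
  obtain ⟨φ, hφ⟩ := h1
  obtain ⟨φ', hφ'⟩ := h2
  rcases hφ with hφ | hφ <;> rcases hφ' with hφ' | hφ'
  · -- two contractions
    refine core20 hS (fun x hx => ?_) (fun x hx y hy z hz => ?_)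
    · rw [hφ] at hx
      have := hx.1
      rw [hφ'] at this
      exact this.1
    · obtain ⟨w, hw0, hws, hw⟩ := exists_supported {0, 1, 2} (by decide : 2 < _)
        ![φ x • P 0 + φ y • P 1 + φ z • P 2, φ' x • P 0 + φ' y • P 1 + φ' z • P 2]
      have e1 := hw 0
      have e2 := hw 1
      simp only [Matrix.cons_val_zero, Matrix.cons_val_one, LinearMap.add_apply,
        LinearMap.smul_apply, P_apply, smul_eq_mul] at e1 e2
      refine ⟨w 0, w 1, w 2, ?_, ?_⟩
      · by_contra h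
        push Not at h
        apply hw0
        funext j
        by_cases hj : j ∈ ({0, 1, 2} : Finset ℕ)
        · simp only [Finset.mem_insert, Finset.mem_singleton] at hj
          rcases hj with rfl | rfl | rfl
          · exact h.1
          · exact h.2.1
          · exact h.2.2
        · exact hws j hj
      · have hm : w 0 • x + w 1 • y + w 2 • z ∈ K :=
          Submodule.add_mem _ (Submodule.add_mem _ (Submodule.smul_mem _ _ hx)
            (Submodule.smul_mem _ _ hy)) (Submodule.smul_mem _ _ hz)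
        rw [hφ, hφ']
        refine ⟨⟨hm, ?_⟩, ?_⟩
        · change φ' _ = 0
          rw [map_add, map_add, map_smul, map_smul, map_smul, smul_eq_mul, smul_eq_mul,
            smul_eq_mul]
          linear_combination e2
        · change φ _ = 0
          rw [map_add, map_add, map_smul, map_smul, map_smul, smul_eq_mul, smul_eq_mul,
            smul_eq_mul]
          linear_combination e1
  · -- contraction, then row
    refine core11 hsupp hS φ' (fun x hx h0 => ?_) (fun x hx y hy => ?_)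
    · rw [hφ] at hx
      rw [hφ']
      exact ⟨hx.1, h0⟩
    · rw [hφ'] at hx hy
      by_cases h0 : φ x = 0
      · refine ⟨1, 0, Or.inl one_ne_zero, ?_⟩
        rw [one_smul, zero_smul, add_zero, hφ]
        exact ⟨hx.1, h0⟩
      · refine ⟨φ y, -φ x, Or.inr (neg_ne_zero.2 h0), ?_⟩
        rw [hφ]
        refine ⟨Submodule.add_mem _ (Submodule.smul_mem _ _ hx.1) (Submodule.smul_mem _ _ hy.1), ?_⟩
        change φ _ = 0
        rw [map_add, map_smul, map_smul, smul_eq_mul, smul_eq_mul]; ring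
  · -- row, then contraction
    refine core11 hsupp hS φ (fun x hx h0 => ?_) (fun x hx y hy => ?_)
    · have : x ∈ K' := by rw [hφ]; exact ⟨hx, h0⟩
      rw [hφ'] at this
      exact this.1
    · have hle : ∀ v ∈ K, φ' v = 0 → v ∈ Ker A1 S := by
        intro v hv h0
        have : v ∈ K' := by rw [hφ']; exact ⟨hv, h0⟩
        rw [hφ] at this
        exact this.1
      by_cases h0 : φ' x = 0
      · refine ⟨1, 0, Or.inl one_ne_zero, ?_⟩
        rw [one_smul, zero_smul, add_zero]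
        exact hle x hx h0
      · refine ⟨φ' y, -φ' x, Or.inr (neg_ne_zero.2 h0), hle _
          (Submodule.add_mem _ (Submodule.smul_mem _ _ hx) (Submodule.smul_mem _ _ hy)) ?_⟩
        rw [map_add, map_smul, map_smul, smul_eq_mul, smul_eq_mul]; ring
  · -- two rows
    refine core02 hS (fun x hx => ?_) φ φ' (fun x hx h0 h0' => ?_)
    · rw [hφ'] at hx
      have := hx.1
      rw [hφ] at this
      exact this.1
    · rw [hφ', hφ]
      exact ⟨⟨hx, h0⟩, h0'⟩

/-- the matrix has depth at least `5` -/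
theorem lower : ¬ MatrixDepthLE 4 6 A1 S := by
  intro h
  obtain ⟨X, hX, -⟩ := exists_component (M := colMatroid A1 S) (s := 1)
    (by simp only [colMatroid_E]; exact_mod_cast (kS (k := 1) (by norm_num)))
  have hXS := conn1 hX
  rw [hXS] at hX
  obtain ⟨m', A', hstep, -, hd⟩ := (h S hX).resolve_left (by decide)
  have hadj := hstep.adj S
  obtain ⟨Y, hY, hY2, hY1⟩ := big_component hadj
  obtain ⟨K, hK1, hK2, hK3⟩ := exists_simple hd hY hY2 hY1
  exact core hadj hK1 hK2 hK3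

end Pool.Agent.R880.CD
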