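import Pool.Agent.R880.CD.Red

set_option autoImplicit false

/-!
# The example
-/

namespace Pool.Agent.R880.CD

def E1 : Finset ℕ := Finset.Icc 1 5
def L1 : Finset ℕ := Finset.Icc 11 17
def L2 : Finset ℕ := Finset.Icc 21 27
/-- the labels of the 19 columns -/
def S : Finset ℕ := E1 ∪ L1 ∪ L2

theorem mem_E1 {j : ℕ} : j ∈ E1 ↔ 1 ≤ j ∧ j ≤ 5 := Finset.mem_Icc
theorem mem_L1 {j : ℕ} : j ∈ L1 ↔ 11 ≤ j ∧ j ≤ 17 := Finset.mem_Icc
theorem mem_L2 {j : ℕ} : j ∈ L2 ↔ 21 ≤ j ∧ j ≤ 27 := Finset.mem_Icc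
theorem mem_S {j : ℕ} : j ∈ S ↔ j ∈ E1 ∨ j ∈ L1 ∨ j ∈ L2 := by
  simp [S, or_assoc]

def dl (k j : ℕ) : ℚ := if j = k then 1 else 0
def oneOn (L : Finset ℕ) (j : ℕ) : ℚ := if j ∈ L then 1 else 0
/-- parameter of a point on one of the two lines -/
def tt (j : ℕ) : ℚ := if j ∈ L1 then (j : ℚ) - 10 else if j ∈ L2 then (j : ℚ) - 20 else 0

/-- the matrix of the example -/
def A1 : Matrix (Fin 6) ℕ ℚ :=
  ![fun j => dl 1 j - 2 * dl 2 j + dl 3 j,
    fun j => dl 2 j - 2 * dl 3 j + dl 4 j,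
    fun j => dl 3 j - 2 * dl 4 j + dl 5 j,
    fun j => oneOn L1 j + dl 1 j - dl 2 j,
    fun j => oneOn L2 j + 2 * dl 1 j - dl 2 j,
    fun j => tt j]

/-- another matrix with the same column matroid -/
def A2 : Matrix (Fin 6) ℕ ℚ :=
  ![fun j => dl 1 j - 2 * dl 2 j + dl 3 j,
    fun j => dl 2 j - 2 * dl 3 j + dl 4 j,
    fun j => dl 3 j - 2 * dl 4 j + dl 5 j,
    fun j => oneOn L1 j + dl 1 j - dl 2 j,
    fun j => oneOn L2 j + dl 1 j - dl 2 j,
    fun j => tt j - 2 * dl 1 j + dl 2 j]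

/-! ### functionals -/

def P (k : ℕ) : (ℕ → ℚ) →ₗ[ℚ] ℚ := LinearMap.proj k
noncomputable def sm (L : Finset ℕ) : (ℕ → ℚ) →ₗ[ℚ] ℚ := ∑ j ∈ L, P j
noncomputable def sw (L : Finset ℕ) : (ℕ → ℚ) →ₗ[ℚ] ℚ := ∑ j ∈ L, tt j • P j

theorem P_apply (k : ℕ) (x : ℕ → ℚ) : P k x = x k := rfl
theorem sm_apply (L : Finset ℕ) (x : ℕ → ℚ) : sm L x = ∑ j ∈ L, x j := by
  simp [sm, P_apply]
theorem sw_apply (L : Finset ℕ) (x : ℕ → ℚ) : sw L x = ∑ j ∈ L, tt j * x j := by
  simp [sw, P_apply]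

theorem sum_dl {k : ℕ} (hk : k ∈ S) (x : ℕ → ℚ) : ∑ j ∈ S, dl k j * x j = x k := by
  simp [dl, hk]

theorem sum_oneOn {L : Finset ℕ} (hL : L ⊆ S) (x : ℕ → ℚ) :
    ∑ j ∈ S, oneOn L j * x j = sm L x := by
  rw [sm_apply, ← Finset.sum_subset hL]
  · exact Finset.sum_congr rfl fun j hj => by simp [oneOn, hj]
  · intro j _ hj
    simp [oneOn, hj]

theorem disj12 {j : ℕ} (h : j ∈ L1) : j ∉ L2 := by
  rw [mem_L1] at h; rw [mem_L2]; omega
theorem disjE1 {j : ℕ} (h : j ∈ E1) : j ∉ L1 ∧ j ∉ L2 := by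
  rw [mem_E1] at h; rw [mem_L1, mem_L2]; omega

theorem sum_tt (x : ℕ → ℚ) : ∑ j ∈ S, tt j * x j = sw L1 x + sw L2 x := by
  have hd : Disjoint L1 L2 := Finset.disjoint_left.2 fun j h => disj12 h
  rw [sw_apply, sw_apply, ← Finset.sum_union hd]
  symm
  refine Finset.sum_subset ?_ ?_
  · intro j hj
    rw [Finset.mem_union] at hj
    rw [mem_S]; tauto
  · intro j _ hj
    rw [Finset.mem_union] at hj
    push Not at hj
    simp [tt, hj.1, hj.2]

theorem L1S : L1 ⊆ S := fun j hj => mem_S.2 (Or.inr (Or.inl hj))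
theorem L2S : L2 ⊆ S := fun j hj => mem_S.2 (Or.inr (Or.inr hj))
theorem E1S : E1 ⊆ S := fun j hj => mem_S.2 (Or.inl hj)
theorem kS {k : ℕ} (h : 1 ≤ k ∧ k ≤ 5) : k ∈ S := E1S (mem_E1.2 h)

/-- second differences vanish -/
def Aff (x : ℕ → ℚ) : Prop :=
  x 1 - 2 * x 2 + x 3 = 0 ∧ x 2 - 2 * x 3 + x 4 = 0 ∧ x 3 - 2 * x 4 + x 5 = 0

theorem mem_K1 {x : ℕ → ℚ} : x ∈ Ker A1 S ↔ (∀ j ∉ S, x j = 0) ∧ Aff x ∧
    sm L1 x + x 1 - x 2 = 0 ∧ sm L2 x + 2 * x 1 - x 2 = 0 ∧ sw L1 x + sw L2 x = 0 := by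
  have h1 := sum_dl (kS (k := 1) (by norm_num)) x
  have h2 := sum_dl (kS (k := 2) (by norm_num)) x
  have h3 := sum_dl (kS (k := 3) (by norm_num)) x
  have h4 := sum_dl (kS (k := 4) (by norm_num)) x
  have h5 := sum_dl (kS (k := 5) (by norm_num)) x
  have hL1 := sum_oneOn L1S x
  have hL2 := sum_oneOn L2S x
  have ht := sum_tt x
  rw [mem_Ker, Fin.forall_fin_succ, Fin.forall_fin_succ, Fin.forall_fin_succ, Fin.forall_fin_succ,
    Fin.forall_fin_succ, Fin.forall_fin_succ]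
  have e0 : ∑ j ∈ S, A1 0 j * x j = x 1 - 2 * x 2 + x 3 := by
    rw [← h1, ← h2, ← h3, Finset.mul_sum, ← Finset.sum_sub_distrib, ← Finset.sum_add_distrib]
    exact Finset.sum_congr rfl fun j _ => by simp only [A1, Matrix.cons_val_zero]; ring
  have e1 : ∑ j ∈ S, A1 1 j * x j = x 2 - 2 * x 3 + x 4 := by
    rw [← h2, ← h3, ← h4, Finset.mul_sum, ← Finset.sum_sub_distrib, ← Finset.sum_add_distrib]
    exact Finset.sum_congr rfl fun j _ => by simp only [A1, Matrix.cons_val]; ring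
  have e2 : ∑ j ∈ S, A1 2 j * x j = x 3 - 2 * x 4 + x 5 := by
    rw [← h3, ← h4, ← h5, Finset.mul_sum, ← Finset.sum_sub_distrib, ← Finset.sum_add_distrib]
    exact Finset.sum_congr rfl fun j _ => by simp only [A1, Matrix.cons_val]; ring
  have e3 : ∑ j ∈ S, A1 3 j * x j = sm L1 x + x 1 - x 2 := by
    rw [← h1, ← h2, ← hL1, ← Finset.sum_add_distrib, ← Finset.sum_sub_distrib]
    exact Finset.sum_congr rfl fun j _ => by simp only [A1, Matrix.cons_val]; ring
  have e4 : ∑ j ∈ S, A1 4 j * x j = sm L2 x + 2 * x 1 - x 2 := by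
    rw [← h1, ← h2, ← hL2, Finset.mul_sum, ← Finset.sum_add_distrib, ← Finset.sum_sub_distrib]
    exact Finset.sum_congr rfl fun j _ => by simp only [A1, Matrix.cons_val]; ring
  have e5 : ∑ j ∈ S, A1 5 j * x j = sw L1 x + sw L2 x := by
    rw [← ht]
    exact Finset.sum_congr rfl fun j _ => by simp only [A1, Matrix.cons_val]
  refine and_congr_right fun _ => ?_
  constructor
  · rintro ⟨g0, g1, g2, g3, g4, g5, -⟩
    refine ⟨⟨?_, ?_, ?_⟩, ?_, ?_, ?_⟩
    · rw [← e0]; exact g0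
    · rw [← e1]; exact g1
    · rw [← e2]; exact g2
    · rw [← e3]; exact g3
    · rw [← e4]; exact g4
    · rw [← e5]; exact g5
  · rintro ⟨⟨g0, g1, g2⟩, g3, g4, g5⟩
    refine ⟨?_, ?_, ?_, ?_, ?_, ?_, fun i => i.elim0⟩
    · rw [← e0] at g0; exact g0
    · rw [← e1] at g1; exact g1
    · rw [← e2] at g2; exact g2
    · rw [← e3] at g3; exact g3
    · rw [← e4] at g4; exact g4
    · rw [← e5] at g5; exact g5

theorem mem_K2 {x : ℕ → ℚ} : x ∈ Ker A2 S ↔ (∀ j ∉ S, x j = 0) ∧ Aff x ∧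
    sm L1 x + x 1 - x 2 = 0 ∧ sm L2 x + x 1 - x 2 = 0 ∧
    sw L1 x + sw L2 x - 2 * x 1 + x 2 = 0 := by
  have h1 := sum_dl (kS (k := 1) (by norm_num)) x
  have h2 := sum_dl (kS (k := 2) (by norm_num)) x
  have h3 := sum_dl (kS (k := 3) (by norm_num)) x
  have h4 := sum_dl (kS (k := 4) (by norm_num)) x
  have h5 := sum_dl (kS (k := 5) (by norm_num)) x
  have hL1 := sum_oneOn L1S x
  have hL2 := sum_oneOn L2S x
  have ht := sum_tt x
  rw [mem_Ker, Fin.forall_fin_succ, Fin.forall_fin_succ, Fin.forall_fin_succ, Fin.forall_fin_succ,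
    Fin.forall_fin_succ, Fin.forall_fin_succ]
  have e0 : ∑ j ∈ S, A2 0 j * x j = x 1 - 2 * x 2 + x 3 := by
    rw [← h1, ← h2, ← h3, Finset.mul_sum, ← Finset.sum_sub_distrib, ← Finset.sum_add_distrib]
    exact Finset.sum_congr rfl fun j _ => by simp only [A2, Matrix.cons_val_zero]; ring
  have e1 : ∑ j ∈ S, A2 1 j * x j = x 2 - 2 * x 3 + x 4 := by
    rw [← h2, ← h3, ← h4, Finset.mul_sum, ← Finset.sum_sub_distrib, ← Finset.sum_add_distrib]
    exact Finset.sum_congr rfl fun j _ => by simp only [A2, Matrix.cons_val]; ring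
  have e2 : ∑ j ∈ S, A2 2 j * x j = x 3 - 2 * x 4 + x 5 := by
    rw [← h3, ← h4, ← h5, Finset.mul_sum, ← Finset.sum_sub_distrib, ← Finset.sum_add_distrib]
    exact Finset.sum_congr rfl fun j _ => by simp only [A2, Matrix.cons_val]; ring
  have e3 : ∑ j ∈ S, A2 3 j * x j = sm L1 x + x 1 - x 2 := by
    rw [← h1, ← h2, ← hL1, ← Finset.sum_add_distrib, ← Finset.sum_sub_distrib]
    exact Finset.sum_congr rfl fun j _ => by simp only [A2, Matrix.cons_val]; ring
  have e4 : ∑ j ∈ S, A2 4 j * x j = sm L2 x + x 1 - x 2 := by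
    rw [← h1, ← h2, ← hL2, ← Finset.sum_add_distrib, ← Finset.sum_sub_distrib]
    exact Finset.sum_congr rfl fun j _ => by simp only [A2, Matrix.cons_val]; ring
  have e5 : ∑ j ∈ S, A2 5 j * x j = sw L1 x + sw L2 x - 2 * x 1 + x 2 := by
    rw [← h1, ← h2, ← ht, Finset.mul_sum, ← Finset.sum_sub_distrib, ← Finset.sum_add_distrib]
    exact Finset.sum_congr rfl fun j _ => by simp only [A2, Matrix.cons_val]; ring
  refine and_congr_right fun _ => ?_
  constructor
  · rintro ⟨g0, g1, g2, g3, g4, g5, -⟩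
    refine ⟨⟨?_, ?_, ?_⟩, ?_, ?_, ?_⟩
    · rw [← e0]; exact g0
    · rw [← e1]; exact g1
    · rw [← e2]; exact g2
    · rw [← e3]; exact g3
    · rw [← e4]; exact g4
    · rw [← e5]; exact g5
  · rintro ⟨⟨g0, g1, g2⟩, g3, g4, g5⟩
    refine ⟨?_, ?_, ?_, ?_, ?_, ?_, fun i => i.elim0⟩
    · rw [← e0] at g0; exact g0
    · rw [← e1] at g1; exact g1
    · rw [← e2] at g2; exact g2
    · rw [← e3] at g3; exact g3
    · rw [← e4] at g4; exact g4
    · rw [← e5] at g5; exact g5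

/-! ### affine functions on the first five labels -/

theorem Aff.formula {x : ℕ → ℚ} (h : Aff x) : ∀ j ∈ E1, x j = (2 * x 1 - x 2) + (x 2 - x 1) * j := by
  obtain ⟨h1, h2, h3⟩ := h
  intro j hj
  rw [mem_E1] at hj
  obtain ⟨a, b⟩ := hj
  interval_cases j <;> push_cast <;> linarith

theorem Aff.zero {x : ℕ → ℚ} (h : Aff x) {a b : ℕ} (ha : a ∈ E1) (hb : b ∈ E1) (hab : a ≠ b)
    (h1 : x a = 0) (h2 : x b = 0) : ∀ j ∈ E1, x j = 0 := by
  have ea := h.formula a ha
  have eb := h.formula b hb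
  have hne : (a : ℚ) - b ≠ 0 := by
    rw [sub_ne_zero]; exact_mod_cast hab
  have : (x 2 - x 1) * ((a : ℚ) - b) = 0 := by linear_combination (-1 : ℚ) * ea + eb + h1 - h2
  have h3 : x 2 - x 1 = 0 := (mul_eq_zero.1 this).resolve_right hne
  have h4 : 2 * x 1 - x 2 = 0 := by rw [h3] at ea; linarith
  intro j hj
  rw [h.formula j hj, h3, h4]; ring

theorem Aff.coeffs {x : ℕ → ℚ} (h : ∀ j ∈ E1, x j = 0) : x 1 = 0 ∧ x 2 = 0 ∧ x 3 = 0 ∧
    x 4 = 0 ∧ x 5 = 0 :=
  ⟨h 1 (by decide), h 2 (by decide), h 3 (by decide), h 4 (by decide), h 5 (by decide)⟩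

theorem two_others (z z' : ℕ) :
    ∃ a ∈ E1, ∃ b ∈ E1, a ≠ b ∧ a ≠ z ∧ a ≠ z' ∧ b ≠ z ∧ b ≠ z' := by
  have h : 1 < ((E1.erase z).erase z').card := by
    have h1 := Finset.pred_card_le_card_erase (s := E1) (a := z)
    have h2 := Finset.pred_card_le_card_erase (s := E1.erase z) (a := z')
    have h3 : E1.card = 5 := by decide
    omega
  obtain ⟨a, ha, b, hb, hab⟩ := Finset.one_lt_card.1 h
  simp only [Finset.mem_erase] at ha hb
  exact ⟨a, ha.2.2, b, hb.2.2, hab, ha.2.1, ha.1, hb.2.1, hb.1⟩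

theorem tt_L1 {j : ℕ} (h : j ∈ L1) : tt j = (j : ℚ) - 10 := by simp [tt, h]
theorem tt_L2 {j : ℕ} (h : j ∈ L2) : tt j = (j : ℚ) - 20 := by
  have : j ∉ L1 := fun h' => disj12 h' h
  simp [tt, h, this]

theorem tt_pos {j : ℕ} (h : j ∈ L1 ∨ j ∈ L2) : 0 < tt j := by
  rcases h with h | h
  · rw [tt_L1 h]
    have : (11 : ℚ) ≤ j := by exact_mod_cast (mem_L1.1 h).1
    linarith
  · rw [tt_L2 h]
    have : (21 : ℚ) ≤ j := by exact_mod_cast (mem_L2.1 h).1
    linarith

/-- a line of the example: either `L1` or `L2` -/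
def IsLine (L : Finset ℕ) : Prop := L = L1 ∨ L = L2

theorem IsLine.inj {L : Finset ℕ} (hL : IsLine L) {a b : ℕ} (ha : a ∈ L) (hb : b ∈ L)
    (hab : a ≠ b) : tt a - tt b ≠ 0 := by
  have : (a : ℚ) - b ≠ 0 := by rw [sub_ne_zero]; exact_mod_cast hab
  rcases hL with rfl | rfl
  · rw [tt_L1 ha, tt_L1 hb]; intro h; apply this; linarith
  · rw [tt_L2 ha, tt_L2 hb]; intro h; apply this; linarith

/-- a vector with at most two nonzero entries on a line is determined by its two moments -/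
theorem IsLine.zero {L : Finset ℕ} (hL : IsLine L) {x : ℕ → ℚ} {J : Finset ℕ} (hJ : J ⊆ L)
    (hc : J.card ≤ 2) (hx : ∀ j ∈ L, j ∉ J → x j = 0) (h1 : sm L x = 0) (h2 : sw L x = 0) :
    ∀ j ∈ L, x j = 0 := by
  rw [sm_apply, ← Finset.sum_subset hJ hx] at h1
  rw [sw_apply, ← Finset.sum_subset hJ (fun j hj hj' => by rw [hx j hj hj', mul_zero])] at h2
  have hJ0 : ∀ j ∈ J, x j = 0 := by
    rcases Nat.lt_or_ge J.card 2 with h | h
    · intro j hj
      have hJj : J = {j} := by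
        apply Finset.eq_singleton_iff_unique_mem.2
        exact ⟨hj, fun k hk => Finset.card_le_one.1 (by omega) k hk j hj⟩
      rw [hJj, Finset.sum_singleton] at h1
      exact h1
    · obtain ⟨a, b, hab, rfl⟩ := Finset.card_eq_two.1 (le_antisymm hc h)
      rw [Finset.sum_pair hab] at h1 h2
      have hne := hL.inj (hJ (by simp)) (hJ (by simp)) hab
      have hxa : x a = 0 := by
        have : (tt a - tt b) * x a = 0 := by linear_combination h2 - tt b * h1
        exact (mul_eq_zero.1 this).resolve_left hne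
      have hxb : x b = 0 := by rw [hxa] at h1; linarith
      intro j hj
      simp only [Finset.mem_insert, Finset.mem_singleton] at hj
      rcases hj with rfl | rfl <;> assumption
  intro j hj
  by_cases hj' : j ∈ J
  · exact hJ0 j hj'
  · exact hx j hj hj'

theorem IsLine.zero_one {L : Finset ℕ} {x : ℕ → ℚ} {J : Finset ℕ} (hJ : J ⊆ L)
    (hc : J.card ≤ 1) (hx : ∀ j ∈ L, j ∉ J → x j = 0) (h1 : sm L x = 0) :
    ∀ j ∈ L, x j = 0 := by
  rw [sm_apply, ← Finset.sum_subset hJ hx] at h1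
  have hJ0 : ∀ j ∈ J, x j = 0 := by
    intro j hj
    have hJj : J = {j} := by
      apply Finset.eq_singleton_iff_unique_mem.2
      exact ⟨hj, fun k hk => Finset.card_le_one.1 (by omega) k hk j hj⟩
    rw [hJj, Finset.sum_singleton] at h1
    exact h1
  intro j hj
  by_cases hj' : j ∈ J
  · exact hJ0 j hj'
  · exact hx j hj hj'

theorem card_split {I : Finset ℕ} (hI : I ⊆ S) :
    I.card = (I ∩ E1).card + (I ∩ L1).card + (I ∩ L2).card := by
  have h1 : I = (I ∩ E1) ∪ (I ∩ L1) ∪ (I ∩ L2) := by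
    ext j
    simp only [Finset.mem_union, Finset.mem_inter]
    constructor
    · intro hj
      have := mem_S.1 (hI hj)
      tauto
    · tauto
  have d1 : Disjoint (I ∩ E1) (I ∩ L1) := Finset.disjoint_left.2 fun j h h' =>
    (disjE1 (Finset.mem_inter.1 h).2).1 (Finset.mem_inter.1 h').2
  have d2 : Disjoint ((I ∩ E1) ∪ (I ∩ L1)) (I ∩ L2) := Finset.disjoint_left.2 fun j h h' => by
    rcases Finset.mem_union.1 h with h | h
    · exact (disjE1 (Finset.mem_inter.1 h).2).2 (Finset.mem_inter.1 h').2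
    · exact disj12 (Finset.mem_inter.1 h).2 (Finset.mem_inter.1 h').2
  conv_lhs => rw [h1]
  rw [Finset.card_union_of_disjoint d2, Finset.card_union_of_disjoint d1]

/-- the combinatorial independence condition -/
def Cond (I : Finset ℕ) : Prop :=
  (I ∩ L1).card ≤ 2 ∧ (I ∩ L2).card ≤ 2 ∧ (I ∩ L1).card + (I ∩ L2).card ≤ 3 ∧ I.card ≤ 6

theorem zero_of_parts {x : ℕ → ℚ} (h : ∀ j ∉ S, x j = 0) (h0 : ∀ j ∈ E1, x j = 0)
    (h1 : ∀ j ∈ L1, x j = 0) (h2 : ∀ j ∈ L2, x j = 0) : x = 0 := by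
  funext j
  by_cases hj : j ∈ S
  · rcases mem_S.1 hj with h' | h' | h'
    · exact h0 j h'
    · exact h1 j h'
    · exact h2 j h'
  · exact h j hj

/-- common part of the two independence proofs: the case of a vector vanishing on `E1` -/
theorem lines_zero {I : Finset ℕ} (hc : Cond I) {x : ℕ → ℚ} (hxI : ∀ j ∉ I, x j = 0)
    (h1 : sm L1 x = 0) (h2 : sm L2 x = 0) (h3 : sw L1 x + sw L2 x = 0) :
    (∀ j ∈ L1, x j = 0) ∧ (∀ j ∈ L2, x j = 0) := by
  obtain ⟨c1, c2, c3, _⟩ := hc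
  have hx1 : ∀ j ∈ L1, j ∉ I ∩ L1 → x j = 0 := fun j hj hj' =>
    hxI j fun h => hj' (Finset.mem_inter.2 ⟨h, hj⟩)
  have hx2 : ∀ j ∈ L2, j ∉ I ∩ L2 → x j = 0 := fun j hj hj' =>
    hxI j fun h => hj' (Finset.mem_inter.2 ⟨h, hj⟩)
  have hs : (∀ j ∈ L1, x j = 0) → sw L1 x = 0 := fun h => by
    rw [sw_apply]; exact Finset.sum_eq_zero fun j hj => by rw [h j hj, mul_zero]
  have hs2 : (∀ j ∈ L2, x j = 0) → sw L2 x = 0 := fun h => by
    rw [sw_apply]; exact Finset.sum_eq_zero fun j hj => by rw [h j hj, mul_zero]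
  rcases Nat.lt_or_ge (I ∩ L1).card 2 with h | h
  · have z1 := IsLine.zero_one Finset.inter_subset_right (by omega) hx1 h1
    have : sw L2 x = 0 := by rw [hs z1] at h3; linarith
    exact ⟨z1, IsLine.zero (Or.inr rfl) Finset.inter_subset_right c2 hx2 h2 this⟩
  · have z2 := IsLine.zero_one Finset.inter_subset_right (by omega) hx2 h2
    have : sw L1 x = 0 := by rw [hs2 z2] at h3; linarith
    exact ⟨IsLine.zero (Or.inl rfl) Finset.inter_subset_right c1 hx1 h1 this, z2⟩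

theorem four_of_ne {I : Finset ℕ} {x : ℕ → ℚ} (hxI : ∀ j ∉ I, x j = 0) (hA : Aff x)
    (hne : ∃ j ∈ E1, x j ≠ 0) : 4 ≤ (I ∩ E1).card := by
  by_contra hlt
  have h5 : E1.card = 5 := by decide
  have h1 : 1 < (E1 \ I).card := by
    have := Finset.card_sdiff_add_card_inter E1 I
    rw [Finset.inter_comm] at this
    omega
  obtain ⟨a, ha, b, hb, hab⟩ := Finset.one_lt_card.1 h1
  rw [Finset.mem_sdiff] at ha hb
  obtain ⟨j, hj, hj'⟩ := hne
  exact hj' (hA.zero ha.1 hb.1 hab (hxI a ha.2) (hxI b hb.2) j hj)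

theorem exists_zero {I : Finset ℕ} {x : ℕ → ℚ} (hxI : ∀ j ∉ I, x j = 0)
    (h : (I ∩ E1).card ≤ 4) : ∃ k ∈ E1, x k = 0 := by
  have h5 : E1.card = 5 := by decide
  have h1 : 0 < (E1 \ I).card := by
    have := Finset.card_sdiff_add_card_inter E1 I
    rw [Finset.inter_comm] at this
    omega
  obtain ⟨a, ha⟩ := Finset.card_pos.1 h1
  rw [Finset.mem_sdiff] at ha
  exact ⟨a, ha.1, hxI a ha.2⟩

theorem sum_empty {I L : Finset ℕ} {x : ℕ → ℚ} (hxI : ∀ j ∉ I, x j = 0)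
    (h : (I ∩ L).card = 0) : (∀ j ∈ L, x j = 0) ∧ sm L x = 0 ∧ sw L x = 0 := by
  have h0 : ∀ j ∈ L, x j = 0 := by
    intro j hj
    refine hxI j fun hjI => ?_
    have : j ∈ I ∩ L := Finset.mem_inter.2 ⟨hjI, hj⟩
    rw [Finset.card_eq_zero.1 h] at this
    exact absurd this (Finset.notMem_empty j)
  refine ⟨h0, ?_, ?_⟩
  · rw [sm_apply]; exact Finset.sum_eq_zero h0
  · rw [sw_apply]; exact Finset.sum_eq_zero fun j hj => by rw [h0 j hj, mul_zero]

theorem sum_one {I L : Finset ℕ} {x : ℕ → ℚ} (hxI : ∀ j ∉ I, x j = 0)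
    (h : (I ∩ L).card = 1) : ∃ p ∈ L, sm L x = x p ∧ sw L x = tt p * x p := by
  obtain ⟨p, hp⟩ := Finset.card_eq_one.1 h
  have hpL : p ∈ I ∩ L := by rw [hp]; simp
  have hsub : ({p} : Finset ℕ) ⊆ L := by
    rw [← hp]; exact Finset.inter_subset_right
  have h0 : ∀ j ∈ L, j ∉ ({p} : Finset ℕ) → x j = 0 := by
    intro j hj hj'
    refine hxI j fun hjI => hj' ?_
    rw [← hp]; exact Finset.mem_inter.2 ⟨hjI, hj⟩
  refine ⟨p, (Finset.mem_inter.1 hpL).2, ?_, ?_⟩
  · rw [sm_apply, ← Finset.sum_subset hsub h0, Finset.sum_singleton]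
  · rw [sw_apply, ← Finset.sum_subset hsub (fun j hj hj' => by rw [h0 j hj hj', mul_zero]),
      Finset.sum_singleton]

theorem indep1 {I : Finset ℕ} (hI : I ⊆ S) (hc : Cond I) {x : ℕ → ℚ} (hx : x ∈ Ker A1 S)
    (hxI : ∀ j ∉ I, x j = 0) : x = 0 := by
  obtain ⟨hS, hA, g3, g4, g5⟩ := mem_K1.1 hx
  by_cases hE : ∀ j ∈ E1, x j = 0
  · obtain ⟨e1, e2, -, -, -⟩ := Aff.coeffs hE
    obtain ⟨z1, z2⟩ := lines_zero hc hxI (by linarith) (by linarith) g5
    exact zero_of_parts hS hE z1 z2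
  · exfalso
    push Not at hE
    have h4 := four_of_ne hxI hA hE
    have hcard := card_split hI
    obtain ⟨c1, c2, c3, c4⟩ := hc
    have hf := hA.formula
    obtain ⟨j0, hj0, hj0'⟩ := hE
    rcases Nat.eq_zero_or_pos (I ∩ L1).card with h1 | h1
    · obtain ⟨-, u1, u2⟩ := sum_empty hxI h1
      -- β = 0
      have hβ : x 2 - x 1 = 0 := by linarith
      have hα : 2 * x 1 - x 2 ≠ 0 := by
        intro h; apply hj0'; rw [hf j0 hj0, h, hβ]; ring
      have h5 : ¬ (I ∩ E1).card ≤ 4 := by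
        intro h
        obtain ⟨k, hk, hk0⟩ := exists_zero hxI h
        rw [hf k hk, hβ] at hk0
        exact hα (by linarith)
      rcases Nat.eq_zero_or_pos (I ∩ L2).card with h2 | h2
      · obtain ⟨-, v1, v2⟩ := sum_empty hxI h2
        exact hα (by linarith)
      · obtain ⟨p, hp, v1, v2⟩ := sum_one (L := L2) hxI (by omega)
        have hp0 := tt_pos (Or.inr hp)
        have hxp : x p ≠ 0 := by
          intro h; apply hα; rw [v1, h] at g4; linarith
        rw [u2, v2, zero_add] at g5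
        exact (mul_ne_zero hp0.ne' hxp) g5
    · rcases Nat.eq_zero_or_pos (I ∩ L2).card with h2 | h2
      · obtain ⟨-, v1, v2⟩ := sum_empty hxI h2
        have hα : 2 * x 1 - x 2 = 0 := by linarith
        have hβ : x 2 - x 1 ≠ 0 := by
          intro h; apply hj0'; rw [hf j0 hj0, h, hα]; ring
        have h5 : ¬ (I ∩ E1).card ≤ 4 := by
          intro h
          obtain ⟨k, hk, hk0⟩ := exists_zero hxI h
          rw [hf k hk, hα, zero_add] at hk0
          have : (k : ℚ) ≠ 0 := by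
            have := (mem_E1.1 hk).1
            exact_mod_cast (by omega : k ≠ 0)
          exact (mul_ne_zero hβ this) hk0
        obtain ⟨p, hp, u1, u2⟩ := sum_one (L := L1) hxI (by omega)
        have hp0 := tt_pos (Or.inl hp)
        have hxp : x p ≠ 0 := by
          intro h; apply hβ; rw [u1, h] at g3; linarith
        rw [u2, v2, add_zero] at g5
        exact (mul_ne_zero hp0.ne' hxp) g5
      · obtain ⟨p, hp, u1, u2⟩ := sum_one (L := L1) hxI (by omega)
        obtain ⟨q, hq, v1, v2⟩ := sum_one (L := L2) hxI (by omega)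
        obtain ⟨k, hk, hk0⟩ := exists_zero hxI (I := I) (by omega)
        have hp0 := tt_pos (Or.inl hp)
        have hq0 := tt_pos (Or.inr hq)
        rw [hf k hk] at hk0
        have hkpos : (0 : ℚ) < k := by
          have := (mem_E1.1 hk).1
          exact_mod_cast (by omega : 0 < k)
        rw [u1] at g3
        rw [v1] at g4
        rw [u2, v2] at g5
        have hxp : x p = x 2 - x 1 := by linarith
        have hxq : x q = (x 2 - x 1) * k := by linarith
        have : (x 2 - x 1) * (tt p + tt q * k) = 0 := by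
          rw [hxp, hxq] at g5; linear_combination g5
        have hpos : tt p + tt q * k ≠ 0 := by positivity
        have hβ : x 2 - x 1 = 0 := (mul_eq_zero.1 this).resolve_right hpos
        have hα : 2 * x 1 - x 2 = 0 := by rw [hβ] at hk0; linarith
        apply hj0'
        rw [hf j0 hj0, hα, hβ]; ring

theorem indep2 {I : Finset ℕ} (hI : I ⊆ S) (hc : Cond I) {x : ℕ → ℚ} (hx : x ∈ Ker A2 S)
    (hxI : ∀ j ∉ I, x j = 0) : x = 0 := by
  obtain ⟨hS, hA, g3, g4, g5⟩ := mem_K2.1 hx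
  by_cases hE : ∀ j ∈ E1, x j = 0
  · obtain ⟨e1, e2, -, -, -⟩ := Aff.coeffs hE
    obtain ⟨z1, z2⟩ := lines_zero hc hxI (by linarith) (by linarith) (by linarith)
    exact zero_of_parts hS hE z1 z2
  · exfalso
    push Not at hE
    have h4 := four_of_ne hxI hA hE
    have hcard := card_split hI
    obtain ⟨c1, c2, c3, c4⟩ := hc
    have hf := hA.formula
    obtain ⟨j0, hj0, hj0'⟩ := hE
    by_cases h12 : (I ∩ L1).card = 0 ∨ (I ∩ L2).card = 0
    · -- β = 0
      have hβ : x 2 - x 1 = 0 := by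
        rcases h12 with h | h
        · obtain ⟨-, u1, u2⟩ := sum_empty hxI h
          linarith
        · obtain ⟨-, u1, u2⟩ := sum_empty hxI h
          linarith
      have hα : 2 * x 1 - x 2 ≠ 0 := by
        intro h; apply hj0'; rw [hf j0 hj0, h, hβ]; ring
      have h5 : ¬ (I ∩ E1).card ≤ 4 := by
        intro h
        obtain ⟨k, hk, hk0⟩ := exists_zero hxI h
        rw [hf k hk, hβ] at hk0
        exact hα (by linarith)
      have hs : ∀ L : Finset ℕ, (I ∩ L).card ≤ 1 → sm L x = 0 → sw L x = 0 := by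
        intro L hL h
        rcases Nat.eq_zero_or_pos (I ∩ L).card with h1 | h1
        · exact (sum_empty hxI h1).2.2
        · obtain ⟨p, hp, u1, u2⟩ := sum_one (L := L) hxI (by omega)
          rw [u2, ← u1, h, mul_zero]
      have u2 := hs L1 (by omega) (by linarith)
      have v2 := hs L2 (by omega) (by linarith)
      exact hα (by linarith)
    · push Not at h12
      obtain ⟨p, hp, u1, u2⟩ := sum_one (L := L1) hxI (by omega)
      obtain ⟨q, hq, v1, v2⟩ := sum_one (L := L2) hxI (by omega)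
      obtain ⟨k, hk, hk0⟩ := exists_zero hxI (I := I) (by omega)
      have hp0 := tt_pos (Or.inl hp)
      have hq0 := tt_pos (Or.inr hq)
      rw [hf k hk] at hk0
      have hkpos : (0 : ℚ) < k := by
        have := (mem_E1.1 hk).1
        exact_mod_cast (by omega : 0 < k)
      rw [u1] at g3
      rw [v1] at g4
      rw [u2, v2] at g5
      have hxp : x p = x 2 - x 1 := by linarith
      have hxq : x q = x 2 - x 1 := by linarith
      have : (x 2 - x 1) * (tt p + tt q + k) = 0 := by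
        rw [hxp, hxq] at g5; linear_combination g5 + hk0
      have hpos : tt p + tt q + k ≠ 0 := by positivity
      have hβ : x 2 - x 1 = 0 := (mul_eq_zero.1 this).resolve_right hpos
      have hα : 2 * x 1 - x 2 = 0 := by rw [hβ] at hk0; linarith
      apply hj0'
      rw [hf j0 hj0, hα, hβ]; ring

/-! ### existence of supported solutions -/

theorem exists_supported (L : Finset ℕ) {n : ℕ} (hn : n < L.card)
    (T : Fin n → ((ℕ → ℚ) →ₗ[ℚ] ℚ)) :
    ∃ x : ℕ → ℚ, x ≠ 0 ∧ (∀ j ∉ L, x j = 0) ∧ ∀ i, T i x = 0 := by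
  classical
  let ext : (L → ℚ) →ₗ[ℚ] (ℕ → ℚ) :=
    { toFun := fun y j => if h : j ∈ L then y ⟨j, h⟩ else 0
      map_add' := by
        intro y z; funext j
        by_cases h : j ∈ L <;> simp [h]
      map_smul' := by
        intro c y; funext j
        by_cases h : j ∈ L <;> simp [h] }
  let F : (L → ℚ) →ₗ[ℚ] (Fin n → ℚ) := (LinearMap.pi T) ∘ₗ ext
  have hfr : Module.finrank ℚ (Fin n → ℚ) < Module.finrank ℚ (L → ℚ) := by
    simp [hn]
  obtain ⟨y, hy, hy0⟩ := (Submodule.ne_bot_iff _).1 (LinearMap.ker_ne_bot_of_finrank_lt (f := F) hfr)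
  refine ⟨ext y, ?_, ?_, ?_⟩
  · intro h
    apply hy0
    funext ⟨j, hj⟩
    have := congrFun h j
    simpa [ext, hj] using this
  · intro j hj
    simp [ext, hj]
  · intro i
    have : F y = 0 := hy
    exact congrFun this i

end Pool.Agent.R880.CD
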