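import Pool.Agent.R880.CD.Basic

set_option autoImplicit false

/-!
# Matrices of small depth and simple dependency spaces
-/

namespace Pool.Agent.R880.CD

open Set

variable {𝔽 : Type} [Field 𝔽]

/-- a dependency space all of whose blocks are circuits or parallel classes -/
def Simple (K : Submodule 𝔽 (ℕ → 𝔽)) (E : Finset ℕ) : Prop :=
  ∀ s ∈ E, ∃ Z : Set ℕ, s ∈ Z ∧ Z ⊆ E ∧ (∀ x ∈ K, ind Z x ∈ K) ∧
    ((∀ x ∈ K, ∀ y ∈ K, (∀ j ∉ Z, x j = 0) → (∀ j ∉ Z, y j = 0) → x ≠ 0 → ∃ c : 𝔽, y = c • x) ∨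
     (∀ z ∈ Z, ∀ z' ∈ Z, z ≠ z' →
        ∃ x ∈ K, (∀ j, j ≠ z → j ≠ z' → x j = 0) ∧ x z ≠ 0 ∧ x z' ≠ 0))

theorem single_case {s : ℕ} {Z : Set ℕ} (hZ : ∀ z ∈ Z, z = s) {x y : ℕ → 𝔽}
    (hx : ∀ j ∉ Z, x j = 0) (hy : ∀ j ∉ Z, y j = 0) (hne : x ≠ 0) : ∃ c : 𝔽, y = c • x := by
  have hxs : x s ≠ 0 := by
    intro h
    apply hne
    funext j
    by_cases hj : j ∈ Z
    · rw [hZ j hj, h]; rfl
    · exact hx j hj
  refine ⟨y s / x s, ?_⟩
  funext j
  by_cases hj : j ∈ Z
  · rw [hZ j hj]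
    simp [hxs]
  · simp [hx j hj, hy j hj]

theorem simple_of_depth {m : ℕ} {A : Matrix (Fin m) ℕ 𝔽} {Y : Finset ℕ}
    (h : MatrixDepthLE 2 m A Y) : Simple (Ker A Y) Y := by
  classical
  intro s hs
  obtain ⟨Z, hZ, hsZ⟩ := exists_component (M := colMatroid A Y) (s := s) (by simpa using hs)
  have hZY : Z ⊆ (Y : Set ℕ) := hZ.1.1
  obtain ⟨Zf, rfl⟩ : ∃ J : Finset ℕ, (J : Set ℕ) = Z :=
    ⟨(Y.finite_toSet.subset hZY).toFinset, by simp⟩
  have hZfY : Zf ⊆ Y := by exact_mod_cast hZY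
  refine ⟨Zf, hsZ, hZY, comp_split hZ, ?_⟩
  by_cases hcard : Zf.card ≤ 1
  · left
    intro x _ y _ hx hy hne
    exact single_case (s := s) (fun z hz => by
      exact Finset.card_le_one.1 hcard z (by exact_mod_cast hz) s (by exact_mod_cast hsZ))
      hx hy hne
  obtain ⟨m', A', hstep, -, hd⟩ := (h Zf hZ).resolve_left hcard
  have hadj := hstep.adj Zf
  -- all components of `A'` are single
  have hsing : ∀ z ∈ Zf, ∀ x ∈ Ker A' Zf, ind {z} x ∈ Ker A' Zf := by
    intro z hz x hx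
    obtain ⟨X, hX, hzX⟩ := exists_component (M := colMatroid A' Zf) (s := z) (by simpa using hz)
    obtain ⟨Xf, rfl⟩ : ∃ J : Finset ℕ, (J : Set ℕ) = X :=
      ⟨(Zf.finite_toSet.subset hX.1.1).toFinset, by simp⟩
    have hc : Xf.card ≤ 1 := by
      rcases hd Xf hX with h | ⟨_, _, _, _, h⟩
      · exact h
      · exact absurd h (by simp [MatrixDepthLE])
    have hXz : (Xf : Set ℕ) = {z} := by
      ext j
      constructor
      · intro hj
        exact Finset.card_le_one.1 hc j (by exact_mod_cast hj) z (by exact_mod_cast hzX)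
      · intro hj
        rw [hj]; exact hzX
    rw [← hXz]
    exact comp_split hX x hx
  -- for every element of `Zf` there is a circuit of `A` inside `Zf` with at least two elements
  have hcirc : ∀ z ∈ Zf, ∃ C, (colMatroid A Y).IsCircuit C ∧ z ∈ C ∧ C ⊆ Zf ∧
      ∃ z' ∈ C, z' ≠ z := by
    intro z hz
    obtain ⟨z', hz', hne⟩ : ∃ z' ∈ Zf, z' ≠ z := by
      by_contra hcon
      push Not at hcon
      apply hcard
      rw [Finset.card_le_one]
      intro a ha b hb
      rw [hcon a ha, hcon b hb]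
    obtain ⟨C, hC, h1, h2⟩ := hZ.1.2 z (by exact_mod_cast hz) z' (by exact_mod_cast hz') hne.symm
    exact ⟨C, hC, h1, circuit_subset_component hZ hC ⟨z, h1, by exact_mod_cast hz⟩, z', h2, hne⟩
  have hnoloop : ∀ z ∈ Zf, ∀ x ∈ Ker A Zf, (∀ j, j ≠ z → x j = 0) → x = 0 := by
    intro z hz x hx hx0
    obtain ⟨C, hC, hzC, -, z', hz', hne⟩ := hcirc z hz
    have hss : ({z} : Set ℕ) ⊂ C := by
      refine ⟨by simpa using hzC, fun h => hne ?_⟩
      exact h hz'
    have hind := hC.ssubset_indep hss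
    rw [indep_iff] at hind
    exact hind.2 x ((mem_Ker_sub hZfY).1 hx).1 fun j hj => hx0 j (by simpa using hj)
  have hnocoloop : ∀ z ∈ Zf, ∃ x ∈ Ker A Zf, x z ≠ 0 := by
    intro z hz
    obtain ⟨C, hC, hzC, hCZ, -⟩ := hcirc z hz
    obtain ⟨u, hu, huC⟩ := exists_of_isCircuit hC
    refine ⟨u, (mem_Ker_sub hZfY).2 ⟨hu, fun j hj => ?_⟩, (huC z).2 hzC⟩
    by_contra h
    exact hj (by exact_mod_cast hCZ ((huC j).1 h))
  obtain ⟨φ, hφ | hφ⟩ := hadj
  · -- Ker A Zf = Ker A' Zf ⊓ ker φ : parallel class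
    right
    have hδ : ∀ z ∈ Zf, (Pi.single z (1 : 𝔽) : ℕ → 𝔽) ∈ Ker A' Zf := by
      intro z hz
      obtain ⟨x, hx, hxz⟩ := hnocoloop z hz
      have hx' : x ∈ Ker A' Zf := by rw [hφ] at hx; exact hx.1
      have h1 := Submodule.smul_mem _ (x z)⁻¹ (hsing z hz x hx')
      have h2 : (x z)⁻¹ • ind {z} x = Pi.single z (1 : 𝔽) := by
        funext j
        by_cases hj : j = z
        · subst hj
          simp [ind_apply, hxz]
        · simp [ind_apply, hj]
      rwa [h2] at h1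
    have hφδ : ∀ z ∈ Zf, φ (Pi.single z (1 : 𝔽)) ≠ 0 := by
      intro z hz h0
      have h1 : (Pi.single z (1 : 𝔽) : ℕ → 𝔽) ∈ Ker A Zf := by
        rw [hφ]
        exact ⟨hδ z hz, h0⟩
      have h2 := hnoloop z hz _ h1 (fun j hj => by simp [hj])
      have := congrFun h2 z
      simp at this
    intro z hz z' hz' hne
    have hz1 : z ∈ Zf := by exact_mod_cast hz
    have hz1' : z' ∈ Zf := by exact_mod_cast hz'
    refine ⟨φ (Pi.single z' (1 : 𝔽)) • Pi.single z (1 : 𝔽) -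
      φ (Pi.single z (1 : 𝔽)) • Pi.single z' (1 : 𝔽), ?_, ?_, ?_, ?_⟩
    · refine ((mem_Ker_sub hZfY).1 (?_ : _ ∈ Ker A Zf)).1
      rw [hφ]
      refine ⟨Submodule.sub_mem _ (Submodule.smul_mem _ _ (hδ z hz1))
        (Submodule.smul_mem _ _ (hδ z' hz1')), ?_⟩
      change φ _ = 0
      rw [map_sub, map_smul, map_smul, smul_eq_mul, smul_eq_mul, mul_comm, sub_self]
    · intro j h1 h2
      simp [h1, h2]
    · simp [hne, hφδ z' hz1']
    · simp [hne.symm, hφδ z hz1]
  · -- Ker A' Zf = Ker A Zf ⊓ ker φ : circuit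
    left
    have hzero : ∀ x ∈ Ker A' Zf, x = 0 := by
      intro x hx
      funext j
      by_cases hj : j ∈ Zf
      · have h1 := hsing j hj x hx
        rw [hφ] at h1
        have h2 := hnoloop j hj _ h1.1 (fun i hi => ind_notMem (by simpa using hi))
        have := congrFun h2 j
        rwa [ind_mem (by simp)] at this
      · exact hx.1 j hj
    intro x hx y hy hx0 hy0 hne
    have hx' : x ∈ Ker A Zf := (mem_Ker_sub hZfY).2 ⟨hx, fun j hj => hx0 j (by simpa using hj)⟩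
    have hy' : y ∈ Ker A Zf := (mem_Ker_sub hZfY).2 ⟨hy, fun j hj => hy0 j (by simpa using hj)⟩
    have hφx : φ x ≠ 0 := by
      intro h0
      exact hne (hzero x (by rw [hφ]; exact ⟨hx', h0⟩))
    refine ⟨φ y / φ x, ?_⟩
    have : y - (φ y / φ x) • x ∈ Ker A' Zf := by
      rw [hφ]
      refine ⟨Submodule.sub_mem _ hy' (Submodule.smul_mem _ _ hx'), ?_⟩
      change φ _ = 0
      rw [map_sub, map_smul, smul_eq_mul, div_mul_cancel₀ _ hφx, sub_self]
    exact sub_eq_zero.1 (hzero _ this)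

/-- the vectors supported on `S` -/
def suppSub (S : Finset ℕ) : Submodule 𝔽 (ℕ → 𝔽) where
  carrier := {x | ∀ j ∉ S, x j = 0}
  add_mem' := fun hx hy j hj => by simp [hx j hj, hy j hj]
  zero_mem' := by simp
  smul_mem' := fun c x hx j hj => by simp [hx j hj]

theorem mem_suppSub {S : Finset ℕ} {x : ℕ → 𝔽} : x ∈ suppSub (𝔽 := 𝔽) S ↔ ∀ j ∉ S, x j = 0 :=
  Iff.rfl

theorem ind_ind {Z Y : Set ℕ} (h : Z ⊆ Y) (x : ℕ → 𝔽) : ind Y (ind Z x) = ind Z (ind Y x) := by
  funext j
  by_cases hZ : j ∈ Z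
  · rw [ind_mem (h hZ), ind_mem hZ, ind_mem hZ, ind_mem (h hZ)]
  · rw [ind_notMem hZ (x := ind Y x)]
    by_cases hY : j ∈ Y
    · rw [ind_mem hY, ind_notMem hZ]
    · exact ind_notMem hY

theorem ind_eq_self {Y : Set ℕ} {x : ℕ → 𝔽} (h : ∀ j ∉ Y, x j = 0) : ind Y x = x := by
  funext j
  by_cases hY : j ∈ Y
  · exact ind_mem hY
  · rw [ind_notMem hY, h j hY]

theorem ind_eq_zero {Y : Set ℕ} {x : ℕ → 𝔽} (h : ∀ j ∈ Y, x j = 0) : ind Y x = 0 := by
  funext j
  by_cases hY : j ∈ Y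
  · rw [ind_mem hY, h j hY]; rfl
  · exact ind_notMem hY

theorem ind_add_compl {S Y : Finset ℕ} (hY : Y ⊆ S) {x : ℕ → 𝔽} (hx : ∀ j ∉ S, x j = 0) :
    ind (Y : Set ℕ) x + ind ((S \ Y : Finset ℕ) : Set ℕ) x = x := by
  funext j
  rw [Pi.add_apply]
  by_cases hj : j ∈ Y
  · rw [ind_mem (by exact_mod_cast hj), ind_notMem (by simp [hj]), add_zero]
  · rw [ind_notMem (by exact_mod_cast hj), zero_add]
    by_cases hjS : j ∈ S
    · rw [ind_mem (by simp [hj, hjS])]
    · rw [ind_notMem (by simp [hjS]), hx j hjS]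

/-- from depth at most `3` to a simple space adjacent to the dependency space -/
theorem exists_simple {m : ℕ} {A : Matrix (Fin m) ℕ 𝔽} {S Y : Finset ℕ}
    (hd : MatrixDepthLE 3 m A S) (hY : IsComponent (colMatroid A S) Y) (h2 : 2 ≤ Y.card)
    (h1 : (S \ Y).card ≤ 1) :
    ∃ K : Submodule 𝔽 (ℕ → 𝔽), Adj (Ker A S) K ∧ Simple K S ∧ ∀ x ∈ K, ∀ j ∉ S, x j = 0 := by
  classical
  have hYS : Y ⊆ S := by exact_mod_cast hY.1.1
  obtain ⟨m', A', hstep, -, hd'⟩ := (hd Y hY).resolve_left (by omega)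
  have hsimp := simple_of_depth hd'
  have hadj := hstep.adj Y
  set T : Finset ℕ := S \ Y with hT
  have hTS : ∀ j, j ∈ T ↔ j ∈ S ∧ j ∉ Y := by simp [hT]
  have hsplit := comp_split hY
  obtain ⟨K, hKmem⟩ : ∃ K : Submodule 𝔽 (ℕ → 𝔽), ∀ x, x ∈ K ↔ ind (Y : Set ℕ) x ∈ Ker A' Y ∧
      ind (T : Set ℕ) x ∈ Ker A S ∧ ∀ j ∉ S, x j = 0 :=
    ⟨(Ker A' Y).comap (ind (Y : Set ℕ)) ⊓ ((Ker A S).comap (ind (T : Set ℕ)) ⊓ suppSub S),
      fun x => Iff.rfl⟩
  have hKY : ∀ x, x ∈ Ker A Y ↔ x ∈ Ker A S ∧ ∀ j ∉ Y, x j = 0 := fun x => mem_Ker_sub hYS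
  refine ⟨K, ?_, ?_, fun x hx => ((hKmem x).1 hx).2.2⟩
  · obtain ⟨φ, hφ | hφ⟩ := hadj
    · refine ⟨φ ∘ₗ ind (Y : Set ℕ), Or.inl ?_⟩
      ext x
      rw [Submodule.mem_inf, hKmem, LinearMap.mem_ker, LinearMap.comp_apply]
      constructor
      · intro hx
        have h3 : ind (Y : Set ℕ) x ∈ Ker A Y :=
          (hKY _).2 ⟨hsplit x hx, fun j hj => ind_notMem (by simpa using hj)⟩
        have h4 : ind (T : Set ℕ) x ∈ Ker A S := by
          have := ind_add_compl hYS hx.1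
          have h5 : ind (T : Set ℕ) x = x - ind (Y : Set ℕ) x := by
            rw [eq_sub_iff_add_eq, add_comm]; exact this
          rw [h5]
          exact Submodule.sub_mem _ hx (hsplit x hx)
        rw [hφ] at h3
        exact ⟨⟨h3.1, h4, hx.1⟩, h3.2⟩
      · rintro ⟨⟨h3, h4, h5⟩, h6⟩
        have h7 : ind (Y : Set ℕ) x ∈ Ker A Y := by
          rw [hφ]; exact ⟨h3, h6⟩
        rw [← ind_add_compl hYS h5]
        exact Submodule.add_mem _ ((hKY _).1 h7).1 h4
    · refine ⟨φ ∘ₗ ind (Y : Set ℕ), Or.inr ?_⟩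
      ext x
      rw [Submodule.mem_inf, hKmem, LinearMap.mem_ker, LinearMap.comp_apply]
      constructor
      · rintro ⟨h3, h4, h5⟩
        rw [hφ] at h3
        refine ⟨?_, h3.2⟩
        rw [← ind_add_compl hYS h5]
        exact Submodule.add_mem _ ((hKY _).1 h3.1).1 h4
      · rintro ⟨hx, h6⟩
        have h3 : ind (Y : Set ℕ) x ∈ Ker A Y :=
          (hKY _).2 ⟨hsplit x hx, fun j hj => ind_notMem (by simpa using hj)⟩
        have h4 : ind (T : Set ℕ) x ∈ Ker A S := by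
          have := ind_add_compl hYS hx.1
          have h5 : ind (T : Set ℕ) x = x - ind (Y : Set ℕ) x := by
            rw [eq_sub_iff_add_eq, add_comm]; exact this
          rw [h5]
          exact Submodule.sub_mem _ hx (hsplit x hx)
        refine ⟨?_, h4, hx.1⟩
        rw [hφ]
        exact ⟨h3, h6⟩
  · intro s hs
    by_cases hsY : s ∈ Y
    · obtain ⟨Z, hsZ, hZY, hZs, hZt⟩ := hsimp s hsY
      have hZT : ∀ z ∈ Z, z ∉ (T : Set ℕ) := by
        intro z hz hzT
        have : z ∈ T := by exact_mod_cast hzT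
        exact ((hTS z).1 this).2 (by exact_mod_cast hZY hz)
      have hin : ∀ x ∈ Ker A' Y, (∀ j ∉ Z, x j = 0) → x ∈ K := by
        intro x hx hxZ
        rw [hKmem]
        refine ⟨?_, ?_, fun j hj => hx.1 j fun h => hj (hYS h)⟩
        · rw [ind_eq_self (fun j hj => hx.1 j (by simpa using hj))]
          exact hx
        · rw [ind_eq_zero]
          · exact Submodule.zero_mem _
          · intro j hj
            exact hxZ j fun h => hZT j h hj
      have hout : ∀ x ∈ K, (∀ j ∉ Z, x j = 0) → x ∈ Ker A' Y := by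
        intro x hx hxZ
        have := ((hKmem x).1 hx).1
        rwa [ind_eq_self (fun j hj => hxZ j fun h => hj (hZY h))] at this
      refine ⟨Z, hsZ, hZY.trans (by exact_mod_cast hYS), ?_, ?_⟩
      · intro x hx
        have hx' := (hKmem x).1 hx
        have h3 := hZs _ hx'.1
        rw [← ind_ind hZY] at h3
        rw [hKmem]
        refine ⟨h3, ?_, ?_⟩
        · rw [ind_eq_zero]
          · exact Submodule.zero_mem _
          · intro j hj
            exact ind_notMem fun h => hZT j h hj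
        · intro j hj
          by_cases hjZ : j ∈ Z
          · exact absurd (hYS (by exact_mod_cast hZY hjZ)) hj
          · exact ind_notMem hjZ
      · rcases hZt with hZt | hZt
        · left
          intro x hx y hy hx0 hy0 hne
          exact hZt x (hout x hx hx0) y (hout y hy hy0) hx0 hy0 hne
        · right
          intro z hz z' hz' hne
          obtain ⟨x, hx, hx0, h3, h4⟩ := hZt z hz z' hz' hne
          refine ⟨x, hin x hx ?_, hx0, h3, h4⟩
          intro j hj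
          exact hx0 j (fun h => hj (h ▸ hz)) (fun h => hj (h ▸ hz'))
    · have hsT : s ∈ T := (hTS s).2 ⟨hs, hsY⟩
      refine ⟨(T : Set ℕ), by exact_mod_cast hsT, by
        intro j hj
        have : j ∈ T := by exact_mod_cast hj
        exact_mod_cast ((hTS j).1 this).1, ?_, ?_⟩
      · intro x hx
        have hx' := (hKmem x).1 hx
        rw [hKmem]
        refine ⟨?_, ?_, ?_⟩
        · rw [ind_eq_zero]
          · exact Submodule.zero_mem _
          · intro j hj
            refine ind_notMem fun h => ?_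
            have : j ∈ T := by exact_mod_cast h
            exact ((hTS j).1 this).2 (by exact_mod_cast hj)
        · rw [ind_eq_self (Y := (T : Set ℕ)) (fun j hj => ind_notMem hj)]
          exact hx'.2.1
        · intro j hj
          refine ind_notMem fun h => ?_
          have : j ∈ T := by exact_mod_cast h
          exact hj ((hTS j).1 this).1
      · left
        intro x _ y _ hx0 hy0 hne
        exact single_case (s := s) (fun z hz =>
          Finset.card_le_one.1 h1 z (by exact_mod_cast hz) s hsT) hx0 hy0 hne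

end Pool.Agent.R880.CD
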