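import Pool.Agent.R880.CD.Core20

set_option autoImplicit false

/-!
# The upper bound for the matroid
-/

namespace Pool.Agent.R880.CD

open Set
open scoped Matroid

/-! ### the two matrices have the same column matroid -/

noncomputable def F2 : Fin 6 → ((ℕ → ℚ) →ₗ[ℚ] ℚ) :=
  ![P 1 - (2 : ℚ) • P 2 + P 3, P 2 - (2 : ℚ) • P 3 + P 4, P 3 - (2 : ℚ) • P 4 + P 5,
    sm L1 + P 1 - P 2, sm L2 + P 1 - P 2, sw L1 + sw L2 - (2 : ℚ) • P 1 + P 2]

theorem mem_K2_of_F2 {x : ℕ → ℚ} (hx : ∀ j ∉ S, x j = 0) (h : ∀ i, F2 i x = 0) :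
    x ∈ Ker A2 S := by
  have h0 := h 0
  have h1 := h 1
  have h2 := h 2
  have h3 := h 3
  have h4 := h 4
  have h5 := h 5
  simp only [F2, Matrix.cons_val_zero, Matrix.cons_val_one, Matrix.cons_val,
    LinearMap.add_apply, LinearMap.sub_apply,
    LinearMap.smul_apply, P_apply, smul_eq_mul] at h0 h1 h2 h3 h4 h5
  exact mem_K2.2 ⟨hx, ⟨h0, h1, h2⟩, h3, h4, h5⟩

theorem sums_zero {L : Finset ℕ} {x : ℕ → ℚ} (h : ∀ j ∈ L, x j = 0) :
    sm L x = 0 ∧ sw L x = 0 := by
  rw [sm_apply, sw_apply]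
  exact ⟨Finset.sum_eq_zero h, Finset.sum_eq_zero fun j hj => by rw [h j hj, mul_zero]⟩

theorem dep_of_not_cond {A : Matrix (Fin 6) ℕ ℚ} {T : Fin 6 → ((ℕ → ℚ) →ₗ[ℚ] ℚ)}
    (hT : ∀ x : ℕ → ℚ, (∀ j ∉ S, x j = 0) → (∀ i, T i x = 0) → x ∈ Ker A S)
    (hl : ∀ x : ℕ → ℚ, (∀ j ∉ S, x j = 0) → (∀ j ∈ E1, x j = 0) → sm L1 x = 0 → sm L2 x = 0 →
      sw L1 x + sw L2 x = 0 → x ∈ Ker A S) {I : Finset ℕ} (hI : I ⊆ S) (hc : ¬ Cond I) :
    ∃ x ∈ Ker A S, x ≠ 0 ∧ ∀ j ∉ I, x j = 0 := by
  by_cases h1 : 2 < (I ∩ L1).card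
  · obtain ⟨x, hx0, hxs, hx⟩ := exists_supported _ h1 ![sm L1, sw L1]
    have hxI : ∀ j ∉ I, x j = 0 := fun j hj => hxs j fun h => hj (Finset.mem_inter.1 h).1
    have g1 : sm L1 x = 0 := hx 0
    have g2 : sw L1 x = 0 := hx 1
    obtain ⟨g3, g4⟩ := sums_zero (L := L2) (x := x) fun j hj =>
      hxs j fun h => disj12 (Finset.mem_inter.1 h).2 hj
    refine ⟨x, hl x (fun j hj => hxI j fun h => hj (hI h)) (fun j hj => hxs j fun h =>
      (disjE1 hj).1 (Finset.mem_inter.1 h).2) g1 g3 (by rw [g2, g4, add_zero]), hx0, hxI⟩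
  by_cases h2 : 2 < (I ∩ L2).card
  · obtain ⟨x, hx0, hxs, hx⟩ := exists_supported _ h2 ![sm L2, sw L2]
    have hxI : ∀ j ∉ I, x j = 0 := fun j hj => hxs j fun h => hj (Finset.mem_inter.1 h).1
    have g1 : sm L2 x = 0 := hx 0
    have g2 : sw L2 x = 0 := hx 1
    obtain ⟨g3, g4⟩ := sums_zero (L := L1) (x := x) fun j hj =>
      hxs j fun h => disj12 hj (Finset.mem_inter.1 h).2
    refine ⟨x, hl x (fun j hj => hxI j fun h => hj (hI h)) (fun j hj => hxs j fun h =>
      (disjE1 hj).2 (Finset.mem_inter.1 h).2) g3 g1 (by rw [g2, g4, add_zero]), hx0, hxI⟩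
  by_cases h3 : 3 < ((I ∩ L1) ∪ (I ∩ L2)).card
  · obtain ⟨x, hx0, hxs, hx⟩ := exists_supported _ h3 ![sm L1, sm L2, sw L1 + sw L2]
    have hxI : ∀ j ∉ I, x j = 0 := fun j hj => hxs j fun h => by
      rcases Finset.mem_union.1 h with h | h
      · exact hj (Finset.mem_inter.1 h).1
      · exact hj (Finset.mem_inter.1 h).1
    have g1 : sm L1 x = 0 := hx 0
    have g2 : sm L2 x = 0 := hx 1
    have g3 : sw L1 x + sw L2 x = 0 := hx 2
    refine ⟨x, hl x (fun j hj => hxI j fun h => hj (hI h)) (fun j hj => hxs j fun h => ?_)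
      g1 g2 g3, hx0, hxI⟩
    rcases Finset.mem_union.1 h with h | h
    · exact (disjE1 hj).1 (Finset.mem_inter.1 h).2
    · exact (disjE1 hj).2 (Finset.mem_inter.1 h).2
  by_cases h4 : 6 < I.card
  · obtain ⟨x, hx0, hxs, hx⟩ := exists_supported _ h4 T
    exact ⟨x, hT x (fun j hj => hxs j fun h => hj (hI h)) hx, hx0, hxs⟩
  exfalso
  rw [Finset.card_union_of_disjoint (Finset.disjoint_left.2 fun j hj hj' =>
    disj12 (Finset.mem_inter.1 hj).2 (Finset.mem_inter.1 hj').2)] at h3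
  exact hc ⟨by omega, by omega, by omega, by omega⟩

theorem indep_cond {A : Matrix (Fin 6) ℕ ℚ} {T : Fin 6 → ((ℕ → ℚ) →ₗ[ℚ] ℚ)}
    (hT : ∀ x : ℕ → ℚ, (∀ j ∉ S, x j = 0) → (∀ i, T i x = 0) → x ∈ Ker A S)
    (hl : ∀ x : ℕ → ℚ, (∀ j ∉ S, x j = 0) → (∀ j ∈ E1, x j = 0) → sm L1 x = 0 → sm L2 x = 0 →
      sw L1 x + sw L2 x = 0 → x ∈ Ker A S)
    (hi : ∀ I : Finset ℕ, I ⊆ S → Cond I → ∀ x ∈ Ker A S, (∀ j ∉ I, x j = 0) → x = 0)
    (I : Finset ℕ) : (colMatroid A S).Indep I ↔ I ⊆ S ∧ Cond I := by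
  rw [indep_iff]
  constructor
  · rintro ⟨h1, h2⟩
    have hI : I ⊆ S := by exact_mod_cast h1
    refine ⟨hI, by_contra fun hc => ?_⟩
    obtain ⟨x, hx, hx0, hxI⟩ := dep_of_not_cond hT hl hI hc
    exact hx0 (h2 x hx fun j hj => hxI j (by exact_mod_cast hj))
  · rintro ⟨h1, h2⟩
    exact ⟨by exact_mod_cast h1, fun x hx hxI => hi I h1 h2 x hx fun j hj =>
      hxI j (by exact_mod_cast hj)⟩

theorem indep_A1 (I : Finset ℕ) : (colMatroid A1 S).Indep I ↔ I ⊆ S ∧ Cond I := by
  refine indep_cond (T := F1) (fun x hx h => mem_K1_of_F1 hx h) ?_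
    (fun I hI hc x hx h => indep1 hI hc hx h) I
  intro x hS hE h1 h2 h3
  obtain ⟨e1, e2, e3, e4, e5⟩ := Aff.coeffs hE
  exact mem_K1.2 ⟨hS, ⟨by linarith, by linarith, by linarith⟩, by linarith, by linarith, h3⟩

theorem indep_A2 (I : Finset ℕ) : (colMatroid A2 S).Indep I ↔ I ⊆ S ∧ Cond I := by
  refine indep_cond (T := F2) (fun x hx h => mem_K2_of_F2 hx h) ?_
    (fun I hI hc x hx h => indep2 hI hc hx h) I
  intro x hS hE h1 h2 h3
  obtain ⟨e1, e2, e3, e4, e5⟩ := Aff.coeffs hE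
  exact mem_K2.2 ⟨hS, ⟨by linarith, by linarith, by linarith⟩, by linarith, by linarith,
    by linarith⟩

/-- the two matrices represent the same matroid -/
theorem same : colMatroid A1 S = colMatroid A2 S := by
  refine Matroid.ext_indep (by rw [colMatroid_E, colMatroid_E]) fun I hI => ?_
  obtain ⟨J, rfl⟩ : ∃ J : Finset ℕ, (J : Set ℕ) = I :=
    ⟨(S.finite_toSet.subset hI).toFinset, by simp⟩
  rw [indep_A1, indep_A2]

/-! ### `c*`- and `d*`-transformations of represented matroids -/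

variable {𝔽 : Type} [Field 𝔽]

/-- the matrix `B` with the column `n` replaced by the last unit vector -/
def extCol {m : ℕ} (B : Matrix (Fin (m + 1)) ℕ 𝔽) (n : ℕ) : Matrix (Fin (m + 1)) ℕ 𝔽 :=
  fun i j => if j = n then (if i = Fin.last m then 1 else 0) else B i j

/-- all rows but the last one -/
def initRows {m : ℕ} (B : Matrix (Fin (m + 1)) ℕ 𝔽) : Matrix (Fin m) ℕ 𝔽 :=
  fun i j => B i.castSucc j

theorem sum_extCol {m : ℕ} (B : Matrix (Fin (m + 1)) ℕ 𝔽) {n : ℕ} {E : Finset ℕ} (hn : n ∉ E)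
    (i : Fin (m + 1)) (x : ℕ → 𝔽) :
    ∑ j ∈ insert n E, extCol B n i j * x j =
      (if i = Fin.last m then x n else 0) + ∑ j ∈ E, B i j * x j := by
  rw [Finset.sum_insert hn]
  congr 1
  · by_cases h : i = Fin.last m <;> simp [extCol, h]
  · refine Finset.sum_congr rfl fun j hj => ?_
    have : j ≠ n := fun h => hn (h ▸ hj)
    simp [extCol, this]

theorem extCol_delete {m : ℕ} (B : Matrix (Fin (m + 1)) ℕ 𝔽) {n : ℕ} {E : Finset ℕ}
    (hn : n ∉ E) : (colMatroid (extCol B n) (insert n E)) ＼ {n} = colMatroid B E := by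
  have hg : ((insert n E : Finset ℕ) : Set ℕ) \ {n} = E := by
    rw [Finset.coe_insert]
    exact Set.insert_sdiff_self_of_notMem (by exact_mod_cast hn)
  refine Matroid.ext_indep hg fun I hI => ?_
  have hIE : I ⊆ E := by
    have : I ⊆ ((insert n E : Finset ℕ) : Set ℕ) \ {n} := hI
    rwa [hg] at this
  have hnI : n ∉ I := fun h => hn (by exact_mod_cast hIE h)
  rw [Matroid.delete_indep_iff, indep_iff, indep_iff]
  constructor
  · rintro ⟨⟨-, h⟩, -⟩
    refine ⟨hIE, fun x hx hxI => h x ⟨fun j hj => hx.1 j fun h' => hj (Finset.mem_insert_of_mem h'),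
      fun i => ?_⟩ hxI⟩
    rw [sum_extCol B hn, hx.2 i, hxI n hnI, ite_self, add_zero]
  · rintro ⟨-, h⟩
    refine ⟨⟨hIE.trans (by rw [Finset.coe_insert]; exact Set.subset_insert _ _), fun x hx hxI =>
      h x ⟨fun j hj => ?_, fun i => ?_⟩ hxI⟩, by simpa using hnI⟩
    · exact hxI j fun h' => hj (by exact_mod_cast hIE h')
    · have := hx.2 i
      rw [sum_extCol B hn, hxI n hnI, ite_self, zero_add] at this
      exact this

theorem extCol_contract {m : ℕ} (B : Matrix (Fin (m + 1)) ℕ 𝔽) {n : ℕ} {E : Finset ℕ}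
    (hn : n ∉ E) : (colMatroid (extCol B n) (insert n E)) ／ {n} = colMatroid (initRows B) E := by
  have hg : ((insert n E : Finset ℕ) : Set ℕ) \ {n} = E := by
    rw [Finset.coe_insert]
    exact Set.insert_sdiff_self_of_notMem (by exact_mod_cast hn)
  have hnl : (colMatroid (extCol B n) (insert n E)).IsNonloop n := by
    rw [← Matroid.indep_singleton, indep_iff]
    refine ⟨by simp, fun x hx hxs => ?_⟩
    have h1 := hx.2 (Fin.last m)
    rw [sum_extCol B hn, if_pos rfl] at h1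
    have h2 : ∑ j ∈ E, B (Fin.last m) j * x j = 0 := by
      refine Finset.sum_eq_zero fun j hj => ?_
      rw [hxs j (fun h => hn (by rw [Set.mem_singleton_iff] at h; rwa [h] at hj)), mul_zero]
    rw [h2, add_zero] at h1
    funext j
    by_cases hj : j = n
    · rw [hj]; exact h1
    · exact hxs j hj
  refine Matroid.ext_indep hg fun I hI => ?_
  have hIE : I ⊆ E := by
    have : I ⊆ ((insert n E : Finset ℕ) : Set ℕ) \ {n} := hI
    rwa [hg] at this
  have hnI : n ∉ I := fun h => hn (by exact_mod_cast hIE h)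
  rw [hnl.contractElem_indep_iff, indep_iff, indep_iff]
  constructor
  · rintro ⟨-, -, h⟩
    refine ⟨hIE, fun x hx hxI => ?_⟩
    obtain ⟨c, hc⟩ : ∃ c, c = -∑ j ∈ E, B (Fin.last m) j * x j := ⟨_, rfl⟩
    have hx' : Function.update x n c ∈ Ker (extCol B n) (insert n E) := by
      have hs : ∀ i, ∑ j ∈ E, B i j * Function.update x n c j = ∑ j ∈ E, B i j * x j := by
        intro i
        refine Finset.sum_congr rfl fun j hj => ?_
        rw [Function.update_of_ne (show j ≠ n from fun h => hn (h ▸ hj))]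
      refine ⟨fun j hj => ?_, fun i => ?_⟩
      · rw [Finset.mem_insert, not_or] at hj
        rw [Function.update_of_ne hj.1]
        exact hx.1 j hj.2
      · rw [sum_extCol B hn, hs, Function.update_self]
        induction i using Fin.lastCases with
        | last => rw [if_pos rfl, hc]; ring
        | cast i =>
          rw [if_neg (Fin.castSucc_lt_last i).ne, zero_add]
          exact hx.2 i
    have h0 := h _ hx' (fun j hj => by
      rw [Set.mem_insert_iff, not_or] at hj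
      rw [Function.update_of_ne hj.1]
      exact hxI j hj.2)
    funext j
    by_cases hj : j = n
    · rw [hj]; exact hxI n hnI
    · have := congrFun h0 j
      rwa [Function.update_of_ne hj] at this
  · rintro ⟨-, h⟩
    refine ⟨hnI, ?_, fun x hx hxI => ?_⟩
    · rw [Finset.coe_insert]
      exact Set.insert_subset_insert hIE
    · have hx' : Function.update x n 0 ∈ Ker (initRows B) E := by
        refine ⟨fun j hj => ?_, fun i => ?_⟩
        · by_cases hjn : j = n
          · rw [hjn, Function.update_self]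
          · rw [Function.update_of_ne hjn]
            exact hx.1 j (by rw [Finset.mem_insert, not_or]; exact ⟨hjn, hj⟩)
        · have := hx.2 i.castSucc
          rw [sum_extCol B hn, if_neg (Fin.castSucc_lt_last i).ne, zero_add] at this
          rw [← this]
          refine Finset.sum_congr rfl fun j hj => ?_
          rw [Function.update_of_ne (show j ≠ n from fun h => hn (h ▸ hj))]
          rfl
      have h0 := h _ hx' (fun j hj => by
        by_cases hjn : j = n
        · rw [hjn, Function.update_self]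
        · rw [Function.update_of_ne hjn]
          exact hxI j (by rw [Set.mem_insert_iff, not_or]; exact ⟨hjn, hj⟩))
      have hxE : ∀ j, j ≠ n → x j = 0 := by
        intro j hj
        have := congrFun h0 j
        rwa [Function.update_of_ne hj] at this
      have h1 := hx.2 (Fin.last m)
      rw [sum_extCol B hn, if_pos rfl, Finset.sum_eq_zero (fun j hj => by
        rw [hxE j (fun h => hn (h ▸ hj)), mul_zero]), add_zero] at h1
      funext j
      by_cases hj : j = n
      · rw [hj]; exact h1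
      · exact hxE j hj

theorem exists_fresh (E : Finset ℕ) : ∃ n, n ∉ E := Infinite.exists_notMem_finset E

/-- dropping the last row is a `c*`-transformation -/
theorem cstar_init {m : ℕ} (B : Matrix (Fin (m + 1)) ℕ 𝔽) (E : Finset ℕ) :
    CStar (colMatroid B E) (colMatroid (initRows B) E) := by
  obtain ⟨n, hn⟩ := exists_fresh E
  exact ⟨colMatroid (extCol B n) (insert n E), n, by simp, (extCol_delete B hn).symm,
    (extCol_contract B hn).symm⟩

/-- adding a row is a `d*`-transformation -/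
theorem dstar_init {m : ℕ} (B : Matrix (Fin (m + 1)) ℕ 𝔽) (E : Finset ℕ) :
    DStar (colMatroid (initRows B) E) (colMatroid B E) := by
  obtain ⟨n, hn⟩ := exists_fresh E
  exact ⟨colMatroid (extCol B n) (insert n E), n, by simp, (extCol_contract B hn).symm,
    (extCol_delete B hn).symm⟩

end Pool.Agent.R880.CD
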