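import Pool.Agent.R880.CD.Upper

set_option autoImplicit false

/-!
# The upper bound for the matroid, continued
-/

namespace Pool.Agent.R880.CD

open Set
open scoped Matroid

/-- components are nonempty -/
theorem comp_nonempty {M : Matroid ℕ} [M.Finite] (h : M.E.Nonempty) {X : Set ℕ}
    (hX : IsComponent M X) : X.Nonempty := by
  by_contra hne
  rw [Set.not_nonempty_iff_eq_empty] at hne
  obtain ⟨s, hs⟩ := h
  obtain ⟨Z, hZ, hsZ⟩ := exists_component hs
  have := hX.2 hZ.1 (by rw [hne]; exact Set.empty_subset _)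
  have := this hsZ
  rw [hne] at this
  exact this

/-- a matroid all of whose circuits are singletons has depth one -/
theorem depth_one {M : Matroid ℕ} (h : ∀ C, M.IsCircuit C → ∀ e ∈ C, ∀ f ∈ C, e = f) :
    MatroidDepthLE 1 M := by
  intro X hX
  left
  rw [Set.encard_le_one_iff]
  intro a b ha hb
  by_contra hab
  obtain ⟨C, hC, h1, h2⟩ := hX.1.2 a ha b hb hab
  exact hab (h C hC a h1 b h2)

/-- if the dependency space splits along `Q` then a component meeting `Q` lies in `Q` -/
theorem comp_sub_part {𝔽 : Type} [Field 𝔽] {m : ℕ} {A : Matrix (Fin m) ℕ 𝔽} {E Q : Finset ℕ}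
    (hQ : ∀ x ∈ Ker A E, ind (Q : Set ℕ) x ∈ Ker A E) {X : Set ℕ}
    (hX : IsComponent (colMatroid A E) X) {e : ℕ} (he : e ∈ X) (heQ : e ∈ Q) :
    X ⊆ (Q : Set ℕ) := by
  intro f hf
  by_cases hef : f = e
  · rw [hef]; exact_mod_cast heQ
  obtain ⟨C, hC, h1, h2⟩ := hX.1.2 e he f hf (Ne.symm hef)
  obtain ⟨u, hu, huC⟩ := exists_of_isCircuit hC
  have hne : ind (Q : Set ℕ) u ≠ 0 := fun h => (huC e).2 h1 (by
    have := congrFun h e
    rwa [ind_mem (by exact_mod_cast heQ)] at this)
  obtain ⟨D, hD, hDu⟩ := exists_circuit (hQ u hu) hne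
  have hDC : D ⊆ C := by
    intro j hj
    by_contra hjC
    have h0 : u j = 0 := by
      by_contra h
      exact hjC ((huC j).1 h)
    apply hDu j hj
    by_cases hjQ : j ∈ (Q : Set ℕ)
    · rw [ind_mem hjQ, h0]
    · exact ind_notMem hjQ
  have hDe := hD.eq_of_subset_isCircuit hC hDC
  have hfD : f ∈ D := by rw [hDe]; exact h2
  by_contra hfQ
  exact hDu f hfD (ind_notMem hfQ)

/-! ### the second matrix without its last row -/

theorem mem_K3 {x : ℕ → ℚ} : x ∈ Ker (initRows A2) S ↔ (∀ j ∉ S, x j = 0) ∧ Aff x ∧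
    sm L1 x + x 1 - x 2 = 0 ∧ sm L2 x + x 1 - x 2 = 0 := by
  have h1 := sum_dl (kS (k := 1) (by norm_num)) x
  have h2 := sum_dl (kS (k := 2) (by norm_num)) x
  have h3 := sum_dl (kS (k := 3) (by norm_num)) x
  have h4 := sum_dl (kS (k := 4) (by norm_num)) x
  have h5 := sum_dl (kS (k := 5) (by norm_num)) x
  have hL1 := sum_oneOn L1S x
  have hL2 := sum_oneOn L2S x
  rw [mem_Ker, Fin.forall_fin_succ, Fin.forall_fin_succ, Fin.forall_fin_succ, Fin.forall_fin_succ,
    Fin.forall_fin_succ]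
  have e0 : ∑ j ∈ S, initRows A2 0 j * x j = x 1 - 2 * x 2 + x 3 := by
    rw [← h1, ← h2, ← h3, Finset.mul_sum, ← Finset.sum_sub_distrib, ← Finset.sum_add_distrib]
    refine Finset.sum_congr rfl fun j _ => ?_
    change A2 0 j * x j = _
    simp only [A2, Matrix.cons_val_zero]; ring
  have e1 : ∑ j ∈ S, initRows A2 1 j * x j = x 2 - 2 * x 3 + x 4 := by
    rw [← h2, ← h3, ← h4, Finset.mul_sum, ← Finset.sum_sub_distrib, ← Finset.sum_add_distrib]
    refine Finset.sum_congr rfl fun j _ => ?_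
    change A2 1 j * x j = _
    simp only [A2, Matrix.cons_val]; ring
  have e2 : ∑ j ∈ S, initRows A2 2 j * x j = x 3 - 2 * x 4 + x 5 := by
    rw [← h3, ← h4, ← h5, Finset.mul_sum, ← Finset.sum_sub_distrib, ← Finset.sum_add_distrib]
    refine Finset.sum_congr rfl fun j _ => ?_
    change A2 2 j * x j = _
    simp only [A2, Matrix.cons_val]; ring
  have e3 : ∑ j ∈ S, initRows A2 3 j * x j = sm L1 x + x 1 - x 2 := by
    rw [← h1, ← h2, ← hL1, ← Finset.sum_add_distrib, ← Finset.sum_sub_distrib]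
    refine Finset.sum_congr rfl fun j _ => ?_
    change A2 3 j * x j = _
    simp only [A2, Matrix.cons_val]; ring
  have e4 : ∑ j ∈ S, initRows A2 4 j * x j = sm L2 x + x 1 - x 2 := by
    rw [← h1, ← h2, ← hL2, ← Finset.sum_add_distrib, ← Finset.sum_sub_distrib]
    refine Finset.sum_congr rfl fun j _ => ?_
    change A2 4 j * x j = _
    simp only [A2, Matrix.cons_val]; ring
  refine and_congr_right fun _ => ?_
  constructor
  · rintro ⟨g0, g1, g2, g3, g4, -⟩
    refine ⟨⟨?_, ?_, ?_⟩, ?_, ?_⟩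
    · rw [← e0]; exact g0
    · rw [← e1]; exact g1
    · rw [← e2]; exact g2
    · rw [← e3]; exact g3
    · rw [← e4]; exact g4
  · rintro ⟨⟨g0, g1, g2⟩, g3, g4⟩
    refine ⟨?_, ?_, ?_, ?_, ?_, fun i => i.elim0⟩
    · rw [← e0] at g0; exact g0
    · rw [← e1] at g1; exact g1
    · rw [← e2] at g2; exact g2
    · rw [← e3] at g3; exact g3
    · rw [← e4] at g4; exact g4

/-- differences of two unit vectors of the same line -/
theorem un_sub {L : Finset ℕ} (hL : IsLine L) {p q : ℕ} (hp : p ∈ L) (hq : q ∈ L) :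
    (∀ j ∉ L, (un p - un q) j = 0) ∧ sm L1 (un p - un q) = 0 ∧ sm L2 (un p - un q) = 0 := by
  refine ⟨fun j hj => ?_, ?_, ?_⟩
  · rw [Pi.sub_apply, un_ne (show j ≠ p from fun h => hj (h ▸ hp)),
      un_ne (show j ≠ q from fun h => hj (h ▸ hq)), sub_zero]
  · rcases hL with rfl | rfl
    · rw [map_sub, sm_un hp, sm_un hq, sub_self]
    · rw [map_sub, sm_un0 (show p ∉ L1 from fun h => disj12 h hp),
        sm_un0 (show q ∉ L1 from fun h => disj12 h hq), sub_self]
  · rcases hL with rfl | rfl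
    · rw [map_sub, sm_un0 (disj12 hp), sm_un0 (disj12 hq), sub_self]
    · rw [map_sub, sm_un hp, sm_un hq, sub_self]

theorem mem_K3_of_line {L : Finset ℕ} (hL : IsLine L) {x : ℕ → ℚ} (hx : ∀ j ∉ L, x j = 0)
    (h1 : sm L1 x = 0) (h2 : sm L2 x = 0) : x ∈ Ker (initRows A2) S := by
  have hE : ∀ j ∈ E1, x j = 0 := by
    intro j hj
    refine hx j fun h => ?_
    rcases hL with rfl | rfl
    · exact (disjE1 hj).1 h
    · exact (disjE1 hj).2 h
  obtain ⟨e1, e2, e3, e4, e5⟩ := Aff.coeffs hE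
  rw [mem_K3]
  exact ⟨fun j hj => hx j fun h => hj (line_S hL h), ⟨by linarith, by linarith, by linarith⟩,
    by linarith, by linarith⟩

/-- `y = (0,1,..)`-type vectors -/
theorem mem_K3_y (α β : ℚ) : ev α β + β • un 11 + β • un 21 ∈ Ker (initRows A2) S := by
  have h1 : ∀ j ∈ E1, (ev α β + β • un 11 + β • un 21) j = α + β * j := by
    intro j hj
    have h' := mem_E1.1 hj
    simp only [Pi.add_apply, Pi.smul_apply, ev_E1 hj, un_ne (show j ≠ 11 by omega),
      un_ne (show j ≠ 21 by omega), smul_zero, add_zero]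
  have g1 := h1 1 (by decide)
  have g2 := h1 2 (by decide)
  push_cast at g1 g2
  rw [mem_K3]
  refine ⟨fun j hj => ?_, aff_of h1, ?_, ?_⟩
  · have a1 : j ∉ E1 := fun h => hj (E1S h)
    have a2 : j ≠ 11 := fun h => hj (by rw [h]; decide)
    have a3 : j ≠ 21 := fun h => hj (by rw [h]; decide)
    simp [ev_not a1, un_ne a2, un_ne a3]
  · rw [g1, g2]
    simp only [map_add, map_smul, sm_ev (Or.inl rfl), sm_un (show 11 ∈ L1 by decide),
      sm_un0 (show 21 ∉ L1 by decide), smul_eq_mul]
    ring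
  · rw [g1, g2]
    simp only [map_add, map_smul, sm_ev (Or.inr rfl), sm_un0 (show 11 ∉ L2 by decide),
      sm_un (show 21 ∈ L2 by decide), smul_eq_mul]
    ring

theorem conn3 {X : Set ℕ} (hX : IsComponent (colMatroid (initRows A2) S) X) : X = S := by
  have hsplit := comp_split hX
  have hXS : X ⊆ S := hX.1.1
  have hne : X.Nonempty := comp_nonempty ⟨1, by simp only [colMatroid_E]; exact_mod_cast
    (kS (k := 1) (by norm_num))⟩ hX
  -- lines are inside or outside
  have hline : ∀ L, IsLine L → ∀ p ∈ L, ∀ q ∈ L, p ∈ X → q ∈ X := by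
    intro L hL p hp q hq hpX
    by_contra hqX
    obtain ⟨u1, u2, u3⟩ := un_sub hL hp hq
    have h1 := hsplit _ (mem_K3_of_line hL u1 u2 u3)
    have h2 : ind X (un p - un q) = un p := by
      funext j
      by_cases hj : j ∈ X
      · rw [ind_mem hj, Pi.sub_apply, un_ne (show j ≠ q from fun h => hqX (h ▸ hj)), sub_zero]
      · rw [ind_notMem hj, un_ne (show j ≠ p from fun h => hj (h ▸ hpX))]
    rw [h2] at h1
    obtain ⟨-, -, g1, g2⟩ := mem_K3.1 h1
    have e1 : un p 1 = 0 := un_ne (line_ne_E1 hL hp (by decide))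
    have e2 : un p 2 = 0 := un_ne (line_ne_E1 hL hp (by decide))
    rw [e1, e2] at g1 g2
    rcases hL with rfl | rfl
    · rw [sm_un hp] at g1; norm_num at g1
    · rw [sm_un hp] at g2; norm_num at g2
  -- the first five elements
  have hval : ∀ j ∈ E1, (j ∈ X ∧ ind X (ev 1 0 + (0 : ℚ) • un 11 + (0 : ℚ) • un 21) j = 1) ∨
      (j ∉ X ∧ ind X (ev 1 0 + (0 : ℚ) • un 11 + (0 : ℚ) • un 21) j = 0) := by
    intro j hj
    by_cases hjX : j ∈ X
    · left
      refine ⟨hjX, ?_⟩
      rw [ind_mem hjX]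
      simp [ev_E1 hj]
    · exact Or.inr ⟨hjX, ind_notMem hjX⟩
  obtain ⟨-, ⟨a1, a2, a3⟩, -, -⟩ := mem_K3.1 (hsplit _ (mem_K3_y 1 0))
  have hall : (∀ j ∈ E1, j ∈ X) ∨ (∀ j ∈ E1, j ∉ X) := by
    have v1 := hval 1 (by decide)
    have v2 := hval 2 (by decide)
    have v3 := hval 3 (by decide)
    have v4 := hval 4 (by decide)
    have v5 := hval 5 (by decide)
    have hE : ∀ j ∈ E1, j = 1 ∨ j = 2 ∨ j = 3 ∨ j = 4 ∨ j = 5 := by decide
    rcases v1 with ⟨m1, v1⟩ | ⟨m1, v1⟩ <;> rcases v2 with ⟨m2, v2⟩ | ⟨m2, v2⟩ <;>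
      rcases v3 with ⟨m3, v3⟩ | ⟨m3, v3⟩ <;> rcases v4 with ⟨m4, v4⟩ | ⟨m4, v4⟩ <;>
      rcases v5 with ⟨m5, v5⟩ | ⟨m5, v5⟩ <;> rw [v1, v2, v3] at a1 <;> rw [v2, v3, v4] at a2 <;>
      rw [v3, v4, v5] at a3 <;> first
        | (exfalso; norm_num at a1; done)
        | (exfalso; norm_num at a2; done)
        | (exfalso; norm_num at a3; done)
        | (left; intro j hj; rcases hE j hj with rfl | rfl | rfl | rfl | rfl <;> assumption)
        | (right; intro j hj; rcases hE j hj with rfl | rfl | rfl | rfl | rfl <;> assumption)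
  obtain ⟨-, -, b1, b2⟩ := mem_K3.1 (hsplit _ (mem_K3_y 0 1))
  -- value of the line sums
  have hsm : ∀ L, IsLine L → (∀ j ∈ L, j ∉ X) →
      sm L (ind X (ev 0 1 + (1 : ℚ) • un 11 + (1 : ℚ) • un 21)) = 0 := by
    intro L hL h
    rw [sm_apply]
    exact Finset.sum_eq_zero fun j hj => ind_notMem (h j hj)
  have hsm' : ∀ L, IsLine L → (∀ j ∈ L, j ∈ X) →
      sm L (ind X (ev 0 1 + (1 : ℚ) • un 11 + (1 : ℚ) • un 21)) = 1 := by
    intro L hL h
    have : sm L (ind X (ev 0 1 + (1 : ℚ) • un 11 + (1 : ℚ) • un 21)) =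
        sm L (ev 0 1 + (1 : ℚ) • un 11 + (1 : ℚ) • un 21) := by
      rw [sm_apply, sm_apply]
      exact Finset.sum_congr rfl fun j hj => ind_mem (h j hj)
    rw [this]
    rcases hL with rfl | rfl
    · simp only [map_add, map_smul, sm_ev (Or.inl rfl), sm_un (show 11 ∈ L1 by decide),
        sm_un0 (show 21 ∉ L1 by decide), smul_eq_mul]
      norm_num
    · simp only [map_add, map_smul, sm_ev (Or.inr rfl), sm_un0 (show 11 ∉ L2 by decide),
        sm_un (show 21 ∈ L2 by decide), smul_eq_mul]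
      norm_num
  have hL : ∀ L, IsLine L → (∀ j ∈ L, j ∈ X) ∨ (∀ j ∈ L, j ∉ X) := by
    intro L hL
    by_cases h : ∃ p ∈ L, p ∈ X
    · obtain ⟨p, hp, hpX⟩ := h
      exact Or.inl fun q hq => hline L hL p hp q hq hpX
    · push Not at h
      exact Or.inr h
  rcases hall with h | h
  · have m1 := h 1 (by decide)
    have m2 := h 2 (by decide)
    have w1 : ind X (ev 0 1 + (1 : ℚ) • un 11 + (1 : ℚ) • un 21) 1 = 1 := by
      rw [ind_mem m1]
      simp [ev_E1 (show 1 ∈ E1 by decide), un]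
    have w2 : ind X (ev 0 1 + (1 : ℚ) • un 11 + (1 : ℚ) • un 21) 2 = 2 := by
      rw [ind_mem m2]
      simp [ev_E1 (show 2 ∈ E1 by decide), un]
    rw [w1, w2] at b1 b2
    have l1 : ∀ j ∈ L1, j ∈ X := by
      refine (hL L1 (Or.inl rfl)).resolve_right fun h' => ?_
      rw [hsm L1 (Or.inl rfl) h'] at b1
      norm_num at b1
    have l2 : ∀ j ∈ L2, j ∈ X := by
      refine (hL L2 (Or.inr rfl)).resolve_right fun h' => ?_
      rw [hsm L2 (Or.inr rfl) h'] at b2
      norm_num at b2
    refine Set.Subset.antisymm hXS fun j hj => ?_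
    rcases mem_S.1 (by exact_mod_cast hj) with h' | h' | h'
    · exact h j h'
    · exact l1 j h'
    · exact l2 j h'
  · exfalso
    have m1 := h 1 (by decide)
    have m2 := h 2 (by decide)
    rw [ind_notMem m1, ind_notMem m2] at b1 b2
    have l1 : ∀ j ∈ L1, j ∉ X := by
      refine (hL L1 (Or.inl rfl)).resolve_left fun h' => ?_
      rw [hsm' L1 (Or.inl rfl) h'] at b1
      norm_num at b1
    have l2 : ∀ j ∈ L2, j ∉ X := by
      refine (hL L2 (Or.inr rfl)).resolve_left fun h' => ?_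
      rw [hsm' L2 (Or.inr rfl) h'] at b2
      norm_num at b2
    obtain ⟨j, hj⟩ := hne
    rcases mem_S.1 (by exact_mod_cast hXS hj) with h' | h' | h'
    · exact h j h' hj
    · exact l1 j h' hj
    · exact l2 j h' hj

/-! ### one more row -/

/-- the third matrix -/
def A3 : Matrix (Fin 6) ℕ ℚ := appendRow (initRows A2) (fun j => dl 2 j - dl 1 j)

theorem init_append {𝔽 : Type} [Field 𝔽] {m : ℕ} (B : Matrix (Fin m) ℕ 𝔽) (w : ℕ → 𝔽) :
    initRows (appendRow B w) = B := by
  funext i j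
  exact appendRow_castSucc B w i j

theorem mem_K4 {x : ℕ → ℚ} : x ∈ Ker A3 S ↔ (∀ j ∉ S, x j = 0) ∧ (∀ j ∈ E1, x j = x 1) ∧
    sm L1 x = 0 ∧ sm L2 x = 0 := by
  have h1 := sum_dl (kS (k := 1) (by norm_num)) x
  have h2 := sum_dl (kS (k := 2) (by norm_num)) x
  have e : rowF (fun j => dl 2 j - dl 1 j) S x = x 2 - x 1 := by
    rw [rowF_apply, ← h1, ← h2, ← Finset.sum_sub_distrib]
    exact Finset.sum_congr rfl fun j _ => by ring
  rw [A3, Ker_appendRow, Submodule.mem_inf, LinearMap.mem_ker, e, mem_K3]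
  constructor
  · rintro ⟨⟨g1, g2, g3, g4⟩, g5⟩
    refine ⟨g1, fun j hj => ?_, by linarith, by linarith⟩
    have := g2.formula j hj
    rw [this, g5]; linarith
  · rintro ⟨g1, g2, g3, g4⟩
    have := g2 2 (by decide)
    exact ⟨⟨g1, aff_of (α := x 1) (β := 0) fun j hj => by rw [g2 j hj]; ring, by linarith,
      by linarith⟩, by linarith⟩

theorem split_E1 : ∀ x ∈ Ker A3 S, ind (E1 : Set ℕ) x ∈ Ker A3 S := by
  intro x hx
  obtain ⟨g1, g2, g3, g4⟩ := mem_K4.1 hx
  have hin : ∀ j ∈ E1, ind (E1 : Set ℕ) x j = x j := fun j hj => ind_mem (by exact_mod_cast hj)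
  refine mem_K4.2 ⟨fun j hj => ind_notMem fun h => hj (E1S (by exact_mod_cast h)),
    fun j hj => by rw [hin j hj, hin 1 (by decide), g2 j hj], ?_, ?_⟩
  · rw [sm_apply]
    exact Finset.sum_eq_zero fun j hj => ind_notMem fun h => (disjE1 (by exact_mod_cast h)).1 hj
  · rw [sm_apply]
    exact Finset.sum_eq_zero fun j hj => ind_notMem fun h => (disjE1 (by exact_mod_cast h)).2 hj

theorem split_line {L : Finset ℕ} (hL : IsLine L) :
    ∀ x ∈ Ker A3 S, ind (L : Set ℕ) x ∈ Ker A3 S := by
  intro x hx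
  obtain ⟨g1, g2, g3, g4⟩ := mem_K4.1 hx
  have hE : ∀ j ∈ E1, ind (L : Set ℕ) x j = 0 := by
    intro j hj
    refine ind_notMem fun h => ?_
    exact line_ne_E1 hL (by exact_mod_cast h) hj rfl
  refine mem_K4.2 ⟨fun j hj => ind_notMem fun h => hj (line_S hL (by exact_mod_cast h)),
    fun j hj => by rw [hE j hj, hE 1 (by decide)], ?_, ?_⟩
  · rcases hL with rfl | rfl
    · rw [sm_apply, ← g3, sm_apply]
      exact Finset.sum_congr rfl fun j hj => ind_mem (by exact_mod_cast hj)
    · rw [sm_apply]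
      exact Finset.sum_eq_zero fun j hj => ind_notMem fun h => disj12 hj (by exact_mod_cast h)
  · rcases hL with rfl | rfl
    · rw [sm_apply]
      exact Finset.sum_eq_zero fun j hj => ind_notMem fun h => disj12 (by exact_mod_cast h) hj
    · rw [sm_apply, ← g4, sm_apply]
      exact Finset.sum_congr rfl fun j hj => ind_mem (by exact_mod_cast hj)

/-- one row of ones -/
def J1 : Matrix (Fin 1) ℕ ℚ := fun _ _ => 1

theorem level2 : MatroidDepthLE 2 (colMatroid A3 S) := by
  intro X hX
  by_cases hX1 : X.encard ≤ 1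
  · exact Or.inl hX1
  right
  obtain ⟨Y, rfl⟩ : ∃ J : Finset ℕ, (J : Set ℕ) = X :=
    ⟨(S.finite_toSet.subset hX.1.1).toFinset, by simp⟩
  have hYS : Y ⊆ S := by exact_mod_cast hX.1.1
  rw [colMatroid_restrict _ hYS]
  have hY2 : 1 < Y.card := by
    rw [Set.encard_coe_eq_coe_finsetCard] at hX1
    by_contra h
    exact hX1 (by exact_mod_cast not_lt.1 h)
  obtain ⟨e, he, f, hf, hef⟩ := Finset.one_lt_card.1 hY2
  have he' : e ∈ (Y : Set ℕ) := by exact_mod_cast he
  have hf' : f ∈ (Y : Set ℕ) := by exact_mod_cast hf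
  obtain ⟨C, hC, h1, h2⟩ := hX.1.2 e he' f hf' hef
  obtain ⟨u, hu, huC⟩ := exists_of_isCircuit hC
  obtain ⟨g1, g2, g3, g4⟩ := mem_K4.1 hu
  have hCY := circuit_subset_component hX hC ⟨e, h1, he'⟩
  have hline : ∀ L, IsLine L → e ∈ L → ∃ M' : Matroid ℕ,
      (CStar (colMatroid A3 Y) M' ∨ DStar (colMatroid A3 Y) M') ∧ M' ≠ colMatroid A3 Y ∧
        MatroidDepthLE 1 M' := by
    intro L hL heL
    have hYL : Y ⊆ L := by exact_mod_cast comp_sub_part (split_line hL) hX he' heL
    have hsm : ∀ x : ℕ → ℚ, (∀ j ∉ Y, x j = 0) → sm L x = ∑ j ∈ Y, x j := by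
      intro x hx
      rw [sm_apply]
      exact (Finset.sum_subset hYL fun j _ hj => hx j hj).symm
    have hker : Ker A3 Y = Ker J1 Y := by
      ext x
      rw [mem_Ker_sub hYS, mem_K4, mem_Ker]
      constructor
      · rintro ⟨⟨-, -, k1, k2⟩, k3⟩
        refine ⟨k3, fun i => ?_⟩
        simp only [J1, one_mul]
        rw [← hsm x k3]
        rcases hL with rfl | rfl
        · exact k1
        · exact k2
      · rintro ⟨k3, k1⟩
        have k2 := k1 0
        simp only [J1, one_mul] at k2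
        rw [← hsm x k3] at k2
        have hxL : ∀ j ∉ L, x j = 0 := fun j hj => k3 j fun h => hj (hYL h)
        have hE : ∀ j ∈ E1, x j = 0 := fun j hj => hxL j fun h => line_ne_E1 hL h hj rfl
        refine ⟨⟨fun j hj => hxL j fun h => hj (line_S hL h), fun j hj => by
          rw [hE j hj, hE 1 (by decide)], ?_⟩, k3⟩
        rcases hL with rfl | rfl
        · exact ⟨k2, (sums_zero fun j hj => hxL j fun h => disj12 h hj).1⟩
        · exact ⟨(sums_zero fun j hj => hxL j fun h => disj12 hj h).1, k2⟩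
    rw [colMatroid_congr hker]
    refine ⟨colMatroid (initRows J1) Y, Or.inl (cstar_init J1 Y), fun h => ?_, ?_⟩
    · have hi : (colMatroid J1 Y).Indep {e} := by
        rw [indep_iff]
        refine ⟨by simpa using he, fun x hx hxe => ?_⟩
        have := hx.2 0
        simp only [J1, one_mul] at this
        rw [Finset.sum_eq_single e (fun j _ hj => hxe j hj) (fun h => absurd he h)] at this
        funext j
        by_cases hj : j = e
        · rw [hj]; exact this
        · exact hxe j hj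
      rw [← h, indep_iff] at hi
      have := hi.2 (un e) ⟨fun j hj => un_ne (show j ≠ e from fun h => hj (h ▸ he)),
        fun i => i.elim0⟩ (fun j hj => un_ne hj)
      have := congrFun this e
      rw [un_self] at this
      norm_num at this
    · refine depth_one fun D hD a ha b hb => ?_
      by_contra hab
      have hi := hD.sdiff_singleton_indep hb
      rw [indep_iff] at hi
      have haY : a ∈ Y := by
        have := hD.subset_ground ha
        exact_mod_cast this
      have := hi.2 (un a) ⟨fun j hj => un_ne (show j ≠ a from fun h => hj (h ▸ haY)),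
        fun i => i.elim0⟩ (fun j hj => un_ne (show j ≠ a from fun h => hj (by
          rw [h]; exact ⟨ha, hab⟩)))
      have := congrFun this a
      rw [un_self] at this
      norm_num at this
  rcases mem_S.1 (hYS he) with heE | heL | heL
  · -- the first part
    have hYE : Y ⊆ E1 := by exact_mod_cast comp_sub_part split_E1 hX he' heE
    have hue : u e ≠ 0 := (huC e).2 h1
    have hEY : E1 ⊆ Y := by
      intro j hj
      have : u j ≠ 0 := by rw [g2 j hj, ← g2 e heE]; exact hue
      exact_mod_cast hCY ((huC j).1 this)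
    have hYe : Y = E1 := Finset.Subset.antisymm hYE hEY
    subst hYe
    have hker : ∀ x ∈ Ker (appendRow A3 (dl 1)) E1, x = 0 := by
      intro x hx
      rw [Ker_appendRow, Submodule.mem_inf, LinearMap.mem_ker, rowF_apply, mem_Ker_sub hYS,
        mem_K4] at hx
      obtain ⟨⟨⟨-, k2, -, -⟩, k5⟩, k6⟩ := hx
      have h1E : 1 ∈ E1 := hEY (by decide)
      have k7 : x 1 = 0 := by
        rw [← k6]
        simp [dl, h1E]
      funext j
      by_cases hj : j ∈ E1
      · rw [k2 j (hYE hj), k7]; rfl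
      · exact k5 j hj
    refine ⟨colMatroid (appendRow A3 (dl 1)) E1, Or.inr ?_, fun h => ?_, ?_⟩
    · have := dstar_init (appendRow A3 (dl 1)) E1
      rwa [init_append] at this
    · have hi : (colMatroid (appendRow A3 (dl 1)) E1).Indep E1 := by
        rw [indep_iff]
        exact ⟨Set.Subset.refl _, fun x hx _ => hker x hx⟩
      rw [h, indep_iff] at hi
      have hev : ev 1 0 ∈ Ker A3 E1 := by
        rw [mem_Ker_sub hYS, mem_K4]
        have z : ∀ j ∉ E1, ev 1 0 j = 0 := fun j hj => ev_not hj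
        refine ⟨⟨fun j hj => z j fun h => hj (E1S h), fun j hj => ?_, sm_ev (Or.inl rfl) _ _,
          sm_ev (Or.inr rfl) _ _⟩, fun j hj => z j fun h => hj (hEY h)⟩
        rw [ev_E1 hj, ev_E1 (show 1 ∈ E1 by decide)]; ring
      have := hi.2 _ hev (fun j hj => ev_not fun h => hj (by exact_mod_cast hEY h))
      have := congrFun this 1
      rw [ev_E1 (by decide)] at this
      norm_num at this
    · refine depth_one fun D hD a ha b hb => ?_
      exfalso
      obtain ⟨v, hv, hvD⟩ := exists_of_isCircuit hD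
      exact (hvD a).2 ha (by rw [hker v hv]; rfl)
  · exact hline L1 (Or.inl rfl) heL
  · exact hline L2 (Or.inr rfl) heL

theorem level3 : MatroidDepthLE 3 (colMatroid (initRows A2) S) := by
  intro X hX
  right
  have hXS := conn3 hX
  rw [hXS, colMatroid_restrict _ (Finset.Subset.refl S)]
  refine ⟨colMatroid A3 S, Or.inr ?_, fun h => ?_, level2⟩
  · have := dstar_init A3 S
    rwa [show initRows A3 = initRows A2 from init_append _ _] at this
  · have hi : (colMatroid A3 S).Indep (({2, 3, 4, 5, 11, 21} : Finset ℕ) : Set ℕ) := by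
      rw [indep_iff]
      refine ⟨by exact_mod_cast (by decide : ({2, 3, 4, 5, 11, 21} : Finset ℕ) ⊆ S),
        fun x hx hx0 => ?_⟩
      obtain ⟨g1, g2, g3, g4⟩ := mem_K4.1 hx
      have hz : ∀ j, j ∉ ({2, 3, 4, 5, 11, 21} : Finset ℕ) → x j = 0 :=
        fun j hj => hx0 j (by exact_mod_cast hj)
      have x1 := hz 1 (by decide)
      have hE : ∀ j ∈ E1, x j = 0 := fun j hj => by rw [g2 j hj, x1]
      refine zero_of_parts g1 hE ?_ ?_
      · refine IsLine.zero_one (J := {11}) (by decide) (by decide) (fun j hj hj' => hz j ?_) g3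
        have := mem_L1.1 hj
        simp only [Finset.mem_singleton] at hj'
        simp only [Finset.mem_insert, Finset.mem_singleton]
        omega
      · refine IsLine.zero_one (J := {21}) (by decide) (by decide) (fun j hj hj' => hz j ?_) g4
        have := mem_L2.1 hj
        simp only [Finset.mem_singleton] at hj'
        simp only [Finset.mem_insert, Finset.mem_singleton]
        omega
    rw [h, indep_iff] at hi
    have := hi.2 _ (mem_K3_y (-1) 1) (fun j hj => by
      have hj' : j ∉ ({2, 3, 4, 5, 11, 21} : Finset ℕ) := by exact_mod_cast hj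
      simp only [Finset.mem_insert, Finset.mem_singleton, not_or] at hj'
      by_cases hjE : j ∈ E1
      · have := mem_E1.1 hjE
        have hj1 : j = 1 := by omega
        rw [hj1]
        simp [ev_E1 (show 1 ∈ E1 by decide), un]
      · simp [ev_not hjE, un_ne hj'.2.2.2.2.1, un_ne hj'.2.2.2.2.2])
    have := congrFun this 2
    simp [ev_E1 (show 2 ∈ E1 by decide), un] at this
    norm_num at this

/-- the matroid has depth at most `4` -/
theorem upper : MatroidDepthLE 4 (colMatroid A1 S) := by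
  intro X hX
  right
  have hXS := conn1 hX
  rw [hXS, colMatroid_restrict _ (Finset.Subset.refl S)]
  refine ⟨colMatroid (initRows A2) S, Or.inl ?_, fun h => ?_, level3⟩
  · rw [same]; exact cstar_init A2 S
  · have hi : (colMatroid A1 S).Indep (({11, 12} : Finset ℕ) : Set ℕ) :=
      (indep_A1 _).2 ⟨by decide, cond_pair 11 12⟩
    rw [← h, indep_iff] at hi
    obtain ⟨u1, u2, u3⟩ := un_sub (Or.inl rfl) (show 11 ∈ L1 by decide) (show 12 ∈ L1 by decide)
    have := hi.2 _ (mem_K3_of_line (Or.inl rfl) u1 u2 u3) (fun j hj => by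
      have hj' : j ∉ ({11, 12} : Finset ℕ) := by exact_mod_cast hj
      simp only [Finset.mem_insert, Finset.mem_singleton, not_or] at hj'
      rw [Pi.sub_apply, un_ne hj'.1, un_ne hj'.2, sub_zero])
    have := congrFun this 11
    rw [Pi.sub_apply, un_self, un_ne (by norm_num)] at this
    norm_num at this

end Pool.Agent.R880.CD
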