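import Pool.Agent.R880.CD.Upper2

set_option autoImplicit false

/-!
# The upper bound for the matrix
-/

namespace Pool.Agent.R880.CD

open Set
open scoped Matroid

theorem mdepth_one {𝔽 : Type} [Field 𝔽] {m : ℕ} {A : Matrix (Fin m) ℕ 𝔽} {E : Finset ℕ}
    (h : ∀ C, (colMatroid A E).IsCircuit C → ∀ e ∈ C, ∀ f ∈ C, e = f) :
    MatrixDepthLE 1 m A E := by
  intro X hX
  left
  rw [Finset.card_le_one]
  intro a ha b hb
  by_contra hab
  obtain ⟨C, hC, h1, h2⟩ := hX.1.2 a (by exact_mod_cast ha) b (by exact_mod_cast hb) hab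
  exact hab (h C hC a h1 b h2)

/-- deleting the row `r`, as a `c*`-step -/
def dropRow {𝔽 : Type} [Field 𝔽] {m : ℕ} (A : Matrix (Fin (m + 1)) ℕ 𝔽) (r : Fin (m + 1)) :
    Matrix (Fin m) ℕ 𝔽 := pivotColumn A (Pi.single r 1) r

theorem dropRow_step {𝔽 : Type} [Field 𝔽] {m : ℕ} (A : Matrix (Fin (m + 1)) ℕ 𝔽)
    (r : Fin (m + 1)) : MatrixStep A (dropRow A r) :=
  MatrixStep.c A _ r (by simp)

theorem dropRow_apply {𝔽 : Type} [Field 𝔽] {m : ℕ} (A : Matrix (Fin (m + 1)) ℕ 𝔽)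
    (r : Fin (m + 1)) (i : Fin m) (j : ℕ) : dropRow A r i j = A (r.succAbove i) j := by
  rw [dropRow, pivotColumn, Pi.single_eq_of_ne (Fin.succAbove_ne r i)]
  simp

/-- the eight functionals -/
noncomputable def F3 : Fin 8 → ((ℕ → ℚ) →ₗ[ℚ] ℚ) :=
  ![P 1 - (2 : ℚ) • P 2 + P 3, P 2 - (2 : ℚ) • P 3 + P 4, P 3 - (2 : ℚ) • P 4 + P 5,
    sm L1 + P 1 - P 2, sm L2 + (2 : ℚ) • P 1 - P 2, sw L1 + sw L2, P 1, P 2]

def C1 : Matrix (Fin 7) ℕ ℚ := appendRow A1 (dl 1)
def C2 : Matrix (Fin 8) ℕ ℚ := appendRow C1 (dl 2)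
def C3 : Matrix (Fin 7) ℕ ℚ := dropRow C2 5

theorem C2_low (i : Fin 6) (j : ℕ) : C2 i.castSucc.castSucc j = A1 i j := by
  rw [C2, appendRow_castSucc, C1, appendRow_castSucc]

theorem F3_eq (i : Fin 8) (x : ℕ → ℚ) : ∑ j ∈ S, C2 i j * x j = F3 i x := by
  have h1 := sum_dl (kS (k := 1) (by norm_num)) x
  have h2 := sum_dl (kS (k := 2) (by norm_num)) x
  have h3 := sum_dl (kS (k := 3) (by norm_num)) x
  have h4 := sum_dl (kS (k := 4) (by norm_num)) x
  have h5 := sum_dl (kS (k := 5) (by norm_num)) x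
  have hL1 := sum_oneOn L1S x
  have hL2 := sum_oneOn L2S x
  have ht := sum_tt x
  revert i
  rw [Fin.forall_fin_succ, Fin.forall_fin_succ, Fin.forall_fin_succ, Fin.forall_fin_succ,
    Fin.forall_fin_succ, Fin.forall_fin_succ, Fin.forall_fin_succ, Fin.forall_fin_succ]
  refine ⟨?_, ?_, ?_, ?_, ?_, ?_, ?_, ?_, fun i => i.elim0⟩
  · change _ = x 1 - 2 * x 2 + x 3
    rw [← h1, ← h2, ← h3, Finset.mul_sum, ← Finset.sum_sub_distrib, ← Finset.sum_add_distrib]
    refine Finset.sum_congr rfl fun j _ => ?_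
    rw [show C2 0 j = A1 0 j from C2_low 0 j]
    simp only [A1, Matrix.cons_val_zero]; ring
  · change _ = x 2 - 2 * x 3 + x 4
    rw [← h2, ← h3, ← h4, Finset.mul_sum, ← Finset.sum_sub_distrib, ← Finset.sum_add_distrib]
    refine Finset.sum_congr rfl fun j _ => ?_
    change C2 1 j * x j = _
    rw [show C2 1 j = A1 1 j from C2_low 1 j]
    simp only [A1, Matrix.cons_val]; ring
  · change _ = x 3 - 2 * x 4 + x 5
    rw [← h3, ← h4, ← h5, Finset.mul_sum, ← Finset.sum_sub_distrib, ← Finset.sum_add_distrib]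
    refine Finset.sum_congr rfl fun j _ => ?_
    change C2 2 j * x j = _
    rw [show C2 2 j = A1 2 j from C2_low 2 j]
    simp only [A1, Matrix.cons_val]; ring
  · change _ = sm L1 x + x 1 - x 2
    rw [← h1, ← h2, ← hL1, ← Finset.sum_add_distrib, ← Finset.sum_sub_distrib]
    refine Finset.sum_congr rfl fun j _ => ?_
    change C2 3 j * x j = _
    rw [show C2 3 j = A1 3 j from C2_low 3 j]
    simp only [A1, Matrix.cons_val]; ring
  · change _ = sm L2 x + 2 * x 1 - x 2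
    rw [← h1, ← h2, ← hL2, Finset.mul_sum, ← Finset.sum_add_distrib, ← Finset.sum_sub_distrib]
    refine Finset.sum_congr rfl fun j _ => ?_
    change C2 4 j * x j = _
    rw [show C2 4 j = A1 4 j from C2_low 4 j]
    simp only [A1, Matrix.cons_val]; ring
  · change _ = sw L1 x + sw L2 x
    rw [← ht]
    refine Finset.sum_congr rfl fun j _ => ?_
    change C2 5 j * x j = _
    rw [show C2 5 j = A1 5 j from C2_low 5 j]
    simp only [A1, Matrix.cons_val]
  · change _ = x 1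
    rw [← h1]
    refine Finset.sum_congr rfl fun j _ => ?_
    change C2 6 j * x j = _
    rw [show C2 6 j = C1 (Fin.last 6) j from appendRow_castSucc C1 (dl 2) (Fin.last 6) j, C1,
      appendRow_last]
  · change _ = x 2
    rw [← h2]
    refine Finset.sum_congr rfl fun j _ => ?_
    change C2 7 j * x j = _
    rw [show C2 7 j = dl 2 j from appendRow_last C1 (dl 2) j]

/-- row sums over smaller sets -/
theorem F3_sub {Y : Finset ℕ} (hY : Y ⊆ S) (i : Fin 8) {x : ℕ → ℚ} (hx : ∀ j ∉ Y, x j = 0) :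
    ∑ j ∈ Y, C2 i j * x j = F3 i x := by
  rw [← F3_eq]
  exact Finset.sum_subset hY fun j _ hj => by rw [hx j hj, mul_zero]

theorem F3_line1 {x : ℕ → ℚ} (hx : ∀ j ∉ L1, x j = 0) (k : Fin 8) (h3 : k ≠ 3) (h5 : k ≠ 5) :
    F3 k x = 0 := by
  have hE : ∀ j ∈ E1, x j = 0 := fun j hj => hx j (disjE1 hj).1
  obtain ⟨e1, e2, e3, e4, e5⟩ := Aff.coeffs hE
  obtain ⟨z1, z2⟩ := sums_zero (L := L2) (x := x) fun j hj => hx j fun h => disj12 h hj
  revert k
  rw [Fin.forall_fin_succ, Fin.forall_fin_succ, Fin.forall_fin_succ, Fin.forall_fin_succ,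
    Fin.forall_fin_succ, Fin.forall_fin_succ, Fin.forall_fin_succ, Fin.forall_fin_succ]
  refine ⟨fun _ _ => ?_, fun _ _ => ?_, fun _ _ => ?_, fun h => absurd rfl h, fun _ _ => ?_,
    fun _ h => absurd rfl h, fun _ _ => ?_, fun _ _ => ?_, fun i => i.elim0⟩
  · change x 1 - 2 * x 2 + x 3 = 0
    linarith
  · change x 2 - 2 * x 3 + x 4 = 0
    linarith
  · change x 3 - 2 * x 4 + x 5 = 0
    linarith
  · change sm L2 x + 2 * x 1 - x 2 = 0
    linarith
  · exact e1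
  · exact e2

theorem F3_line2 {x : ℕ → ℚ} (hx : ∀ j ∉ L2, x j = 0) (k : Fin 8) (h4 : k ≠ 4) (h5 : k ≠ 5) :
    F3 k x = 0 := by
  have hE : ∀ j ∈ E1, x j = 0 := fun j hj => hx j (disjE1 hj).2
  obtain ⟨e1, e2, e3, e4, e5⟩ := Aff.coeffs hE
  obtain ⟨z1, z2⟩ := sums_zero (L := L1) (x := x) fun j hj => hx j fun h => disj12 hj h
  revert k
  rw [Fin.forall_fin_succ, Fin.forall_fin_succ, Fin.forall_fin_succ, Fin.forall_fin_succ,
    Fin.forall_fin_succ, Fin.forall_fin_succ, Fin.forall_fin_succ, Fin.forall_fin_succ]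
  refine ⟨fun _ _ => ?_, fun _ _ => ?_, fun _ _ => ?_, fun _ _ => ?_, fun h => absurd rfl h,
    fun _ h => absurd rfl h, fun _ _ => ?_, fun _ _ => ?_, fun i => i.elim0⟩
  · change x 1 - 2 * x 2 + x 3 = 0
    linarith
  · change x 2 - 2 * x 3 + x 4 = 0
    linarith
  · change x 3 - 2 * x 4 + x 5 = 0
    linarith
  · change sm L1 x + x 1 - x 2 = 0
    linarith
  · exact e1
  · exact e2

theorem mem_C3 {Y : Finset ℕ} (hY : Y ⊆ S) {x : ℕ → ℚ} :
    x ∈ Ker C3 Y ↔ (∀ j ∉ Y, x j = 0) ∧ ∀ k : Fin 8, k ≠ 5 → F3 k x = 0 := by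
  rw [mem_Ker]
  refine and_congr_right fun hx => ?_
  have hrow : ∀ i, ∑ j ∈ Y, C3 i j * x j = F3 ((5 : Fin 8).succAbove i) x := by
    intro i
    rw [← F3_sub hY _ hx]
    exact Finset.sum_congr rfl fun j _ => by rw [C3, dropRow_apply]
  constructor
  · intro h k hk
    obtain ⟨i, rfl⟩ := Fin.exists_succAbove_eq hk
    rw [← hrow]; exact h i
  · intro h i
    rw [hrow]; exact h _ (Fin.succAbove_ne _ _)

theorem mem_C4 {Y : Finset ℕ} (hY : Y ⊆ S) (r : Fin 7) {x : ℕ → ℚ} :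
    x ∈ Ker (dropRow C3 r) Y ↔ (∀ j ∉ Y, x j = 0) ∧
      ∀ i : Fin 7, i ≠ r → F3 ((5 : Fin 8).succAbove i) x = 0 := by
  rw [mem_Ker]
  refine and_congr_right fun hx => ?_
  have hrow : ∀ i, ∑ j ∈ Y, dropRow C3 r i j * x j =
      F3 ((5 : Fin 8).succAbove (r.succAbove i)) x := by
    intro i
    rw [← F3_sub hY _ hx]
    exact Finset.sum_congr rfl fun j _ => by rw [dropRow_apply, C3, dropRow_apply]
  constructor
  · intro h k hk
    obtain ⟨i, rfl⟩ := Fin.exists_succAbove_eq hk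
    rw [← hrow]; exact h i
  · intro h i
    rw [hrow]; exact h _ (Fin.succAbove_ne _ _)

theorem F3_sums (x : ℕ → ℚ) : F3 3 x = sm L1 x + x 1 - x 2 ∧
    F3 4 x = sm L2 x + 2 * x 1 - x 2 := ⟨rfl, rfl⟩

/-- kernel vectors for the matrix `C3` on subsets of the two lines -/
theorem C3_sm {Y : Finset ℕ} (hYS : Y ⊆ S) (hYE : ∀ j ∈ E1, j ∉ Y) {x : ℕ → ℚ} (hx : x ∈ Ker C3 Y) :
    ∀ L, IsLine L → sm L x = 0 := by
  obtain ⟨h1, h2⟩ := (mem_C3 hYS).1 hx
  have g3 := h2 3 (by decide)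
  have g4 := h2 4 (by decide)
  rw [(F3_sums x).1, h1 1 (hYE 1 (by decide)), h1 2 (hYE 2 (by decide))] at g3
  rw [(F3_sums x).2, h1 1 (hYE 1 (by decide)), h1 2 (hYE 2 (by decide))] at g4
  rintro L (rfl | rfl)
  · linarith
  · linarith

theorem C3_mem {Y : Finset ℕ} (hYS : Y ⊆ S) {L : Finset ℕ} (hL : IsLine L) {x : ℕ → ℚ}
    (hxY : ∀ j ∉ Y, x j = 0) (hxL : ∀ j ∉ L, x j = 0) (h : sm L x = 0) : x ∈ Ker C3 Y := by
  rw [mem_C3 hYS]
  refine ⟨hxY, fun k hk => ?_⟩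
  have hE : ∀ j ∈ E1, x j = 0 := fun j hj => hxL j fun h => line_ne_E1 hL h hj rfl
  obtain ⟨e1, e2, e3, e4, e5⟩ := Aff.coeffs hE
  rcases hL with rfl | rfl
  · by_cases h3 : k = 3
    · rw [h3, (F3_sums x).1]; linarith
    · exact F3_line1 hxL k h3 hk
  · by_cases h4 : k = 4
    · rw [h4, (F3_sums x).2]; linarith
    · exact F3_line2 hxL k h4 hk

theorem mlevel2 {Y : Finset ℕ} (hYS : Y ⊆ S) (hYE : ∀ j ∈ E1, j ∉ Y) :
    MatrixDepthLE 2 7 C3 Y := by
  intro Z hZ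
  by_cases hZ1 : Z.card ≤ 1
  · exact Or.inl hZ1
  right
  have hZY : Z ⊆ Y := by exact_mod_cast hZ.1.1
  have hZS : Z ⊆ S := hZY.trans hYS
  have hZE : ∀ j ∈ E1, j ∉ Z := fun j hj h => hYE j hj (hZY h)
  obtain ⟨e, he, f, hf, hef⟩ := Finset.one_lt_card.1 (not_le.1 hZ1)
  have he' : e ∈ (Z : Set ℕ) := by exact_mod_cast he
  have key : ∀ (L : Finset ℕ) (r : Fin 7), IsLine L → e ∈ L →
      (∀ x : ℕ → ℚ, (∀ j ∉ L, x j = 0) → ∀ i : Fin 7, i ≠ r → F3 ((5 : Fin 8).succAbove i) x = 0) →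
      ∃ (m' : ℕ) (A' : Matrix (Fin m') ℕ ℚ), MatrixStep C3 A' ∧
        colMatroid A' Z ≠ colMatroid C3 Z ∧ MatrixDepthLE 1 m' A' Z := by
    intro L r hL heL hr
    have hZL : Z ⊆ L := by
      have hsp : ∀ x ∈ Ker C3 Y, ind (L : Set ℕ) x ∈ Ker C3 Y := by
        intro x hx
        have h1 := C3_sm hYS hYE hx L hL
        refine C3_mem hYS hL (fun j hj => ?_) (fun j hj => ind_notMem (by exact_mod_cast hj)) ?_
        · by_cases hjL : j ∈ (L : Set ℕ)
          · rw [ind_mem hjL]; exact hx.1 j hj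
          · exact ind_notMem hjL
        · rw [← h1, sm_apply, sm_apply]
          exact Finset.sum_congr rfl fun j hj => ind_mem (by exact_mod_cast hj)
      exact_mod_cast comp_sub_part hsp hZ he' heL
    have hun : ∀ a ∈ Z, un a ∈ Ker (dropRow C3 r) Z := by
      intro a ha
      rw [mem_C4 hZS]
      exact ⟨fun j hj => un_ne (show j ≠ a from fun h => hj (h ▸ ha)),
        hr _ fun j hj => un_ne (show j ≠ a from fun h => hj (h ▸ hZL ha))⟩
    refine ⟨6, dropRow C3 r, dropRow_step _ _, fun h => ?_, mdepth_one fun D hD a ha b hb => ?_⟩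
    · have hi : (colMatroid C3 Z).Indep {e} := by
        rw [indep_iff]
        refine ⟨by simpa using he, fun x hx hxe => ?_⟩
        have := C3_sm hZS hZE hx L hL
        rw [sm_apply, Finset.sum_eq_single e (fun j _ hj => hxe j hj)
          (fun h => absurd heL h)] at this
        funext j
        by_cases hj : j = e
        · rw [hj]; exact this
        · exact hxe j hj
      rw [← h, indep_iff] at hi
      have := congrFun (hi.2 (un e) (hun e he) fun j hj => un_ne hj) e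
      rw [un_self] at this
      norm_num at this
    · by_contra hab
      have hi := hD.sdiff_singleton_indep hb
      rw [indep_iff] at hi
      have haZ : a ∈ Z := by
        have := hD.subset_ground ha
        exact_mod_cast this
      have := congrFun (hi.2 (un a) (hun a haZ) fun j hj =>
        un_ne (show j ≠ a from fun h => hj (by rw [h]; exact ⟨ha, hab⟩))) a
      rw [un_self] at this
      norm_num at this
  rcases mem_S.1 (hZS he) with h | h | h
  · exact absurd he (hZE e h)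
  · refine key L1 3 (Or.inl rfl) h fun x hx i hi => ?_
    have hd : ∀ i : Fin 7, i ≠ 3 → (5 : Fin 8).succAbove i ≠ 3 ∧ (5 : Fin 8).succAbove i ≠ 5 := by
      decide
    exact F3_line1 hx _ (hd i hi).1 (hd i hi).2
  · refine key L2 4 (Or.inr rfl) h fun x hx i hi => ?_
    have hd : ∀ i : Fin 7, i ≠ 4 → (5 : Fin 8).succAbove i ≠ 4 ∧ (5 : Fin 8).succAbove i ≠ 5 := by
      decide
    exact F3_line2 hx _ (hd i hi).1 (hd i hi).2

theorem mem_C1 {x : ℕ → ℚ} : x ∈ Ker C1 S ↔ x ∈ Ker A1 S ∧ x 1 = 0 := by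
  rw [C1, Ker_appendRow, Submodule.mem_inf, LinearMap.mem_ker, rowF_apply,
    sum_dl (kS (k := 1) (by norm_num))]

theorem mem_C2 {x : ℕ → ℚ} : x ∈ Ker C2 S ↔ x ∈ Ker A1 S ∧ x 1 = 0 ∧ x 2 = 0 := by
  rw [C2, Ker_appendRow, Submodule.mem_inf, LinearMap.mem_ker, rowF_apply,
    sum_dl (kS (k := 2) (by norm_num)), mem_C1, and_assoc]

theorem C2_E1 {x : ℕ → ℚ} (hx : x ∈ Ker C2 S) : ∀ j ∈ E1, x j = 0 := by
  obtain ⟨h1, h2, h3⟩ := mem_C2.1 hx
  exact (mem_K1.1 h1).2.1.zero (by decide) (by decide) (by decide) h2 h3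

theorem mlevel3 {X : Finset ℕ} (hXS : X ⊆ S) : MatrixDepthLE 3 8 C2 X := by
  intro Y hY
  by_cases hY1 : Y.card ≤ 1
  · exact Or.inl hY1
  right
  have hYX : Y ⊆ X := by exact_mod_cast hY.1.1
  have hYS : Y ⊆ S := hYX.trans hXS
  have hYE : ∀ j ∈ E1, j ∉ Y := by
    intro e heE he
    obtain ⟨f, hf, hef⟩ := Finset.exists_mem_ne (not_le.1 hY1) e
    obtain ⟨C, hC, h1, h2⟩ := hY.1.2 e (by exact_mod_cast he) f (by exact_mod_cast hf) hef.symm
    obtain ⟨u, hu, huC⟩ := exists_of_isCircuit hC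
    exact (huC e).2 h1 (C2_E1 ((mem_Ker_sub hXS).1 hu).1 e heE)
  -- two elements on the same line
  obtain ⟨L, hL, e, heL, he, f, hfL, hf, hef⟩ : ∃ L, IsLine L ∧ ∃ e, e ∈ L ∧ e ∈ Y ∧
      ∃ f, f ∈ L ∧ f ∈ Y ∧ f ≠ e := by
    obtain ⟨e, he, f, hf, hef⟩ := Finset.one_lt_card.1 (not_le.1 hY1)
    have he' : e ∈ (Y : Set ℕ) := by exact_mod_cast he
    obtain ⟨C, hC, h1, h2⟩ := hY.1.2 e he' f (by exact_mod_cast hf) hef
    have hCY := circuit_subset_component hY hC ⟨e, h1, he'⟩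
    obtain ⟨u, hu, huC⟩ := exists_of_isCircuit hC
    have huS := ((mem_Ker_sub hXS).1 hu).1
    obtain ⟨hK, hu1, hu2⟩ := mem_C2.1 huS
    obtain ⟨-, -, g3, g4, -⟩ := mem_K1.1 hK
    obtain ⟨L, hL, heL, hs⟩ : ∃ L, IsLine L ∧ e ∈ L ∧ sm L u = 0 := by
      rcases mem_S.1 (hYS he) with h | h | h
      · exact absurd he (hYE e h)
      · exact ⟨L1, Or.inl rfl, h, by linarith⟩
      · exact ⟨L2, Or.inr rfl, h, by linarith⟩
    obtain ⟨f', hf'L, hf'u, hf'e⟩ : ∃ f', f' ∈ L ∧ u f' ≠ 0 ∧ f' ≠ e := by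
      by_contra hcon
      push Not at hcon
      rw [sm_apply, Finset.sum_eq_single e (fun j hj hje => by
        by_contra h0
        exact hje (hcon j hj h0)) (fun h => absurd heL h)] at hs
      exact (huC e).2 h1 hs
    exact ⟨L, hL, e, heL, he, f', hf'L, by exact_mod_cast hCY ((huC f').1 hf'u), hf'e⟩
  refine ⟨7, C3, dropRow_step C2 5, fun h => ?_, mlevel2 hYS hYE⟩
  have hi : (colMatroid C2 Y).Indep {e, f} := by
    rw [indep_iff]
    refine ⟨?_, fun x hx hxe => ?_⟩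
    · intro j hj
      rcases hj with rfl | rfl
      · exact_mod_cast he
      · exact_mod_cast hf
    · have hxS := ((mem_Ker_sub hYS).1 hx).1
      refine pair1 (hYS he) (hYS hf) (mem_C2.1 hxS).1 fun j h1 h2 => hxe j ?_
      simp [h1, h2]
  rw [← h, indep_iff] at hi
  have hm : un e - un f ∈ Ker C3 Y := by
    refine C3_mem hYS hL (fun j hj => ?_) (fun j hj => ?_) ?_
    · rw [Pi.sub_apply, un_ne (show j ≠ e from fun h => hj (h ▸ he)),
        un_ne (show j ≠ f from fun h => hj (h ▸ hf)), sub_zero]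
    · rw [Pi.sub_apply, un_ne (show j ≠ e from fun h => hj (h ▸ heL)),
        un_ne (show j ≠ f from fun h => hj (h ▸ hfL)), sub_zero]
    · rw [map_sub, sm_un heL, sm_un hfL, sub_self]
  have := congrFun (hi.2 _ hm fun j hj => by
    rw [Set.mem_insert_iff, Set.mem_singleton_iff, not_or] at hj
    rw [Pi.sub_apply, un_ne hj.1, un_ne hj.2, sub_zero]) e
  rw [Pi.sub_apply, un_self, un_ne hef.symm] at this
  norm_num at this

/-- vectors of the dependency space of `A1` vanishing on `E1` and supported on `11, 12, 21` -/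
theorem three_pts {x : ℕ → ℚ} (hx : x ∈ Ker A1 S) (hE : ∀ j ∈ E1, x j = 0)
    (h : ∀ j, j ∈ L1 ∨ j ∈ L2 → j ≠ 11 → j ≠ 12 → j ≠ 21 → x j = 0) : x = 0 := by
  refine indep1 (I := {11, 12, 21}) (by decide) ⟨by decide, by decide, by decide, by decide⟩ hx
    fun j hj => ?_
  simp only [Finset.mem_insert, Finset.mem_singleton, not_or] at hj
  by_cases hjS : j ∈ S
  · rcases mem_S.1 hjS with h' | h'
    · exact hE j h'
    · exact h j h' hj.1 hj.2.1 hj.2.2
  · exact hx.1 j hjS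

theorem mlevel4 : MatrixDepthLE 4 7 C1 S := by
  intro Y hY
  by_cases hY1 : Y.card ≤ 1
  · exact Or.inl hY1
  right
  have hYS : Y ⊆ S := by exact_mod_cast hY.1.1
  have h1Y : 1 ∉ Y := by
    intro he
    obtain ⟨f, hf, hef⟩ := Finset.exists_mem_ne (not_le.1 hY1) 1
    obtain ⟨C, hC, h1, h2⟩ := hY.1.2 1 (by exact_mod_cast he) f (by exact_mod_cast hf) hef.symm
    obtain ⟨u, hu, huC⟩ := exists_of_isCircuit hC
    exact (huC 1).2 h1 (mem_C1.1 hu).2
  have hsplit := comp_split hY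
  have hbig : (S \ Y).card ≤ 1 := by
    refine (threeC hYS (P 1) fun x hx h0 => ?_).resolve_left hY1
    exact (mem_C1.1 (hsplit x (mem_C1.2 ⟨hx, h0⟩))).1
  have hYe : Y = S.erase 1 := by
    ext j
    rw [Finset.mem_erase]
    constructor
    · intro hj
      exact ⟨fun h => h1Y (h ▸ hj), hYS hj⟩
    · rintro ⟨h1, h2⟩
      by_contra hj
      exact h1 (Finset.card_le_one.1 hbig j (Finset.mem_sdiff.2 ⟨h2, hj⟩) 1
        (Finset.mem_sdiff.2 ⟨by decide, h1Y⟩))
  refine ⟨8, C2, MatrixStep.d C1 (dl 2), fun h => ?_, mlevel3 hYS⟩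
  have hi : (colMatroid C2 Y).Indep (({2, 3, 4, 5, 11, 12, 21} : Finset ℕ) : Set ℕ) := by
    rw [indep_iff]
    refine ⟨?_, fun x hx hx0 => ?_⟩
    · rw [hYe]
      exact_mod_cast (by decide : ({2, 3, 4, 5, 11, 12, 21} : Finset ℕ) ⊆ S.erase 1)
    · have hxS := ((mem_Ker_sub hYS).1 hx).1
      refine three_pts (mem_C2.1 hxS).1 (C2_E1 hxS) fun j hj j1 j2 j3 => hx0 j fun hj' => ?_
      have hj'' : j ∈ ({2, 3, 4, 5, 11, 12, 21} : Finset ℕ) := by exact_mod_cast hj'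
      simp only [Finset.mem_insert, Finset.mem_singleton] at hj''
      rw [mem_L1, mem_L2] at hj
      omega
  rw [h, indep_iff] at hi
  have hsupp : ∀ j, j ∉ ({2, 3, 4, 5, 11, 12, 21} : Finset ℕ) → yv (-1) 1 j = 0 := by
    intro j hj
    simp only [Finset.mem_insert, Finset.mem_singleton, not_or] at hj
    obtain ⟨n2, n3, n4, n5, n11, n12, n21⟩ := hj
    by_cases hjE : j ∈ E1
    · have := mem_E1.1 hjE
      have hj1 : j = 1 := by omega
      rw [yv_E1 hjE, hj1]; norm_num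
    · simp [yv, ev_not hjE, un_ne n11, un_ne n12, un_ne n21]
  have hm : yv (-1) 1 ∈ Ker C1 Y := by
    rw [mem_Ker_sub hYS, mem_C1]
    have h1 : yv (-1) 1 1 = 0 := hsupp 1 (by decide)
    refine ⟨⟨yv_mem _ _, h1⟩, fun j hj => ?_⟩
    rw [hYe, Finset.mem_erase, not_and_or, not_not] at hj
    rcases hj with hj | hj
    · rw [hj]; exact h1
    · exact (yv_mem _ _).1 j hj
  have := congrFun (hi.2 _ hm fun j hj => hsupp j (by exact_mod_cast hj)) 2
  rw [yv_E1 (by decide)] at this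
  norm_num at this

/-- the matrix has depth at most `5` -/
theorem mupper : MatrixDepthLE 5 6 A1 S := by
  intro X hX
  right
  have hXS : X = S := by exact_mod_cast conn1 hX
  subst hXS
  refine ⟨7, C1, MatrixStep.d A1 (dl 1), fun h => ?_, mlevel4⟩
  have hi : (colMatroid C1 S).Indep (({1, 2, 3, 4, 11, 12, 21} : Finset ℕ) : Set ℕ) := by
    rw [indep_iff]
    refine ⟨by exact_mod_cast (by decide : ({1, 2, 3, 4, 11, 12, 21} : Finset ℕ) ⊆ S),
      fun x hx hx0 => ?_⟩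
    obtain ⟨hK, h1⟩ := mem_C1.1 hx
    have hz : ∀ j, j ∉ ({1, 2, 3, 4, 11, 12, 21} : Finset ℕ) → x j = 0 :=
      fun j hj => hx0 j (by exact_mod_cast hj)
    have h5 := hz 5 (by decide)
    have hE := (mem_K1.1 hK).2.1.zero (a := 1) (b := 5) (by decide) (by decide) (by decide) h1 h5
    refine three_pts hK hE fun j hj j1 j2 j3 => hz j fun hj' => ?_
    simp only [Finset.mem_insert, Finset.mem_singleton] at hj'
    rw [mem_L1, mem_L2] at hj
    omega
  rw [h] at hi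
  have hc := ((indep_A1 _).1 hi).2
  exact absurd hc.2.2.2 (by decide)

end Pool.Agent.R880.CD
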